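import Mathlib

namespace TSP

open Real

/-- choice of the parameter `k` -/
theorem choose_k2 (k₀ : ℕ) : ∃ R : ℝ, 1 ≤ R ∧ ∀ n S T : ℕ, 1 ≤ S → R * S ≤ n →
    (T : ℝ) ≤ 1 / 80 * (n * (log (n / S) / log (log (n / S)))) →
    ∃ k : ℕ, k₀ ≤ k ∧ S * k ^ (40 * k) ≤ n ∧ T + k ^ (20 * k) ≤ k * n ∧
      ((n : ℝ) / S) ^ (1 / 320 : ℝ) ≤ (k : ℝ) ^ k := by
  refine ⟨exp (exp 1 + (400 * (k₀ + 1)) ^ 2 + 160 ^ 4), ?_, fun n S T hS hn hT => ?_⟩
  · rw [one_le_exp_iff]; positivity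
  have hS0 : (0 : ℝ) < S := by exact_mod_cast hS
  set x := log (n / S) with hx
  set y := log x with hy
  have hR : exp (exp 1 + (400 * (k₀ + 1)) ^ 2 + 160 ^ 4) ≤ (n : ℝ) / S := by
    rw [le_div_iff₀ hS0]; exact hn
  have hnS : (0 : ℝ) < (n : ℝ) / S := lt_of_lt_of_le (exp_pos _) hR
  have hx1 : exp 1 + (400 * (k₀ + 1)) ^ 2 + 160 ^ 4 ≤ x := by
    rw [hx, le_log_iff_exp_le hnS]; exact hR
  have hx2 : exp 1 ≤ x := le_trans (by linarith [sq_nonneg (400 * ((k₀ : ℝ) + 1))]) hx1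
  have hx4 : (160 : ℝ) ^ 4 ≤ x :=
    le_trans (by linarith [sq_nonneg (400 * ((k₀ : ℝ) + 1)), exp_pos (1 : ℝ)]) hx1
  have hx0 : 0 < x := lt_of_lt_of_le (exp_pos _) hx2
  have hy1 : 1 ≤ y := by
    rw [hy, le_log_iff_exp_le hx0]; exact hx2
  have hy0 : 0 < y := by linarith
  have hsq : 400 * ((k₀ : ℝ) + 1) ≤ √x := by
    apply le_sqrt_of_sq_le
    have := exp_pos 1
    linarith
  have hylt : y ≤ 2 * √x := by
    have h1 : log (√x) ≤ √x := (log_le_sub_one_of_pos (by positivity)).trans (by linarith)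
    have h2 : log (√x) = y / 2 := by rw [log_sqrt hx0.le]
    linarith
  have hxy : 200 * ((k₀ : ℝ) + 1) ≤ x / y := by
    rw [le_div_iff₀ hy0]
    have : √x * √x = x := mul_self_sqrt hx0.le
    nlinarith [sqrt_nonneg x]
  set u := 1 / 80 * (x / y) with hu
  have hu0 : 2 * ((k₀ : ℝ) + 1) ≤ u := by rw [hu]; linarith
  set k := ⌈u⌉₊ + 1 with hk
  have hku : u ≤ ⌈u⌉₊ := Nat.le_ceil u
  have hku2 : (⌈u⌉₊ : ℝ) < u + 1 := Nat.ceil_lt_add_one (by linarith [(k₀.cast_nonneg : (0:ℝ) ≤ k₀)])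
  have hk0 : (0:ℝ) ≤ k₀ := k₀.cast_nonneg
  have hk1 : (k : ℝ) = ⌈u⌉₊ + 1 := by rw [hk]; push_cast; ring
  have hkle : (k : ℝ) ≤ 2 * u := by rw [hk1]; linarith
  have hkpos : 0 < k := by omega
  have hkpos' : (0 : ℝ) < k := by exact_mod_cast hkpos
  have hlogk : log k ≤ y := by
    rw [hy]
    apply log_le_log hkpos'
    refine hkle.trans ?_
    rw [hu]
    have : x / y ≤ x := div_le_self hx0.le hy1
    linarith
  have hmain : (k : ℝ) ^ (40 * k) ≤ (n : ℝ) / S := by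
    have e1 : (k : ℝ) ^ (40 * k) = exp (40 * k * log k) := by
      rw [← exp_log (pow_pos hkpos' (40 * k)), log_pow]
      push_cast; ring_nf
    rw [e1]
    rw [← exp_log hnS, ← hx]
    apply exp_le_exp.2
    have hlk0 : 0 ≤ log k := log_nonneg (by exact_mod_cast hkpos)
    calc 40 * (k : ℝ) * log k ≤ 40 * (2 * u) * y := by
          apply mul_le_mul _ hlogk hlk0 (by positivity)
          linarith
      _ = x := by rw [hu]; field_simp; ring
  have hlow : ((n : ℝ) / S) ^ (1 / 320 : ℝ) ≤ (k : ℝ) ^ k := by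
    have e1 : (k : ℝ) ^ k = exp (k * log k) := by
      rw [← exp_log (pow_pos hkpos' k), log_pow]
    have e2 : ((n : ℝ) / S) ^ (1 / 320 : ℝ) = exp (x / 320) := by
      rw [rpow_def_of_pos hnS, ← hx]
      congr 1
      ring
    rw [e1, e2]
    apply exp_le_exp.2
    have hu1 : u ≤ k := by rw [hk1]; linarith
    have hupos : 0 < u := by linarith
    have hsx : (160 : ℝ) ≤ √(√x) := by
      apply le_sqrt_of_sq_le
      apply le_sqrt_of_sq_le
      calc ((160 : ℝ) ^ 2) ^ 2 = 160 ^ 4 := by norm_num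
        _ ≤ x := hx4
    have hss : √(√x) * √(√x) = √x := mul_self_sqrt (sqrt_nonneg x)
    have hu2 : √(√x) ≤ u := by
      have h1 : √x / 2 ≤ x / y := by
        rw [le_div_iff₀ hy0]
        have : √x * √x = x := mul_self_sqrt hx0.le
        nlinarith [sqrt_nonneg x]
      have h2 : 160 * √(√x) ≤ √x := by
        calc 160 * √(√x) ≤ √(√x) * √(√x) := by gcongr
          _ = √x := hss
      rw [hu]
      linarith
    have hlogu : y / 4 ≤ log u := by
      have h1 : log (√(√x)) = y / 4 := by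
        rw [log_sqrt (sqrt_nonneg x), log_sqrt hx0.le]
        ring
      rw [← h1]
      exact log_le_log (by positivity) hu2
    have hlogk' : y / 4 ≤ log k := hlogu.trans (log_le_log hupos hu1)
    calc x / 320 = u * (y / 4) := by rw [hu]; field_simp; ring
      _ ≤ k * log k := by
        apply mul_le_mul hu1 hlogk' (by positivity) hkpos'.le
  refine ⟨k, ?_, ?_, ?_, hlow⟩
  · have : (k₀ : ℝ) ≤ k := by rw [hk1]; linarith
    exact_mod_cast this
  · rw [le_div_iff₀ hS0] at hmain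
    have : ((S * k ^ (40 * k) : ℕ) : ℝ) ≤ n := by push_cast; linarith
    exact_mod_cast this
  · have h1 : (k : ℝ) ^ (20 * k) ≤ (n : ℝ) := by
      have h2 : (k : ℝ) ^ (20 * k) ≤ (k : ℝ) ^ (40 * k) :=
        pow_le_pow_right₀ (by exact_mod_cast hkpos) (by omega)
      have h3 : (n : ℝ) / S ≤ n := div_le_self n.cast_nonneg (by exact_mod_cast hS)
      linarith
    have h4 : (T : ℝ) ≤ n * ⌈u⌉₊ := by
      refine hT.trans ?_
      calc 1 / 80 * (n * (x / y)) = n * u := by rw [hu]; ring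
        _ ≤ n * ⌈u⌉₊ := by gcongr
    have : ((T + k ^ (20 * k) : ℕ) : ℝ) ≤ ((k * n : ℕ) : ℝ) := by
      push_cast
      rw [hk1] at h1 ⊢
      nlinarith
    exact_mod_cast this

end TSP
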