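import Pool.Agent.TSP.Defs

namespace TSP

open Finset

section general

theorem ex_equiv {X Y : Type} [Fintype X] [Fintype Y] (e : X ≃ Y) (f : Y → ℝ) :
    ex (fun x => f (e x)) = ex f := by
  unfold ex
  rw [Fintype.card_congr e, Equiv.sum_comp e f]

theorem ex_hom {X Y : Type} [AddGroup X] [AddGroup Y] [Fintype X] [Fintype Y] (φ : X →+ Y)
    (hφ : Function.Surjective φ) (f : Y → ℝ) : ex (fun x => f (φ x)) = ex f := by
  classical
  have hc : ∀ y : Y, (univ.filter fun x => φ x = y).card = (univ.filter fun x => φ x = 0).card := by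
    intro y
    exact AddMonoidHom.card_fiber_eq_of_mem_range φ (hφ y) (hφ 0)
  set k := (univ.filter fun x => φ x = 0).card with hk
  have hX : (Fintype.card X : ℝ) = k * Fintype.card Y := by
    have h1 : (univ : Finset X).card = ∑ y : Y, (univ.filter fun x => φ x = y).card :=
      Finset.card_eq_sum_card_fiberwise fun x _ => mem_univ _
    simp only [hc, sum_const, card_univ, smul_eq_mul] at h1
    have h2 : (Fintype.card X : ℝ) = ((Fintype.card Y * k : ℕ) : ℝ) := by exact_mod_cast h1
    rw [h2]; push_cast; ring
  have hS : ∑ x : X, f (φ x) = k * ∑ y : Y, f y := by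
    rw [← Finset.sum_fiberwise (s := univ) (g := φ)]
    rw [Finset.mul_sum]
    apply Finset.sum_congr rfl
    intro y _
    rw [Finset.sum_congr rfl (g := fun _ => f y) fun x hx => by rw [(Finset.mem_filter.1 hx).2]]
    rw [sum_const, hc, nsmul_eq_mul]
  have hk0 : (k : ℝ) ≠ 0 := by
    have : 0 < k := Finset.card_pos.2 ⟨0, by simp⟩
    exact_mod_cast this.ne'
  unfold ex
  rw [hX, hS]
  rw [mul_div_mul_left _ _ hk0]

theorem ex_nonneg {X : Type} [Fintype X] {f : X → ℝ} (h : ∀ x, 0 ≤ f x) : 0 ≤ ex f :=
  div_nonneg (sum_nonneg fun x _ => h x) (Nat.cast_nonneg _)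

theorem ex_mono {X : Type} [Fintype X] {f g : X → ℝ} (h : ∀ x, f x ≤ g x) : ex f ≤ ex g := by
  unfold ex
  exact div_le_div_of_nonneg_right (sum_le_sum fun x _ => h x) (Nat.cast_nonneg _)

theorem abs_ex_le {X : Type} [Fintype X] (f : X → ℝ) : |ex f| ≤ ex fun x => |f x| := by
  unfold ex
  rw [abs_div, Nat.abs_cast]
  exact div_le_div_of_nonneg_right (abs_sum_le_sum_abs _ _) (Nat.cast_nonneg _)

theorem ex_const_le {X : Type} [Fintype X] {c : ℝ} (hc : 0 ≤ c) : ex (fun _ : X => c) ≤ c := by
  unfold ex
  rw [sum_const, card_univ, nsmul_eq_mul]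
  rcases Nat.eq_zero_or_pos (Fintype.card X) with h | h
  · rw [h]; simp [hc]
  · have : (0:ℝ) < Fintype.card X := by exact_mod_cast h
    rw [mul_div_assoc, mul_div_cancel₀]
    exact this.ne'

theorem ex_prod {X Y : Type} [Fintype X] [Fintype Y] (f : X × Y → ℝ) :
    ex f = ex fun y => ex fun x => f (x, y) := by
  unfold ex
  rw [Fintype.card_prod, Fintype.sum_prod_type_right, ← Finset.sum_div, div_div]
  push_cast
  ring

theorem ex_const_mul {X : Type} [Fintype X] (c : ℝ) (f : X → ℝ) : ex (fun x => c * f x) = c * ex f := by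
  unfold ex
  rw [← Finset.mul_sum, mul_div_assoc]

end general

section character

theorem z2_cases (a : ZMod 2) : a = 0 ∨ a = 1 := by
  revert a; decide

theorem chi_add (a b : ZMod 2) : chi (a + b) = chi a * chi b := by
  have h1 : (1 : ZMod 2) ≠ 0 := by decide
  have h2 : (1 : ZMod 2) + 1 = 0 := by decide
  rcases z2_cases a with rfl | rfl <;> rcases z2_cases b with rfl | rfl
  · simp [chi]
  · simp [chi]
  · simp [chi]
  · simp [chi, h2]

theorem chi_zero : chi 0 = 1 := by simp [chi]

theorem abs_chi (a : ZMod 2) : |chi a| = 1 := by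
  unfold chi; split_ifs <;> simp

theorem chi_le_one (a : ZMod 2) : chi a ≤ 1 := (le_abs_self _).trans (abs_chi a).le

theorem chi_mul_self (a : ZMod 2) : chi a * chi a = 1 := by
  unfold chi; split_ifs <;> norm_num

variable {n : ℕ}

/-- the average of a character is zero or one -/
theorem ex_chi_lin (l : Fin n → ZMod 2) :
    ex (fun u : Fin n → ZMod 2 => chi (∑ a, u a * l a)) = if l = 0 then 1 else 0 := by
  split_ifs with h
  · rw [h]
    simp [chi_zero, ex]
  · have : ∃ a, l a ≠ 0 := by
      by_contra hcon
      push Not at hcon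
      exact h (funext hcon)
    obtain ⟨a, ha⟩ := this
    have ha1 : l a = 1 := by
      generalize l a = b at ha
      fin_cases b
      · exact absurd rfl ha
      · rfl
    -- shift by the basis vector `a`
    have hs : ex (fun u : Fin n → ZMod 2 => chi (∑ b, u b * l b)) =
        - ex (fun u : Fin n → ZMod 2 => chi (∑ b, u b * l b)) := by
      have e1 := ex_equiv (Equiv.addRight (Pi.single a 1 : Fin n → ZMod 2))
        (fun u : Fin n → ZMod 2 => chi (∑ b, u b * l b))
      have e2 : (fun u : Fin n → ZMod 2 => chi (∑ b, (Equiv.addRight (Pi.single a 1 : Fin n → ZMod 2) u) b * l b)) =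
          fun u => (-1) * chi (∑ b, u b * l b) := by
        funext u
        have : ∑ b, (Equiv.addRight (Pi.single a 1 : Fin n → ZMod 2) u) b * l b =
            (∑ b, u b * l b) + 1 := by
          simp only [Equiv.coe_addRight, Pi.add_apply, add_mul, sum_add_distrib]
          congr 1
          rw [Finset.sum_eq_single a]
          · simp [ha1]
          · intro b _ hb
            simp [hb]
          · simp
        rw [this, chi_add]
        have : chi (1 : ZMod 2) = -1 := by simp [chi]
        rw [this]; ring
      rw [e2, ex_const_mul] at e1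
      linarith
    linarith

end character

/-- the linear forms of `T` in the first variable -/
def rowT {n : ℕ} (c : Fin n → Fin n → Fin n → ZMod 2) (A A' B : Finset (Fin n))
    (u' v : Fin n → ZMod 2) (a : Fin n) : ZMod 2 :=
  if a ∈ A then ∑ a' ∈ A', ∑ b ∈ B, c a a' b * u' a' * v b else 0

theorem T_eq_row {n : ℕ} (c : Fin n → Fin n → Fin n → ZMod 2) (A A' B : Finset (Fin n))
    (u u' v : Fin n → ZMod 2) : T c A A' B u u' v = ∑ a, u a * rowT c A A' B u' v a := by
  unfold T rowT
  simp only [mul_ite, mul_zero]
  rw [Finset.sum_ite_mem, Finset.univ_inter]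
  apply Finset.sum_congr rfl
  intro a _
  rw [Finset.mul_sum]
  apply Finset.sum_congr rfl
  intro a' _
  rw [Finset.mul_sum]
  apply Finset.sum_congr rfl
  intro b _
  ring

theorem K_eq {n : ℕ} (c : Fin n → Fin n → Fin n → ZMod 2) (A A' B : Finset (Fin n))
    (v : Fin n → ZMod 2) : K c A A' B v =
      ex fun u' : Fin n → ZMod 2 => if rowT c A A' B u' v = 0 then (1:ℝ) else 0 := by
  unfold K
  rw [ex_prod]
  congr 1
  funext u'
  simp only [T_eq_row]
  exact ex_chi_lin _

theorem K_nonneg {n : ℕ} (c : Fin n → Fin n → Fin n → ZMod 2) (A A' B : Finset (Fin n))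
    (v : Fin n → ZMod 2) : 0 ≤ K c A A' B v := by
  rw [K_eq]
  apply ex_nonneg
  intro x
  split_ifs <;> norm_num

theorem K_le_one {n : ℕ} (c : Fin n → Fin n → Fin n → ZMod 2) (A A' B : Finset (Fin n))
    (v : Fin n → ZMod 2) : K c A A' B v ≤ 1 := by
  rw [K_eq]
  refine (ex_mono (g := fun _ => (1:ℝ)) fun x => ?_).trans (ex_const_le zero_le_one)
  split_ifs <;> norm_num

/-- bits as elements of the field with two elements -/
def bitEquiv : Bool ≃ ZMod 2 where
  toFun := bit
  invFun a := decide (a = 1)
  left_inv b := by cases b <;> decide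
  right_inv a := by
    rcases z2_cases a with rfl | rfl <;> decide

/-- functions with values in bits as functions with values in the field with two elements -/
def funEquiv (ι : Type) : (ι → Bool) ≃ (ι → ZMod 2) := Equiv.piCongrRight fun _ => bitEquiv

theorem funEquiv_apply {ι : Type} (u : ι → Bool) (i : ι) : funEquiv ι u i = bit (u i) := rfl

/-- restriction to the first two blocks -/
def blocks01 (n : ℕ) : (V n → ZMod 2) →+ (Fin n → ZMod 2) × (Fin n → ZMod 2) where
  toFun u := (fun a => u (0, a), fun a => u (1, a))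
  map_zero' := rfl
  map_add' _ _ := rfl

theorem blocks01_surj (n : ℕ) : Function.Surjective (blocks01 n) := by
  intro p
  refine ⟨fun i => if i.1 = 0 then p.1 i.2 else p.2 i.2, ?_⟩
  apply Prod.ext
  · funext a
    simp [blocks01]
  · funext a
    simp [blocks01]

theorem ex_blocks01 {n : ℕ} (g : (Fin n → ZMod 2) × (Fin n → ZMod 2) → ℝ) :
    ex (fun u : V n → Bool => g (fun a => bit (u (0, a)), fun a => bit (u (1, a)))) = ex g := by
  rw [← ex_hom (blocks01 n) (blocks01_surj n) g, ← ex_equiv (funEquiv (V n))]
  rfl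

/-- an affine condition is at most as likely as the linear one -/
theorem ex_affine_le {X Y : Type} [AddGroup X] [AddGroup Y] [Fintype X] [Fintype Y] [DecidableEq Y]
    (ψ : X →+ Y) (y : Y) :
    ex (fun x => if ψ x = y then (1:ℝ) else 0) ≤ ex (fun x => if ψ x = 0 then (1:ℝ) else 0) := by
  unfold ex
  apply div_le_div_of_nonneg_right _ (Nat.cast_nonneg _)
  rw [← Finset.sum_filter, ← Finset.sum_filter, sum_const, sum_const, nsmul_eq_mul, nsmul_eq_mul,
    mul_one, mul_one]
  have h : (univ.filter fun x => ψ x = y).card ≤ (univ.filter fun x => ψ x = 0).card := by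
    by_cases hy : y ∈ Set.range ψ
    · exact (AddMonoidHom.card_fiber_eq_of_mem_range ψ hy ⟨0, map_zero ψ⟩).le
    · have : (univ.filter fun x => ψ x = y) = ∅ := by
        rw [Finset.filter_eq_empty_iff]
        intro x _ hx
        exact hy ⟨x, hx⟩
      rw [this]; simp
  exact_mod_cast h

/-- the row map as a homomorphism -/
def rowHom {n : ℕ} (c : Fin n → Fin n → Fin n → ZMod 2) (A A' B : Finset (Fin n))
    (v : Fin n → ZMod 2) : (Fin n → ZMod 2) →+ (Fin n → ZMod 2) where
  toFun u' := rowT c A A' B u' v
  map_zero' := by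
    funext a
    simp [rowT]
  map_add' x y := by
    funext a
    simp only [rowT, Pi.add_apply]
    split_ifs
    · rw [← sum_add_distrib]
      apply sum_congr rfl
      intro a' _
      rw [← sum_add_distrib]
      apply sum_congr rfl
      intro b _
      ring
    · simp

/-- Row R4: the correlation of two copies of the trilinear form which differ on `DB B`
is at most the bias of the bilinear form of the difference. -/
theorem bias_bound {n : ℕ} (c : Fin n → Fin n → Fin n → ZMod 2) (A A' B : Finset (Fin n))
    (z v v' : V n → Bool) :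
    |ex fun u : V n → Bool => chi (tri c (merge (DA A A') u (merge (DB B) v z))) *
      chi (tri c (merge (DA A A') u (merge (DB B) v' z)))| ≤
      K c A A' B (fun b => bit (v (2, b)) + bit (v' (2, b))) := by
  set δ : Fin n → ZMod 2 := fun b => bit (v (2, b)) + bit (v' (2, b)) with hδ
  set M : Fin n → Fin n → ZMod 2 := fun a a' => ∑ b ∈ B, c a a' b * δ b with hM
  set X0 : (Fin n → ZMod 2) → Fin n → ZMod 2 := fun p a => if a ∈ A then p a else bit (z (0, a)) with hX0
  set X1 : (Fin n → ZMod 2) → Fin n → ZMod 2 := fun q a => if a ∈ A' then q a else bit (z (1, a)) with hX1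
  set g : (Fin n → ZMod 2) × (Fin n → ZMod 2) → ℝ := fun p =>
    chi (∑ a, X0 p.1 a * ∑ a', X1 p.2 a' * M a a') with hg
  have e1 : (fun u : V n → Bool => chi (tri c (merge (DA A A') u (merge (DB B) v z))) *
      chi (tri c (merge (DA A A') u (merge (DB B) v' z)))) =
      fun u => g (fun a => bit (u (0, a)), fun a => bit (u (1, a))) := by
    funext u
    rw [← chi_add, hg]
    beta_reduce
    congr 1
    unfold tri
    rw [← sum_add_distrib]
    apply sum_congr rfl
    intro a _
    rw [← sum_add_distrib, Finset.mul_sum]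
    apply sum_congr rfl
    intro a' _
    rw [← sum_add_distrib]
    have m0 : ∀ w : V n → Bool, bit (merge (DA A A') u (merge (DB B) w z) (0, a)) =
        X0 (fun a => bit (u (0, a))) a := by
      intro w
      simp [merge, DA, DB, hX0]
      split_ifs <;> rfl
    have m1 : ∀ w : V n → Bool, bit (merge (DA A A') u (merge (DB B) w z) (1, a')) =
        X1 (fun a => bit (u (1, a))) a' := by
      intro w
      simp [merge, DA, DB, hX1]
      split_ifs <;> rfl
    have m2 : ∀ (w : V n → Bool) b, bit (merge (DA A A') u (merge (DB B) w z) (2, b)) =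
        if b ∈ B then bit (w (2, b)) else bit (z (2, b)) := by
      intro w b
      simp [merge, DA, DB]
      split_ifs <;> rfl
    simp only [m0, m1, m2]
    have e2 : ∀ b, c a a' b * X0 (fun a => bit (u (0, a))) a * X1 (fun a => bit (u (1, a))) a' *
          (if b ∈ B then bit (v (2, b)) else bit (z (2, b))) +
        c a a' b * X0 (fun a => bit (u (0, a))) a * X1 (fun a => bit (u (1, a))) a' *
          (if b ∈ B then bit (v' (2, b)) else bit (z (2, b))) =
        if b ∈ B then X0 (fun a => bit (u (0, a))) a * (X1 (fun a => bit (u (1, a))) a' *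
          (c a a' b * δ b)) else 0 := by
      intro b
      split_ifs with hb
      · rw [hδ]; ring
      · have : ∀ y : ZMod 2, y + y = 0 := by decide
        exact this _
    simp only [e2]
    rw [Finset.sum_ite_mem, Finset.univ_inter, hM]
    beta_reduce
    rw [Finset.mul_sum, Finset.mul_sum]
  rw [e1, ex_blocks01, ex_prod]
  refine (abs_ex_le _).trans ?_
  rw [K_eq]
  -- the constant part of the row
  set r0 : Fin n → ZMod 2 := fun a => if a ∈ A then
    ∑ a', (if a' ∈ A' then 0 else bit (z (1, a'))) * M a a' else 0 with hr0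
  have hrow : ∀ (q : Fin n → ZMod 2) (a : Fin n), (if a ∈ A then ∑ a', X1 q a' * M a a' else 0) =
      rowT c A A' B q δ a + r0 a := by
    intro q a
    rw [hr0]
    unfold rowT
    beta_reduce
    split_ifs with ha
    · have : ∀ a', X1 q a' * M a a' = (if a' ∈ A' then q a' * M a a' else 0) +
          (if a' ∈ A' then 0 else bit (z (1, a'))) * M a a' := by
        intro a'
        rw [hX1]
        beta_reduce
        split_ifs <;> ring
      simp only [this]
      rw [sum_add_distrib, Finset.sum_ite_mem, Finset.univ_inter]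
      congr 1
      apply sum_congr rfl
      intro a' _
      rw [hM]
      beta_reduce
      rw [Finset.mul_sum]
      apply sum_congr rfl
      intro b _
      ring
    · simp
  have key : ∀ q : Fin n → ZMod 2, |ex fun p => g (p, q)| ≤
      if rowHom c A A' B δ q = -r0 then (1:ℝ) else 0 := by
    intro q
    have e3 : (fun p => g (p, q)) = fun p =>
        chi (∑ a, (if a ∈ A then 0 else bit (z (0, a))) * ∑ a', X1 q a' * M a a') *
          chi (∑ a, p a * (rowT c A A' B q δ a + r0 a)) := by
      funext p
      rw [← chi_add, hg]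
      beta_reduce
      congr 1
      rw [← sum_add_distrib]
      apply sum_congr rfl
      intro a _
      rw [← hrow, hX0]
      beta_reduce
      split_ifs <;> ring
    rw [e3, ex_const_mul, abs_mul, abs_chi, one_mul]
    rw [ex_chi_lin fun a => rowT c A A' B q δ a + r0 a]
    have hiff : ((fun a => rowT c A A' B q δ a + r0 a) = 0) ↔ rowHom c A A' B δ q = -r0 := by
      rw [eq_neg_iff_add_eq_zero]
      rfl
    by_cases h : rowHom c A A' B δ q = -r0
    · rw [if_pos (hiff.2 h), if_pos h]; simp
    · rw [if_neg fun h' => h (hiff.1 h'), if_neg h]; simp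
  refine (ex_mono key).trans ?_
  exact ex_affine_le (rowHom c A A' B δ) (-r0)

/-- the sum of the last blocks -/
def sum2 (n : ℕ) : (V n → ZMod 2) × (V n → ZMod 2) →+ (Fin n → ZMod 2) where
  toFun p := fun b => p.1 (2, b) + p.2 (2, b)
  map_zero' := by funext b; simp
  map_add' x y := by
    funext b
    simp only [Prod.fst_add, Prod.snd_add, Pi.add_apply]
    ring

theorem sum2_surj (n : ℕ) : Function.Surjective (sum2 n) := by
  intro w
  refine ⟨(fun i => w i.2, 0), ?_⟩
  funext b
  simp [sum2]

theorem ex_K_pair {n : ℕ} (c : Fin n → Fin n → Fin n → ZMod 2) (A A' B : Finset (Fin n))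
    (s : ℕ) :
    ex (fun p : (V n → Bool) × (V n → Bool) =>
      K c A A' B (fun b => bit (p.1 (2, b)) + bit (p.2 (2, b))) ^ s) = G c A A' B s := by
  unfold G
  rw [← ex_hom (sum2 n) (sum2_surj n), ← ex_equiv ((funEquiv (V n)).prodCongr (funEquiv (V n)))]
  rfl

end TSP
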