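import Pool.Agent.TSP.Defs

namespace TSP

open Finset

section local_

variable {ι σ : Type} [DecidableEq ι]

theorem run_congr (P : BP ι σ) (z z' : ι → Bool) (v : σ) (t l : ℕ)
    (h : ∀ i ∈ P.reads z v t l, z i = z' i) : ∀ j ≤ l, P.run z' v t j = P.run z v t j := by
  intro j
  induction j with
  | zero => intro _; rfl
  | succ j ih =>
    intro hj
    have ih' := ih (by omega)
    simp only [BP.run, ih']
    rw [← h _ (mem_image.2 ⟨j, mem_range.2 (by omega), rfl⟩)]

theorem reads_congr (P : BP ι σ) (z z' : ι → Bool) (v : σ) (t l : ℕ)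
    (h : ∀ i ∈ P.reads z v t l, z i = z' i) : P.reads z' v t l = P.reads z v t l := by
  unfold BP.reads
  apply image_congr
  intro j hj
  have hj' : j < l := by simpa using hj
  simp only
  rw [run_congr P z z' v t l h j hj'.le]

omit [DecidableEq ι] in
theorem run_add (P : BP ι σ) (z : ι → Bool) (v : σ) (t l l' : ℕ) :
    P.run z v t (l + l') = P.run z (P.run z v t l) (t + l) l' := by
  induction l' with
  | zero => rfl
  | succ l' ih =>
    rw [← add_assoc]
    simp only [BP.run, ih, add_assoc]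

theorem card_reads_le (P : BP ι σ) (z : ι → Bool) (v : σ) (t l : ℕ) :
    (P.reads z v t l).card ≤ l := by
  unfold BP.reads
  exact card_image_le.trans (by simp)

end local_

section cls

variable {n : ℕ} {σ : Type} [Fintype σ] [DecidableEq σ] (P : BP (V n) σ) (L r : ℕ)

/-- variables read in segment `i` when run between the prescribed boundary states `v` -/
def sr (v : Fin (r + 1) → σ) (i : Fin r) (z : V n → Bool) : Finset (V n) :=
  P.reads z (v i.castSucc) (i * L) L

/-- segment `i` runs from `v i` to `v (i + 1)` -/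
def ok (v : Fin (r + 1) → σ) (i : Fin r) (z : V n → Bool) : Prop :=
  P.run z (v i.castSucc) (i * L) L = v i.succ

/-- unread variables with respect to prescribed boundary states -/
def un (v : Fin (r + 1) → σ) (Ω : Finset (Fin r)) (e : Fin 3) (z : V n → Bool) :
    Finset (Fin n) :=
  univ.filter fun j => ∀ i ∈ Ω, (e, j) ∉ sr P L r v i z

/-- the true boundary states -/
def bd (z : V n → Bool) : Fin (r + 1) → σ := fun i => P.run z P.start 0 (i * L)

omit [Fintype σ] [DecidableEq σ] in
theorem bd_eq_iff (v : Fin (r + 1) → σ) (z : V n → Bool) :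
    bd P L r z = v ↔ v 0 = P.start ∧ ∀ i : Fin r, ok P L r v i z := by
  constructor
  · rintro rfl
    refine ⟨by simp [bd, BP.run], fun i => ?_⟩
    unfold ok bd
    simp only [Fin.val_castSucc, Fin.val_succ]
    rw [add_mul, one_mul, run_add]
    simp
  · rintro ⟨h0, h⟩
    funext i
    induction i using Fin.induction with
    | zero => simp [bd, BP.run, h0]
    | succ i ih =>
      rw [← h i]
      unfold bd at ih ⊢
      simp only [Fin.val_castSucc, Fin.val_succ] at ih ⊢
      rw [add_mul, one_mul, run_add, ih]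
      simp

omit [Fintype σ] [DecidableEq σ] in
theorem un_bd (z : V n → Bool) (Ω : Finset (Fin r)) (e : Fin 3) :
    un P L r (bd P L r z) Ω e z = P.unread L Ω e z := by
  unfold un BP.unread sr bd BP.seg
  simp

omit [Fintype σ] [DecidableEq σ] in
theorem card_un (v : Fin (r + 1) → σ) (Ω : Finset (Fin r)) (e : Fin 3) (z : V n → Bool) :
    n ≤ (un P L r v Ω e z).card + Ω.card * L := by
  classical
  have h1 : (univ : Finset (Fin n)) ⊆ un P L r v Ω e z ∪
      (Ω.biUnion fun i => (sr P L r v i z).image fun p => p.2) := by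
    intro j _
    rw [mem_union]
    by_cases hj : j ∈ un P L r v Ω e z
    · exact Or.inl hj
    · right
      unfold un at hj
      simp only [mem_filter, mem_univ, true_and, not_forall, not_not] at hj
      obtain ⟨i, hi, hji⟩ := hj
      rw [mem_biUnion]
      exact ⟨i, hi, mem_image.2 ⟨_, hji, rfl⟩⟩
  have h2 := card_le_card h1
  rw [card_univ, Fintype.card_fin] at h2
  refine h2.trans ((card_union_le _ _).trans ?_)
  gcongr
  refine card_biUnion_le.trans ?_
  rw [← smul_eq_mul, ← sum_const]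
  exact sum_le_sum fun i _ => card_image_le.trans (card_reads_le _ _ _ _ _)

/-- condition of the first factor -/
def cA (v : Fin (r + 1) → σ) (ω : Finset (Fin r)) (b : ℕ) (B : Finset (Fin n))
    (z : V n → Bool) : Prop :=
  (∀ i ∈ ω, ok P L r v i z) ∧ B ⊆ un P L r v ω 2 z ∧ (un P L r v ω 2 z).card = b

/-- condition of the second factor -/
def cB (v : Fin (r + 1) → σ) (ω : Finset (Fin r)) (a1 a2 : ℕ) (A A' : Finset (Fin n))
    (z : V n → Bool) : Prop :=
  (∀ i ∈ ωᶜ, ok P L r v i z) ∧ (A ⊆ un P L r v ωᶜ 0 z ∧ (un P L r v ωᶜ 0 z).card = a1) ∧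
    (A' ⊆ un P L r v ωᶜ 1 z ∧ (un P L r v ωᶜ 1 z).card = a2)

omit [Fintype σ] [DecidableEq σ] in
theorem seg_same (v : Fin (r + 1) → σ) (Ω : Finset (Fin r)) (D : Finset (V n))
    (z z' : V n → Bool) (hz : ∀ i ∉ D, z i = z' i)
    (hD : ∀ i ∈ Ω, Disjoint (sr P L r v i z) D) :
    (∀ i ∈ Ω, (ok P L r v i z' ↔ ok P L r v i z) ∧ sr P L r v i z' = sr P L r v i z) := by
  intro i hi
  have h : ∀ j ∈ P.reads z (v i.castSucc) (i * L) L, z j = z' j := fun j hj =>
    hz j (disjoint_left.1 (hD i hi) hj)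
  refine ⟨?_, reads_congr P z z' _ _ _ h⟩
  unfold ok
  rw [run_congr P z z' _ _ _ h L le_rfl]

omit [Fintype σ] [DecidableEq σ] in
theorem un_same (v : Fin (r + 1) → σ) (Ω : Finset (Fin r)) (D : Finset (V n))
    (z z' : V n → Bool) (hz : ∀ i ∉ D, z i = z' i)
    (hD : ∀ i ∈ Ω, Disjoint (sr P L r v i z) D) (e : Fin 3) :
    un P L r v Ω e z' = un P L r v Ω e z := by
  unfold un
  apply filter_congr
  intro j _
  refine forall_congr' fun i => ?_
  constructor
  · intro h hi; rw [← (seg_same P L r v Ω D z z' hz hD i hi).2]; exact h hi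
  · intro h hi; rw [(seg_same P L r v Ω D z z' hz hD i hi).2]; exact h hi

omit [Fintype σ] [DecidableEq σ] in
theorem cA_mono (v : Fin (r + 1) → σ) (ω : Finset (Fin r)) (b : ℕ) (B : Finset (Fin n))
    (z z' : V n → Bool) (hz : ∀ i ∉ DB B, z i = z' i) (h : cA P L r v ω b B z) :
    cA P L r v ω b B z' := by
  obtain ⟨h1, h2, h3⟩ := h
  have hD : ∀ i ∈ ω, Disjoint (sr P L r v i z) (DB B) := by
    intro i hi
    rw [disjoint_left]
    intro p hp hp'
    simp only [DB, mem_filter, mem_univ, true_and] at hp'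
    have := h2 hp'.2
    simp only [un, mem_filter, mem_univ, true_and] at this
    apply this i hi
    rw [← hp'.1]
    exact hp
  refine ⟨fun i hi => (seg_same P L r v ω _ z z' hz hD i hi).1.2 (h1 i hi), ?_, ?_⟩
  · rw [un_same P L r v ω _ z z' hz hD]; exact h2
  · rw [un_same P L r v ω _ z z' hz hD]; exact h3

omit [Fintype σ] [DecidableEq σ] in
theorem cB_mono (v : Fin (r + 1) → σ) (ω : Finset (Fin r)) (a1 a2 : ℕ) (A A' : Finset (Fin n))
    (z z' : V n → Bool) (hz : ∀ i ∉ DA A A', z i = z' i) (h : cB P L r v ω a1 a2 A A' z) :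
    cB P L r v ω a1 a2 A A' z' := by
  obtain ⟨h1, ⟨h2, h3⟩, h4, h5⟩ := h
  have hD : ∀ i ∈ ωᶜ, Disjoint (sr P L r v i z) (DA A A') := by
    intro i hi
    rw [disjoint_left]
    intro p hp hp'
    simp only [DA, mem_filter, mem_univ, true_and] at hp'
    rcases hp' with hp' | hp'
    · have := h2 hp'.2
      simp only [un, mem_filter, mem_univ, true_and] at this
      apply this i hi
      rw [← hp'.1]
      exact hp
    · have := h4 hp'.2
      simp only [un, mem_filter, mem_univ, true_and] at this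
      apply this i hi
      rw [← hp'.1]
      exact hp
  refine ⟨fun i hi => (seg_same P L r v _ _ z z' hz hD i hi).1.2 (h1 i hi), ⟨?_, ?_⟩, ?_, ?_⟩
  · rw [un_same P L r v _ _ z z' hz hD]; exact h2
  · rw [un_same P L r v _ _ z z' hz hD]; exact h3
  · rw [un_same P L r v _ _ z z' hz hD]; exact h4
  · rw [un_same P L r v _ _ z z' hz hD]; exact h5

end cls


theorem sum_subset_card {n : ℕ} (U : Finset (Fin n)) (m : ℕ) :
    ∑ A ∈ powersetCard m (univ : Finset (Fin n)), (if A ⊆ U then (1 : ℝ) else 0) =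
      (U.card.choose m : ℝ) := by
  rw [sum_boole, ← card_powersetCard]
  congr 2
  ext A
  simp only [mem_filter, mem_powersetCard, subset_univ, true_and]
  tauto

theorem sum_rpow_le {α : Type} (S : Finset α) (x : α → ℝ) (hx : ∀ i ∈ S, 0 ≤ x i) (p : ℝ)
    (hp0 : 0 ≤ p) (hp1 : p ≤ 1) :
    ∑ i ∈ S, x i ^ p ≤ (S.card : ℝ) ^ (1 - p) * (∑ i ∈ S, x i) ^ p := by
  rcases S.eq_empty_or_nonempty with rfl | hS
  · simp only [sum_empty, card_empty, Nat.cast_zero]
    positivity
  · have hc : (0 : ℝ) < S.card := by exact_mod_cast hS.card_pos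
    have key := (Real.concaveOn_rpow hp0 hp1).le_map_sum (t := S) (w := fun _ => 1 / (S.card : ℝ))
      (p := x) (fun i _ => by positivity) (by rw [sum_const, nsmul_eq_mul]; field_simp)
      (fun i hi => by simpa using hx i hi)
    simp only [smul_eq_mul, ← mul_sum] at key
    have hs : 0 ≤ ∑ i ∈ S, x i := sum_nonneg hx
    rw [Real.mul_rpow (by positivity) hs, one_div, Real.inv_rpow hc.le] at key
    rw [Real.rpow_sub hc, Real.rpow_one]
    have : ∑ i ∈ S, x i ^ p ≤ (S.card : ℝ) * (((S.card : ℝ) ^ p)⁻¹ * (∑ i ∈ S, x i) ^ p) := by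
      have := mul_le_mul_of_nonneg_left key hc.le
      rwa [← mul_assoc, mul_inv_cancel₀ hc.ne', one_mul] at this
    refine this.trans (le_of_eq ?_)
    ring

theorem cex_nonneg {X : Type} [Fintype X] (f : X → ℝ) (hf : ∀ x, 0 ≤ f x) : 0 ≤ ex f := by
  unfold ex
  exact div_nonneg (sum_nonneg fun x _ => hf x) (by positivity)

theorem cex_mono {X : Type} [Fintype X] (f g : X → ℝ) (h : ∀ x, f x ≤ g x) : ex f ≤ ex g := by
  unfold ex
  gcongr with x
  exact h x

theorem cex_sum {X α : Type} [Fintype X] (S : Finset α) (f : α → X → ℝ) :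
    ex (fun x => ∑ i ∈ S, f i x) = ∑ i ∈ S, ex (f i) := by
  unfold ex
  rw [sum_comm, sum_div]

theorem cex_mul_const {X : Type} [Fintype X] (f : X → ℝ) (a : ℝ) :
    ex (fun x => f x * a) = ex f * a := by
  unfold ex
  rw [← sum_mul]; ring

theorem cex_const_le {X : Type} [Fintype X] (a : ℝ) (ha : 0 ≤ a) : ex (fun _ : X => a) ≤ a := by
  unfold ex
  rw [sum_const, card_univ, nsmul_eq_mul]
  rcases Nat.eq_zero_or_pos (Fintype.card X) with h | h
  · simp [h, ha]
  · have : (0 : ℝ) < Fintype.card X := by exact_mod_cast h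
    field_simp
    exact le_rfl

theorem cabs_ex_le {X : Type} [Fintype X] (f : X → ℝ) : |ex f| ≤ ex fun x => |f x| := by
  unfold ex
  rw [abs_div, abs_of_nonneg (by positivity : (0:ℝ) ≤ (Fintype.card X : ℝ))]
  gcongr
  exact abs_sum_le_sum_abs _ _

section bound

variable {n : ℕ} {σ : Type} (P : BP (V n) σ) (L r : ℕ)

open Classical in
/-- first factor -/
noncomputable def gA (v : Fin (r + 1) → σ) (ω : Finset (Fin r)) (b : ℕ) (B : Finset (Fin n))
    (z : V n → Bool) : ℝ := if cA P L r v ω b B z then 1 else 0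

open Classical in
/-- second factor -/
noncomputable def gB (v : Fin (r + 1) → σ) (ω : Finset (Fin r)) (a1 a2 : ℕ)
    (A A' : Finset (Fin n)) (z : V n → Bool) : ℝ := if cB P L r v ω a1 a2 A A' z then 1 else 0

open Classical in
/-- indicator of a class -/
noncomputable def Xc (v : Fin (r + 1) → σ) (ω : Finset (Fin r)) (a1 a2 b : ℕ)
    (z : V n → Bool) : ℝ :=
  if (∀ i, ok P L r v i z) ∧ (un P L r v ωᶜ 0 z).card = a1 ∧ (un P L r v ωᶜ 1 z).card = a2 ∧
    (un P L r v ω 2 z).card = b then 1 else 0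

theorem class_identity (v : Fin (r + 1) → σ) (ω : Finset (Fin r)) (a1 a2 b m mB : ℕ)
    (z : V n → Bool) :
    ∑ A ∈ powersetCard m (univ : Finset (Fin n)), ∑ A' ∈ powersetCard m (univ : Finset (Fin n)),
      ∑ B ∈ powersetCard mB (univ : Finset (Fin n)),
        gA P L r v ω b B z * gB P L r v ω a1 a2 A A' z =
      Xc P L r v ω a1 a2 b z * ((a1.choose m : ℝ) * (a2.choose m) * (b.choose mB)) := by
  classical
  by_cases h : (∀ i, ok P L r v i z) ∧ (un P L r v ωᶜ 0 z).card = a1 ∧
      (un P L r v ωᶜ 1 z).card = a2 ∧ (un P L r v ω 2 z).card = b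
  · obtain ⟨h1, h2, h3, h4⟩ := h
    have eA : ∀ B, gA P L r v ω b B z = if B ⊆ un P L r v ω 2 z then 1 else 0 := by
      intro B
      unfold gA cA
      simp [h1, h4]
    have eB : ∀ A A', gB P L r v ω a1 a2 A A' z =
        (if A ⊆ un P L r v ωᶜ 0 z then 1 else 0) *
          (if A' ⊆ un P L r v ωᶜ 1 z then 1 else 0) := by
      intro A A'
      unfold gB cB
      by_cases q1 : A ⊆ un P L r v ωᶜ 0 z <;> by_cases q2 : A' ⊆ un P L r v ωᶜ 1 z <;>
        simp [h1, h2, h3, q1, q2]
    simp only [eA, eB]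
    have e3 : ∀ A A', ∑ B ∈ powersetCard mB (univ : Finset (Fin n)),
        (if B ⊆ un P L r v ω 2 z then (1:ℝ) else 0) *
          ((if A ⊆ un P L r v ωᶜ 0 z then 1 else 0) *
          (if A' ⊆ un P L r v ωᶜ 1 z then 1 else 0)) = (b.choose mB : ℝ) *
          ((if A ⊆ un P L r v ωᶜ 0 z then 1 else 0) *
          (if A' ⊆ un P L r v ωᶜ 1 z then 1 else 0)) := by
      intro A A'
      rw [← sum_mul, sum_subset_card, h4]
    simp only [e3, ← mul_sum]
    rw [sum_subset_card, ← sum_mul, sum_subset_card, h2, h3]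
    unfold Xc
    rw [if_pos ⟨h1, h2, h3, h4⟩]
    ring
  · have e : Xc P L r v ω a1 a2 b z = 0 := by
      unfold Xc
      rw [if_neg h]
    rw [e, zero_mul]
    apply sum_eq_zero
    intro A _
    apply sum_eq_zero
    intro A' _
    apply sum_eq_zero
    intro B _
    unfold gA gB
    by_cases q1 : cA P L r v ω b B z
    · by_cases q2 : cB P L r v ω a1 a2 A A' z
      · exfalso
        apply h
        obtain ⟨p1, p2, p3⟩ := q1
        obtain ⟨s1, ⟨s2, s3⟩, s4, s5⟩ := q2
        refine ⟨fun i => ?_, s3, s5, p3⟩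
        by_cases hi : i ∈ ω
        · exact p1 i hi
        · exact s1 i (by simpa using hi)
      · simp [q2]
    · simp [q1]

theorem gB_sum_le (v : Fin (r + 1) → σ) (ω : Finset (Fin r)) (a1 a2 m : ℕ)
    (z : V n → Bool) :
    ∑ A ∈ powersetCard m (univ : Finset (Fin n)), ∑ A' ∈ powersetCard m (univ : Finset (Fin n)),
      gB P L r v ω a1 a2 A A' z ≤ (a1.choose m : ℝ) * (a2.choose m) := by
  classical
  by_cases h : (un P L r v ωᶜ 0 z).card = a1 ∧ (un P L r v ωᶜ 1 z).card = a2
  · obtain ⟨h2, h3⟩ := h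
    have eB : ∀ A A', gB P L r v ω a1 a2 A A' z ≤
        (if A ⊆ un P L r v ωᶜ 0 z then 1 else 0) *
          (if A' ⊆ un P L r v ωᶜ 1 z then 1 else 0) := by
      intro A A'
      unfold gB cB
      by_cases q1 : A ⊆ un P L r v ωᶜ 0 z <;> by_cases q2 : A' ⊆ un P L r v ωᶜ 1 z
      · simp only [q1, q2, if_true, mul_one]
        split_ifs <;> norm_num
      all_goals simp [q1, q2]
    refine (sum_le_sum fun A _ => sum_le_sum fun A' _ => eB A A').trans (le_of_eq ?_)
    simp only [← mul_sum]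
    rw [sum_subset_card, ← sum_mul, sum_subset_card, h2, h3]
  · have : ∀ A A', gB P L r v ω a1 a2 A A' z = 0 := by
      intro A A'
      unfold gB
      rw [if_neg]
      rintro ⟨s1, ⟨s2, s3⟩, s4, s5⟩
      exact h ⟨s3, s5⟩
    simp only [this, sum_const_zero]
    positivity

theorem class_bound (v : Fin (r + 1) → σ) (ω : Finset (Fin r)) (a1 a2 b m mB s : ℕ)
    (hs : 1 ≤ s) (F : (V n → Bool) → ℝ) (Γ : ℝ) (hΓ : 0 ≤ Γ) (hC : Cyl F m mB s Γ) :
    |ex fun z => Xc P L r v ω a1 a2 b z * F z| *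
        ((a1.choose m : ℝ) * (a2.choose m) * (b.choose mB)) ≤
      (n.choose mB : ℝ) * Γ * (((n.choose m : ℝ) ^ 2) ^ (1 / (s : ℝ)) *
        ((a1.choose m : ℝ) * (a2.choose m)) ^ (1 - 1 / (s : ℝ))) := by
  classical
  have hs0 : (1 : ℝ) ≤ s := by exact_mod_cast hs
  have hp0 : 0 ≤ 1 - 1 / (s : ℝ) := by
    rw [sub_nonneg, div_le_one (by linarith)]; exact hs0
  have hp1 : 1 - 1 / (s : ℝ) ≤ 1 := by
    have : 0 ≤ 1 / (s : ℝ) := by positivity
    linarith
  have e1 : |ex fun z => Xc P L r v ω a1 a2 b z * F z| *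
        ((a1.choose m : ℝ) * (a2.choose m) * (b.choose mB)) =
      |∑ A ∈ powersetCard m (univ : Finset (Fin n)),
        ∑ A' ∈ powersetCard m (univ : Finset (Fin n)),
        ∑ B ∈ powersetCard mB (univ : Finset (Fin n)),
        ex fun z => gA P L r v ω b B z * gB P L r v ω a1 a2 A A' z * F z| := by
    rw [← abs_of_nonneg (by positivity : (0:ℝ) ≤ (a1.choose m : ℝ) * (a2.choose m) *
      (b.choose mB)), ← abs_mul, ← cex_mul_const]
    congr 1
    simp only [← cex_sum]
    congr 1
    funext z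
    have := class_identity P L r v ω a1 a2 b m mB z
    calc Xc P L r v ω a1 a2 b z * F z * ((a1.choose m : ℝ) * (a2.choose m) * (b.choose mB))
        = (Xc P L r v ω a1 a2 b z * ((a1.choose m : ℝ) * (a2.choose m) * (b.choose mB))) *
          F z := by ring
      _ = _ := by
        rw [← this]
        simp only [sum_mul]
  rw [e1]
  have e2 : |∑ A ∈ powersetCard m (univ : Finset (Fin n)),
        ∑ A' ∈ powersetCard m (univ : Finset (Fin n)),
        ∑ B ∈ powersetCard mB (univ : Finset (Fin n)),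
        ex fun z => gA P L r v ω b B z * gB P L r v ω a1 a2 A A' z * F z| ≤
      ∑ A ∈ powersetCard m (univ : Finset (Fin n)),
        ∑ A' ∈ powersetCard m (univ : Finset (Fin n)),
        ∑ _B ∈ powersetCard mB (univ : Finset (Fin n)),
        (ex (gB P L r v ω a1 a2 A A')) ^ (1 - 1 / (s : ℝ)) * Γ := by
    refine (abs_sum_le_sum_abs _ _).trans (sum_le_sum fun A hA => ?_)
    refine (abs_sum_le_sum_abs _ _).trans (sum_le_sum fun A' hA' => ?_)
    refine (abs_sum_le_sum_abs _ _).trans (sum_le_sum fun B hB => ?_)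
    rw [mem_powersetCard] at hA hA' hB
    refine hC A A' B hA.2 hA'.2 hB.2 (gA P L r v ω b B) (gB P L r v ω a1 a2 A A')
      (fun z => by unfold gA; split_ifs <;> simp) (fun z => by unfold gB; split_ifs <;> simp)
      ?_ ?_
    · intro z z' hz
      unfold gA
      have : cA P L r v ω b B z ↔ cA P L r v ω b B z' :=
        ⟨cA_mono P L r v ω b B z z' hz, cA_mono P L r v ω b B z' z fun i hi => (hz i hi).symm⟩
      simp only [this]
    · intro z z' hz
      unfold gB
      have : cB P L r v ω a1 a2 A A' z ↔ cB P L r v ω a1 a2 A A' z' :=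
        ⟨cB_mono P L r v ω a1 a2 A A' z z' hz,
          cB_mono P L r v ω a1 a2 A A' z' z fun i hi => (hz i hi).symm⟩
      simp only [this]
  refine e2.trans ?_
  simp only [sum_const, card_powersetCard, card_univ, Fintype.card_fin, nsmul_eq_mul]
  simp only [← mul_sum, ← sum_mul]
  have e3 : ∑ A ∈ powersetCard m (univ : Finset (Fin n)),
        ∑ A' ∈ powersetCard m (univ : Finset (Fin n)),
        (ex (gB P L r v ω a1 a2 A A')) ^ (1 - 1 / (s : ℝ)) ≤
      ((n.choose m : ℝ) ^ 2) ^ (1 / (s : ℝ)) *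
        ((a1.choose m : ℝ) * (a2.choose m)) ^ (1 - 1 / (s : ℝ)) := by
    rw [← sum_product']
    have q := sum_rpow_le (powersetCard m (univ : Finset (Fin n)) ×ˢ
      powersetCard m (univ : Finset (Fin n)))
      (fun p => ex (gB P L r v ω a1 a2 p.1 p.2)) (fun p _ => cex_nonneg _ fun z => by
        unfold gB; split_ifs <;> simp) (1 - 1 / (s : ℝ)) hp0 hp1
    refine q.trans ?_
    rw [card_product, card_powersetCard, card_univ, Fintype.card_fin]
    have q2 : ∑ p ∈ powersetCard m (univ : Finset (Fin n)) ×ˢ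
        powersetCard m (univ : Finset (Fin n)), ex (gB P L r v ω a1 a2 p.1 p.2) ≤
        (a1.choose m : ℝ) * (a2.choose m) := by
      rw [← cex_sum]
      refine (cex_mono _ (fun _ => (a1.choose m : ℝ) * (a2.choose m)) fun z => ?_).trans
        (cex_const_le _ (by positivity))
      rw [sum_product]
      exact gB_sum_le P L r v ω a1 a2 m z
    have q3 : (((n.choose m * n.choose m : ℕ) : ℝ)) = (n.choose m : ℝ) ^ 2 := by
      push_cast; ring
    rw [q3, sub_sub_cancel]
    gcongr
    exact sum_nonneg fun p _ => cex_nonneg _ fun z => by unfold gB; split_ifs <;> simp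
  calc _ ≤ (n.choose mB : ℝ) * ((((n.choose m : ℝ) ^ 2) ^ (1 / (s : ℝ)) *
        ((a1.choose m : ℝ) * (a2.choose m)) ^ (1 - 1 / (s : ℝ))) * Γ) := by
        gcongr
    _ = _ := by ring

end bound


section total

variable {n : ℕ} {σ : Type} (P : BP (V n) σ) (L r : ℕ)

theorem class_bound' (v : Fin (r + 1) → σ) (ω : Finset (Fin r)) (a1 a2 b m mB s amin bmin : ℕ)
    (hs : 1 ≤ s) (F : (V n → Bool) → ℝ) (Γ : ℝ) (hΓ : 0 ≤ Γ) (hC : Cyl F m mB s Γ)
    (hm : m ≤ amin) (hmB : mB ≤ bmin) (h1 : amin ≤ a1) (h2 : amin ≤ a2)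
    (hb : bmin + ω.card * L ≤ n) :
    |ex fun z => Xc P L r v ω a1 a2 b z * F z| ≤
        ((n.choose mB : ℝ) / (bmin.choose mB : ℝ) *
          (((n.choose m : ℝ) / (amin.choose m : ℝ)) ^ 2) ^ (1 / (s : ℝ)) * Γ) := by
  classical
  by_cases hbb : b < bmin
  · have : ∀ z, Xc P L r v ω a1 a2 b z = 0 := by
      intro z
      unfold Xc
      rw [if_neg]
      rintro ⟨-, -, -, h⟩
      have := card_un P L r v ω 2 z
      omega
    simp only [this, zero_mul]
    have e : ex (fun _ : V n → Bool => (0 : ℝ)) = 0 := by simp [ex]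
    rw [e, abs_zero]
    positivity
  · push Not at hbb
    have key := class_bound P L r v ω a1 a2 b m mB s hs F Γ hΓ hC
    set x := |ex fun z => Xc P L r v ω a1 a2 b z * F z|
    have p0 : (0 : ℝ) < (amin.choose m : ℝ) := by exact_mod_cast Nat.choose_pos hm
    have p1 : (amin.choose m : ℝ) ≤ (a1.choose m : ℝ) := by
      exact_mod_cast Nat.choose_le_choose m h1
    have p2 : (amin.choose m : ℝ) ≤ (a2.choose m : ℝ) := by
      exact_mod_cast Nat.choose_le_choose m h2
    have p3 : (bmin.choose mB : ℝ) ≤ (b.choose mB : ℝ) := by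
      exact_mod_cast Nat.choose_le_choose mB hbb
    have p4 : (0 : ℝ) < (bmin.choose mB : ℝ) := by exact_mod_cast Nat.choose_pos hmB
    set c1 := (a1.choose m : ℝ)
    set c2 := (a2.choose m : ℝ)
    set cb := (b.choose mB : ℝ)
    set c0 := (amin.choose m : ℝ)
    set cb0 := (bmin.choose mB : ℝ)
    set N := (n.choose m : ℝ)
    set NB := (n.choose mB : ℝ)
    have hc1 : 0 < c1 := lt_of_lt_of_le p0 p1
    have hc2 : 0 < c2 := lt_of_lt_of_le p0 p2
    have hcb : 0 < cb := lt_of_lt_of_le p4 p3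
    have hN : 0 ≤ N := by positivity
    have hNB : 0 ≤ NB := by positivity
    have hc12 : 0 < c1 * c2 := mul_pos hc1 hc2
    have e1 : (c1 * c2) ^ (1 - 1 / (s : ℝ)) = (c1 * c2) / (c1 * c2) ^ (1 / (s : ℝ)) := by
      rw [Real.rpow_sub hc12, Real.rpow_one]
    have e2 : x ≤ NB / cb * Γ * ((N ^ 2) / (c1 * c2)) ^ (1 / (s : ℝ)) := by
      rw [Real.div_rpow (by positivity) hc12.le]
      rw [e1] at key
      have hpos : 0 < (c1 * c2) ^ (1 / (s : ℝ)) := Real.rpow_pos_of_pos hc12 _
      have : x * (c1 * c2 * cb) ≤ (NB / cb * Γ * ((N ^ 2) ^ (1 / (s : ℝ)) /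
          (c1 * c2) ^ (1 / (s : ℝ)))) * (c1 * c2 * cb) := by
        refine key.trans (le_of_eq ?_)
        field_simp
      exact le_of_mul_le_mul_right this (by positivity)
    refine e2.trans ?_
    have e3 : NB / cb ≤ NB / cb0 := by gcongr
    have e4 : (N ^ 2) / (c1 * c2) ≤ (N / c0) ^ 2 := by
      rw [div_pow]
      have : c0 ^ 2 ≤ c1 * c2 := by nlinarith
      gcongr
    calc NB / cb * Γ * ((N ^ 2) / (c1 * c2)) ^ (1 / (s : ℝ))
        ≤ NB / cb0 * Γ * (((N / c0) ^ 2)) ^ (1 / (s : ℝ)) := by gcongr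
      _ = _ := by ring

/-- Row R1: decomposition of the computations into classes (boundary states and numbers of
unread variables), each of which is a weighted sum of products `gA * gB`. -/
theorem class_sum [Fintype σ] [DecidableEq σ]
    (ω : Finset (Fin r)) (F : (V n → Bool) → ℝ) (hF : ∀ z, |F z| ≤ 1)
    (m mB s amin bmin : ℕ) (hs : 1 ≤ s) (hm : m ≤ amin) (hmB : mB ≤ bmin)
    (hb : bmin + ω.card * L ≤ n) (Γ : ℝ) (hΓ : 0 ≤ Γ) (hC : Cyl F m mB s Γ) :
    |ex fun z => F z * sg (P.out (P.run z P.start 0 (r * L)))| ≤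
      ex (fun z : V n → Bool => if (P.unread L ωᶜ 0 z).card < amin ∨
        (P.unread L ωᶜ 1 z).card < amin then (1 : ℝ) else 0) +
      (Fintype.card σ : ℝ) ^ (r + 1) * ((n : ℝ) + 1) ^ 3 *
        ((n.choose mB : ℝ) / (bmin.choose mB : ℝ) *
          (((n.choose m : ℝ) / (amin.choose m : ℝ)) ^ 2) ^ (1 / (s : ℝ)) * Γ) := by
  classical
  set Bd := ((n.choose mB : ℝ) / (bmin.choose mB : ℝ) *
          (((n.choose m : ℝ) / (amin.choose m : ℝ)) ^ 2) ^ (1 / (s : ℝ)) * Γ) with hBd
  have hBd0 : 0 ≤ Bd := by positivity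
  have hsg : ∀ b, |sg b| ≤ 1 := by intro b; unfold sg; split_ifs <;> simp
  have hcard : ∀ S : Finset (Fin n), S.card < n + 1 := fun S => by
    have := card_le_univ S
    rw [Fintype.card_fin] at this
    omega
  let cls : (V n → Bool) → (Fin (r + 1) → σ) × Fin (n + 1) × Fin (n + 1) × Fin (n + 1) :=
    fun z => (bd P L r z, ⟨_, hcard (P.unread L ωᶜ 0 z)⟩, ⟨_, hcard (P.unread L ωᶜ 1 z)⟩,
      ⟨_, hcard (P.unread L ω 2 z)⟩)
  let bad : (V n → Bool) → Prop := fun z => (P.unread L ωᶜ 0 z).card < amin ∨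
        (P.unread L ωᶜ 1 z).card < amin
  let I : Finset ((Fin (r + 1) → σ) × Fin (n + 1) × Fin (n + 1) × Fin (n + 1)) :=
    univ.filter fun κ => amin ≤ κ.2.1 ∧ amin ≤ κ.2.2.1
  have hlast : ∀ z, P.run z P.start 0 (r * L) = bd P L r z (Fin.last r) := by
    intro z; simp [bd]
  have hsplit : ∀ z, F z * sg (P.out (P.run z P.start 0 (r * L))) =
      (if bad z then F z * sg (P.out (P.run z P.start 0 (r * L))) else 0) +
      ∑ κ ∈ I, (if cls z = κ then F z else 0) * sg (P.out (κ.1 (Fin.last r))) := by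
    intro z
    have h1 : ∑ κ ∈ I, (if cls z = κ then F z else 0) * sg (P.out (κ.1 (Fin.last r))) =
        if cls z ∈ I then F z * sg (P.out ((cls z).1 (Fin.last r))) else 0 := by
      simp only [ite_mul, zero_mul]
      rw [sum_ite_eq]
    rw [h1]
    have h2 : cls z ∈ I ↔ ¬ bad z := by
      simp only [I, cls, bad, mem_filter, mem_univ, true_and, not_or, not_lt]
    by_cases hbz : bad z
    · rw [if_pos hbz, if_neg (by rw [h2]; exact not_not.2 hbz), add_zero]
    · rw [if_neg hbz, if_pos (h2.2 hbz), zero_add, hlast]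
  have hXc : ∀ κ ∈ I, |ex fun z => (if cls z = κ then F z else 0) *
      sg (P.out (κ.1 (Fin.last r)))| ≤ Bd := by
    intro κ hκ
    obtain ⟨v, a1, a2, b⟩ := κ
    simp only [I, mem_filter, mem_univ, true_and] at hκ
    rw [cex_mul_const, abs_mul]
    refine (mul_le_of_le_one_right (abs_nonneg _) (hsg _)).trans ?_
    by_cases hv : v 0 = P.start
    · have e : (fun z => if cls z = (v, a1, a2, b) then F z else 0) =
          fun z => Xc P L r v ω a1 a2 b z * F z := by
        funext z
        have : cls z = (v, a1, a2, b) ↔ ((∀ i, ok P L r v i z) ∧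
            (un P L r v ωᶜ 0 z).card = a1 ∧ (un P L r v ωᶜ 1 z).card = a2 ∧
            (un P L r v ω 2 z).card = b) := by
          simp only [cls, Prod.mk.injEq, Fin.ext_iff]
          constructor
          · rintro ⟨h1, h2, h3, h4⟩
            refine ⟨((bd_eq_iff P L r v z).1 h1).2, ?_, ?_, ?_⟩
            · rw [← h1, un_bd]; exact h2
            · rw [← h1, un_bd]; exact h3
            · rw [← h1, un_bd]; exact h4
          · rintro ⟨h1, h2, h3, h4⟩
            have h0 := (bd_eq_iff P L r v z).2 ⟨hv, h1⟩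
            refine ⟨h0, ?_, ?_, ?_⟩
            · rw [← un_bd, h0]; exact h2
            · rw [← un_bd, h0]; exact h3
            · rw [← un_bd, h0]; exact h4
        unfold Xc
        by_cases hc : cls z = (v, a1, a2, b)
        · rw [if_pos hc, if_pos (this.1 hc), one_mul]
        · rw [if_neg hc, if_neg (fun h => hc (this.2 h)), zero_mul]
      rw [e]
      exact class_bound' P L r v ω a1 a2 b m mB s amin bmin hs F Γ hΓ hC hm hmB hκ.1 hκ.2 hb
    · have : ∀ z, cls z ≠ (v, a1, a2, b) := by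
        intro z hz
        apply hv
        have : bd P L r z = v := (Prod.mk.inj hz).1
        exact ((bd_eq_iff P L r v z).1 this).1
      simp only [this, if_false]
      have e : ex (fun _ : V n → Bool => (0 : ℝ)) = 0 := by simp [ex]
      rw [e, abs_zero]
      exact hBd0
  have hIcard : (I.card : ℝ) ≤ (Fintype.card σ : ℝ) ^ (r + 1) * ((n : ℝ) + 1) ^ 3 := by
    have : I.card ≤ Fintype.card σ ^ (r + 1) * (n + 1) ^ 3 := by
      refine (card_le_univ I).trans (le_of_eq ?_)
      simp only [Fintype.card_prod, Fintype.card_fun, Fintype.card_fin]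
      ring
    exact_mod_cast this
  have e1 : (ex fun z => F z * sg (P.out (P.run z P.start 0 (r * L)))) =
      (ex fun z => if bad z then F z * sg (P.out (P.run z P.start 0 (r * L))) else 0) +
      ∑ κ ∈ I, ex fun z => (if cls z = κ then F z else 0) * sg (P.out (κ.1 (Fin.last r))) := by
    rw [← cex_sum]
    unfold ex
    rw [← add_div, ← sum_add_distrib]
    congr 1
    exact sum_congr rfl fun z _ => hsplit z
  rw [e1]
  refine (abs_add_le _ _).trans (add_le_add ?_ ?_)
  · refine (cabs_ex_le _).trans (cex_mono _ _ fun z => ?_)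
    by_cases hbz : bad z
    · rw [if_pos hbz]
      have : (if (P.unread L ωᶜ 0 z).card < amin ∨
        (P.unread L ωᶜ 1 z).card < amin then (1 : ℝ) else 0) = 1 := if_pos hbz
      rw [this, abs_mul]
      exact mul_le_one₀ (hF z) (abs_nonneg _) (hsg _)
    · rw [if_neg hbz, abs_zero]
      split_ifs <;> norm_num
  · refine (abs_sum_le_sum_abs _ _).trans ((sum_le_sum hXc).trans ?_)
    rw [sum_const, nsmul_eq_mul]
    exact mul_le_mul_of_nonneg_right hIcard hBd0

end total

end TSP
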