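import Mathlib

/-!
# Time-space tradeoffs for Boolean branching programs: definitions

Common definitions for the project TSP.
-/

namespace TSP

open Finset

/-- A (time-dependent) branching program with variables `ι` and states `σ`: at time `t` in
state `q` it reads the variable `var t q` and moves to `next t q b`, where `b` is its value. -/
structure BP (ι σ : Type) where
  start : σ
  var : ℕ → σ → ι
  next : ℕ → σ → Bool → σ
  out : σ → Bool

/-- The state after `l` steps when started in state `v` at time `t`. -/
def BP.run {ι σ : Type} (P : BP ι σ) (z : ι → Bool) (v : σ) (t : ℕ) : ℕ → σ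
  | 0 => v
  | l + 1 => P.next (t + l) (P.run z v t l) (z (P.var (t + l) (P.run z v t l)))

/-- The variables read in the `l` steps after time `t` when started in state `v` at time `t`. -/
def BP.reads {ι σ : Type} [DecidableEq ι] (P : BP ι σ) (z : ι → Bool) (v : σ) (t l : ℕ) :
    Finset ι :=
  (range l).image fun i => P.var (t + i) (P.run z v t i)

/-- Average over a finite type. -/
noncomputable def ex {X : Type} [Fintype X] (f : X → ℝ) : ℝ :=
  (∑ x, f x) / (Fintype.card X : ℝ)

/-- Replace the coordinates in `D` of `z` by those of `u`. -/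
def merge {ι : Type} [DecidableEq ι] (D : Finset ι) (u z : ι → Bool) : ι → Bool :=
  fun i => if i ∈ D then u i else z i

/-- The sign `+1` or `-1` of an element of the field with two elements. -/
noncomputable def chi (a : ZMod 2) : ℝ := if a = 0 then 1 else -1

/-- The sign of a Boolean value. -/
noncomputable def sg (b : Bool) : ℝ := if b then -1 else 1

/-- A bit as an element of the field with two elements. -/
def bit (b : Bool) : ZMod 2 := if b then 1 else 0

/-- The three blocks of `n` variables. -/
abbrev V (n : ℕ) : Type := Fin 3 × Fin n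

/-- The trilinear form with coefficients `c`, as a function of the three blocks of bits. -/
def tri {n : ℕ} (c : Fin n → Fin n → Fin n → ZMod 2) (z : V n → Bool) : ZMod 2 :=
  ∑ a, ∑ a', ∑ b, c a a' b * bit (z (0, a)) * bit (z (1, a')) * bit (z (2, b))

/-- The trilinear form restricted to `A × A' × B`. -/
def T {n : ℕ} (c : Fin n → Fin n → Fin n → ZMod 2) (A A' B : Finset (Fin n))
    (u u' v : Fin n → ZMod 2) : ZMod 2 :=
  ∑ a ∈ A, ∑ a' ∈ A', ∑ b ∈ B, c a a' b * u a * u' a' * v b

/-- The bias of the bilinear form obtained from `T` by fixing `v`. -/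
noncomputable def K {n : ℕ} (c : Fin n → Fin n → Fin n → ZMod 2) (A A' B : Finset (Fin n))
    (v : Fin n → ZMod 2) : ℝ :=
  ex fun p : (Fin n → ZMod 2) × (Fin n → ZMod 2) => chi (T c A A' B p.1 p.2 v)

/-- The `s`-th moment of the bias. -/
noncomputable def G {n : ℕ} (c : Fin n → Fin n → Fin n → ZMod 2) (A A' B : Finset (Fin n))
    (s : ℕ) : ℝ :=
  ex fun v : Fin n → ZMod 2 => K c A A' B v ^ s

/-- The block-0 variables of `A` together with the block-1 variables of `A'`. -/
def DA {n : ℕ} (A A' : Finset (Fin n)) : Finset (V n) :=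
  univ.filter fun i => (i.1 = 0 ∧ i.2 ∈ A) ∨ (i.1 = 1 ∧ i.2 ∈ A')

/-- The block-2 variables of `B`. -/
def DB {n : ℕ} (B : Finset (Fin n)) : Finset (V n) :=
  univ.filter fun i => i.1 = 2 ∧ i.2 ∈ B

/-- `F` has advantage bound `Γ` with exponent `s` on all pairs of functions, the first not
depending on the variables in `DB B`, the second not depending on the variables in
`DA A A'`. -/
def Cyl {n : ℕ} (F : (V n → Bool) → ℝ) (m mB s : ℕ) (Γ : ℝ) : Prop :=
  ∀ A A' B : Finset (Fin n), A.card = m → A'.card = m → B.card = mB →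
    ∀ gA gB : (V n → Bool) → ℝ, (∀ z, gA z = 0 ∨ gA z = 1) → (∀ z, gB z = 0 ∨ gB z = 1) →
      (∀ z z' : V n → Bool, (∀ i ∉ DB B, z i = z' i) → gA z = gA z') →
      (∀ z z' : V n → Bool, (∀ i ∉ DA A A', z i = z' i) → gB z = gB z') →
      |ex fun z => gA z * gB z * F z| ≤ (ex gB) ^ (1 - 1 / (s : ℝ)) * Γ

/-- The variables read in the `i`-th segment (of length `L`) of the computation on `z`. -/
def BP.seg {ι σ : Type} [DecidableEq ι] (P : BP ι σ) (L : ℕ) (z : ι → Bool) (i : ℕ) : Finset ι :=
  P.reads z (P.run z P.start 0 (i * L)) (i * L) L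

/-- The block-`e` variables which are not read in the segments of `Ω`. -/
def BP.unread {n : ℕ} {σ : Type} (P : BP (V n) σ) (L : ℕ) {r : ℕ} (Ω : Finset (Fin r))
    (e : Fin 3) (z : V n → Bool) : Finset (Fin n) :=
  univ.filter fun j => ∀ i ∈ Ω, (e, j) ∉ P.seg L z i

end TSP
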