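import Pool.Agent.TSP.Defs

/-! # Row R6: the moments of `G` over the seeds (helper37) -/

set_option linter.unusedSectionVars false

namespace TSP

open Finset

namespace H37

section ex

variable {X Y : Type} [Fintype X] [Fintype Y]

theorem ex_equiv (e : X ≃ Y) (f : Y → ℝ) : ex (fun x => f (e x)) = ex f := by
  unfold ex
  rw [Equiv.sum_comp e f, Fintype.card_congr e]

theorem ex_pair (f : X → Y → ℝ) : ex (fun x => ex fun y => f x y) =
    ex fun p : X × Y => f p.1 p.2 := by
  unfold ex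
  rw [Fintype.sum_prod_type, Fintype.card_prod, ← sum_div, div_div, Nat.cast_mul, mul_comm]

theorem ex_comm (f : X → Y → ℝ) : ex (fun x => ex fun y => f x y) =
    ex fun y => ex fun x => f x y := by
  unfold ex
  rw [← sum_div, ← sum_div, sum_comm, div_div, div_div, mul_comm]

theorem ex_mono {f g : X → ℝ} (h : ∀ x, f x ≤ g x) : ex f ≤ ex g := by
  unfold ex
  exact div_le_div_of_nonneg_right (sum_le_sum fun x _ => h x) (Nat.cast_nonneg _)

theorem ex_add (f g : X → ℝ) : ex (fun x => f x + g x) = ex f + ex g := by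
  unfold ex
  rw [sum_add_distrib, add_div]

theorem ex_const [Nonempty X] (a : ℝ) : ex (fun _ : X => a) = a := by
  unfold ex
  rw [sum_const, card_univ, nsmul_eq_mul]
  have : (Fintype.card X : ℝ) ≠ 0 := by
    exact_mod_cast Fintype.card_ne_zero
  field_simp

theorem ex_nonneg {f : X → ℝ} (h : ∀ x, 0 ≤ f x) : 0 ≤ ex f := by
  unfold ex
  exact div_nonneg (sum_nonneg fun x _ => h x) (Nat.cast_nonneg _)

theorem prod_ex {ι : Type} [Fintype ι] [DecidableEq ι] (f : ι → X → ℝ) :
    ∏ i, ex (f i) = ex fun x : ι → X => ∏ i, f i (x i) := by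
  classical
  unfold ex
  rw [prod_div_distrib, prod_const, card_univ, Fintype.card_fun, Nat.cast_pow]
  congr 1
  rw [prod_univ_sum, Fintype.piFinset_univ]

end ex

theorem chi_zero : chi 0 = 1 := by
  unfold chi
  rw [if_pos rfl]

theorem chi_add (a b : ZMod 2) : chi (a + b) = chi a * chi b := by
  have h : ∀ x : ZMod 2, x = 0 ∨ x = 1 := by decide
  have h1 : (1 : ZMod 2) ≠ 0 := by decide
  have h2 : (1 : ZMod 2) + 1 = 0 := by decide
  unfold chi
  rcases h a with rfl | rfl <;> rcases h b with rfl | rfl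
  · simp
  · simp
  · simp
  · rw [h2]
    simp

theorem chi_sum {ι : Type} (s : Finset ι) (f : ι → ZMod 2) : chi (∑ i ∈ s, f i) = ∏ i ∈ s, chi (f i) := by
  classical
  induction s using Finset.induction_on with
  | empty => rw [sum_empty, prod_empty, chi_zero]
  | insert a s ha ih => rw [sum_insert ha, prod_insert ha, chi_add, ih]

end H37

open H37

/-- Row R6: the `h`-th moment of `G` over the seeds. -/
theorem moment_expand {Θ : Type} [Fintype Θ] [Nonempty Θ] {n : ℕ}
    (c : Θ → Fin n → Fin n → Fin n → ZMod 2) (ε : ℝ)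
    (hε : ∀ Y : Fin n → Fin n → Fin n → ZMod 2, Y ≠ 0 →
      ex (fun τ => chi (∑ a, ∑ a', ∑ b, Y a a' b * c τ a a' b)) ≤ ε)
    (A A' B : Finset (Fin n)) (s h : ℕ) :
    ex (fun τ => G (c τ) A A' B s ^ h) ≤
      ex (fun p : (Fin h → Fin s → Fin n → ZMod 2) × (Fin h → Fin s → Fin n → ZMod 2) ×
        (Fin h → Fin n → ZMod 2) =>
      if ∀ a ∈ A, ∀ a' ∈ A', ∀ b ∈ B, ∑ t, ∑ i, p.1 t i a * p.2.1 t i a' * p.2.2 t b = 0
      then (1 : ℝ) else 0) + max ε 0 := by
  classical
  -- expansion of the power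
  have key : ∀ c : Fin n → Fin n → Fin n → ZMod 2, G c A A' B s ^ h =
      ex fun p : (Fin h → Fin s → Fin n → ZMod 2) × (Fin h → Fin s → Fin n → ZMod 2) ×
        (Fin h → Fin n → ZMod 2) =>
        chi (∑ t, ∑ i, T c A A' B (p.1 t i) (p.2.1 t i) (p.2.2 t)) := by
    intro c
    have e1 : G c A A' B s ^ h = ex fun v : Fin h → Fin n → ZMod 2 =>
        ex fun q : Fin h → Fin s → (Fin n → ZMod 2) × (Fin n → ZMod 2) =>
          chi (∑ t, ∑ i, T c A A' B (q t i).1 (q t i).2 (v t)) := by
      have e2 : G c A A' B s ^ h = ∏ _t : Fin h, G c A A' B s := by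
        rw [prod_const, card_univ, Fintype.card_fin]
      rw [e2]
      unfold G
      rw [prod_ex]
      congr 1
      funext v
      have e3 : ∀ t, K c A A' B (v t) ^ s = ex fun q : Fin s → (Fin n → ZMod 2) ×
          (Fin n → ZMod 2) => ∏ i, chi (T c A A' B (q i).1 (q i).2 (v t)) := by
        intro t
        have e4 : K c A A' B (v t) ^ s = ∏ _i : Fin s, K c A A' B (v t) := by
          rw [prod_const, card_univ, Fintype.card_fin]
        rw [e4]
        unfold K
        rw [prod_ex]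
      rw [prod_congr rfl fun t _ => e3 t, prod_ex]
      congr 1
      funext q
      rw [chi_sum]
      refine prod_congr rfl fun t _ => ?_
      rw [chi_sum]
    rw [e1, ex_comm, ex_pair]
    let e : ((Fin h → Fin s → Fin n → ZMod 2) × (Fin h → Fin s → Fin n → ZMod 2) ×
        (Fin h → Fin n → ZMod 2)) ≃
        ((Fin h → Fin s → (Fin n → ZMod 2) × (Fin n → ZMod 2)) × (Fin h → Fin n → ZMod 2)) :=
      { toFun := fun p => (fun t i => (p.1 t i, p.2.1 t i), p.2.2)
        invFun := fun p => (fun t i => (p.1 t i).1, fun t i => (p.1 t i).2, p.2)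
        left_inv := fun p => rfl
        right_inv := fun p => rfl }
    rw [← ex_equiv e]
    rfl
  simp only [key]
  rw [ex_comm]
  have hne : Nonempty ((Fin h → Fin s → Fin n → ZMod 2) × (Fin h → Fin s → Fin n → ZMod 2) ×
        (Fin h → Fin n → ZMod 2)) := ⟨(0, 0, 0)⟩
  rw [← ex_const (X := (Fin h → Fin s → Fin n → ZMod 2) × (Fin h → Fin s → Fin n → ZMod 2) ×
        (Fin h → Fin n → ZMod 2)) (max ε 0), ← ex_add]
  apply ex_mono
  intro p
  set Y : Fin n → Fin n → Fin n → ZMod 2 := fun a a' b =>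
    if a ∈ A ∧ a' ∈ A' ∧ b ∈ B then ∑ t, ∑ i, p.1 t i a * p.2.1 t i a' * p.2.2 t b else 0
    with hY
  have hT : ∀ τ, (∑ t, ∑ i, T (c τ) A A' B (p.1 t i) (p.2.1 t i) (p.2.2 t)) =
      ∑ a, ∑ a', ∑ b, Y a a' b * c τ a a' b := by
    intro τ
    have e1 : ∀ a a' b, Y a a' b * c τ a a' b = if a ∈ A then (if a' ∈ A' then (if b ∈ B then
        ∑ t, ∑ i, c τ a a' b * p.1 t i a * p.2.1 t i a' * p.2.2 t b else 0) else 0) else 0 := by
      intro a a' b
      simp only [hY]
      by_cases ha : a ∈ A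
      · by_cases ha' : a' ∈ A'
        · by_cases hb : b ∈ B
          · rw [if_pos ⟨ha, ha', hb⟩, if_pos ha, if_pos ha', if_pos hb, sum_mul]
            refine sum_congr rfl fun t _ => ?_
            rw [sum_mul]
            refine sum_congr rfl fun i _ => ?_
            ring
          · simp [ha, ha', hb]
        · simp [ha, ha']
      · simp [ha]
    simp only [e1]
    unfold T
    have e2 : (∑ a, ∑ a', ∑ b, if a ∈ A then (if a' ∈ A' then (if b ∈ B then
        ∑ t, ∑ i, c τ a a' b * p.1 t i a * p.2.1 t i a' * p.2.2 t b else 0) else 0) else 0) =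
        ∑ a ∈ A, ∑ a' ∈ A', ∑ b ∈ B, ∑ t, ∑ i,
          c τ a a' b * p.1 t i a * p.2.1 t i a' * p.2.2 t b := by
      have e3 : ∀ (S : Finset (Fin n)) (g : Fin n → ZMod 2), ∑ a ∈ S, g a =
          ∑ a, if a ∈ S then g a else 0 := by
        intro S g
        rw [← sum_filter]
        congr 1
        ext a
        simp
      rw [e3 A]
      refine sum_congr rfl fun a _ => ?_
      by_cases ha : a ∈ A
      · simp only [ha, if_true]
        rw [e3 A']
        refine sum_congr rfl fun a' _ => ?_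
        by_cases ha' : a' ∈ A'
        · simp only [ha', if_true]
          rw [e3 B]
        · simp [ha']
      · simp [ha]
    rw [e2]
    rw [show (∑ t, ∑ i, ∑ a ∈ A, ∑ a' ∈ A', ∑ b ∈ B,
      c τ a a' b * p.1 t i a * p.2.1 t i a' * p.2.2 t b) = ∑ t, ∑ a ∈ A, ∑ a' ∈ A', ∑ b ∈ B,
        ∑ i, c τ a a' b * p.1 t i a * p.2.1 t i a' * p.2.2 t b from
      sum_congr rfl fun t _ => by
        rw [sum_comm]
        refine sum_congr rfl fun a _ => ?_
        rw [sum_comm]
        refine sum_congr rfl fun a' _ => ?_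
        rw [sum_comm]]
    rw [sum_comm]
    refine sum_congr rfl fun a _ => ?_
    rw [sum_comm]
    refine sum_congr rfl fun a' _ => ?_
    rw [sum_comm]
  simp only [hT]
  by_cases h0 : Y = 0
  · have h1 : ∀ a ∈ A, ∀ a' ∈ A', ∀ b ∈ B,
        ∑ t, ∑ i, p.1 t i a * p.2.1 t i a' * p.2.2 t b = 0 := by
      intro a ha a' ha' b hb
      have h2 : Y a a' b = 0 := by
        rw [h0]
        rfl
      simp only [hY] at h2
      rw [if_pos ⟨ha, ha', hb⟩] at h2
      exact h2
    rw [if_pos h1, h0]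
    have h2 : (fun τ : Θ => chi (∑ a : Fin n, ∑ a' : Fin n, ∑ b : Fin n,
        (0 : Fin n → Fin n → Fin n → ZMod 2) a a' b * c τ a a' b)) = fun _ => 1 := by
      funext τ
      simp [chi_zero]
    rw [h2, ex_const]
    have := le_max_right ε 0
    linarith
  · have h1 := hε Y h0
    have h2 := le_max_left ε 0
    have h3 : (0 : ℝ) ≤ if ∀ a ∈ A, ∀ a' ∈ A', ∀ b ∈ B,
        ∑ t, ∑ i, p.1 t i a * p.2.1 t i a' * p.2.2 t b = 0 then (1 : ℝ) else 0 := by
      split_ifs <;> norm_num
    linarith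

end TSP
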