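import Mathlib

/-! # TSP row R8: the trinomial `X ^ (2 * 3 ^ l) + X ^ (3 ^ l) + 1` is irreducible over `F_2`
(helper44) -/

set_option autoImplicit false

namespace TSP

open Finset Polynomial

/-- The trinomial `X ^ (2 * 3 ^ l) + X ^ (3 ^ l) + 1` over the field with two elements. -/
noncomputable def tri3 (l : ℕ) : (ZMod 2)[X] := X ^ (2 * 3 ^ l) + X ^ (3 ^ l) + 1

/-- It is the cyclotomic polynomial of order `3 ^ (l + 1)`. -/
theorem tri3_eq (l : ℕ) : tri3 l = cyclotomic (3 ^ (l + 1)) (ZMod 2) := by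
  have : Fact (Nat.Prime 3) := ⟨Nat.prime_three⟩
  rw [cyclotomic_prime_pow_eq_geom_sum Nat.prime_three]
  unfold tri3
  simp only [sum_range_succ, range_zero, sum_empty, pow_zero, pow_one]
  ring

/-- The order of `2` modulo `3 ^ (l + 1)`. -/
theorem order_two (l : ℕ) (h : Nat.Coprime 2 (3 ^ (l + 1))) :
    orderOf (ZMod.unitOfCoprime 2 h) = 2 * 3 ^ l := by
  have : Fact (Nat.Prime 3) := ⟨Nat.prime_three⟩
  have : NeZero (3 ^ (l + 1)) := ⟨by positivity⟩
  apply Nat.dvd_antisymm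
  · have h1 := orderOf_dvd_card (x := ZMod.unitOfCoprime 2 h)
    rw [ZMod.card_units_eq_totient, Nat.totient_prime_pow_succ Nat.prime_three] at h1
    rw [mul_comm]
    simpa using h1
  · have hk0 : 0 < orderOf (ZMod.unitOfCoprime 2 h) := orderOf_pos _
    have h1 := congrArg Units.val (pow_orderOf_eq_one (ZMod.unitOfCoprime 2 h))
    set k := orderOf (ZMod.unitOfCoprime 2 h) with hk
    rw [Units.val_pow_eq_pow_val, ZMod.coe_unitOfCoprime, Units.val_one] at h1
    have hdvd : 3 ^ (l + 1) ∣ 2 ^ k - 1 := by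
      have h2 : ((2 ^ k - 1 : ℕ) : ZMod (3 ^ (l + 1))) = 0 := by
        rw [Nat.cast_sub Nat.one_le_two_pow, Nat.cast_pow, h1]
        simp
      exact (ZMod.natCast_eq_zero_iff _ _).1 h2
    have h3 : 3 ∣ 2 ^ k - 1 := (dvd_pow_self 3 (Nat.succ_ne_zero l)).trans hdvd
    obtain ⟨c, hc⟩ := Nat.even_or_odd' k
    have h4 : ∀ c : ℕ, 2 ^ (2 * c) % 3 = 1 := by
      intro c
      rw [pow_mul, Nat.pow_mod]
      norm_num
    rcases hc with hc | hc
    · rw [hc] at hdvd hk0 ⊢
      rw [pow_mul] at hdvd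
      have hc0 : c ≠ 0 := by
        intro h0
        rw [h0] at hk0
        omega
      have h5 : padicValNat 3 ((2 ^ 2) ^ c - 1 ^ c) = padicValNat 3 (2 ^ 2 - 1) + padicValNat 3 c :=
        padicValNat.pow_sub_pow (by decide) (by norm_num) (by norm_num) (by norm_num) hc0
      rw [one_pow] at h5
      have h6 : (2 ^ 2) ^ c - 1 ≠ 0 := by
        have h7 : 1 < (2 ^ 2) ^ c := Nat.one_lt_pow hc0 (by norm_num)
        omega
      have h8 : l + 1 ≤ padicValNat 3 ((2 ^ 2) ^ c - 1) :=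
        (padicValNat_dvd_iff_le h6).1 hdvd
      have h9 : padicValNat 3 (2 ^ 2 - 1) = 1 := by
        norm_num
      rw [h5, h9] at h8
      have h10 : 3 ^ l ∣ c := (padicValNat_dvd_iff_le hc0).2 (by omega)
      exact Nat.mul_dvd_mul_left 2 h10
    · exfalso
      rw [hc, pow_succ] at h3
      have := h4 c
      omega

/-- Row R8. -/
theorem irreducible_tri3 (l : ℕ) : Irreducible (tri3 l) := by
  have : Fact (Nat.Prime 3) := ⟨Nat.prime_three⟩
  have h : ¬ 2 ∣ 3 ^ (l + 1) := by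
    intro h
    have := Nat.prime_two.dvd_of_dvd_pow h
    omega
  refine ZMod.irreducible_of_dvd_cyclotomic_of_natDegree h (tri3_eq l).dvd ?_
  rw [order_two, tri3_eq, natDegree_cyclotomic, Nat.totient_prime_pow_succ Nat.prime_three,
    mul_comm]

end TSP
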