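import Pool.Agent.TSP.Main
import Pool.Agent.TSP.Tri3

namespace TSP

open Finset Polynomial

/-- Hardwire the variables of `κ` to the values `τ`. -/
def hw {ι κ σ : Type} (P : BP (ι ⊕ κ) σ) (τ : κ → Bool) (d : ι) : BP ι σ where
  start := P.start
  var := fun t q => match P.var t q with
    | Sum.inl v => v
    | Sum.inr _ => d
  next := fun t q b => match P.var t q with
    | Sum.inl _ => P.next t q b
    | Sum.inr j => P.next t q (τ j)
  out := P.out

theorem hw_run {ι κ σ : Type} (P : BP (ι ⊕ κ) σ) (τ : κ → Bool) (d : ι) (z : ι → Bool) (v : σ)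
    (t l : ℕ) : (hw P τ d).run z v t l = P.run (Sum.elim z τ) v t l := by
  induction l with
  | zero => rfl
  | succ l ih =>
    simp only [BP.run, ih]
    unfold hw
    simp only
    cases h : P.var (t + l) (P.run (Sum.elim z τ) v t l) with
    | inl v => simp
    | inr j => simp

/-- Stop the program after `T` steps. -/
def trunc {ι σ : Type} (P : BP ι σ) (T : ℕ) : BP ι σ where
  start := P.start
  var := P.var
  next := fun t q b => if t < T then P.next t q b else q
  out := P.out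

theorem trunc_run {ι σ : Type} (P : BP ι σ) (T : ℕ) (z : ι → Bool) (v : σ) (l : ℕ) :
    (trunc P T).run z v 0 l = P.run z v 0 (min l T) := by
  induction l with
  | zero => simp [BP.run]
  | succ l ih =>
    by_cases h : l < T
    · rw [min_eq_left (by omega : l + 1 ≤ T)]
      rw [min_eq_left h.le] at ih
      simp only [BP.run, ih]
      unfold trunc
      simp [h]
    · push Not at h
      rw [min_eq_right (by omega : T ≤ l + 1)]
      rw [min_eq_right h] at ih
      simp only [BP.run, ih]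
      unfold trunc
      simp [not_lt.2 h]

theorem cex_equiv {X Y : Type} [Fintype X] [Fintype Y] (e : X ≃ Y) (f : Y → ℝ) :
    ex (fun x => f (e x)) = ex f := by
  unfold ex
  rw [Fintype.card_congr e, Equiv.sum_comp e f]

theorem cex_prod {X Y : Type} [Fintype X] [Fintype Y] (f : X → Y → ℝ) :
    ex (fun p : X × Y => f p.1 p.2) = ex fun y => ex fun x => f x y := by
  unfold ex
  rw [Fintype.sum_prod_type, sum_comm, Fintype.card_prod, ← sum_div, div_div]
  push_cast
  rfl

/-- The variables of the hard function. -/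
abbrev Var (n l : ℕ) : Type := V n ⊕ (Fin 2 × Fin (2 * 3 ^ l))

/-- The coefficients of the trilinear form determined by a seed. -/
noncomputable def cf (n l : ℕ) (τ : Fin 2 × Fin (2 * 3 ^ l) → Bool) (a a' b : Fin n) : ZMod 2 :=
  coef (tri3 l) (fun j => τ (0, j)) (fun j => τ (1, j)) ((a : ℕ) + n * a' + n ^ 2 * b)

/-- The hard function. -/
noncomputable def fn (n l : ℕ) (z : Var n l → Bool) : ZMod 2 :=
  ∑ a, ∑ a', ∑ b, cf n l (fun j => z (Sum.inr j)) a a' b * bit (z (Sum.inl (0, a))) *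
    bit (z (Sum.inl (1, a'))) * bit (z (Sum.inl (2, b)))

theorem tri3_aux (l : ℕ) : (tri3 l).Monic ∧ (tri3 l).natDegree = 2 * 3 ^ l := by
  have h3 : 0 < 3 ^ l := by positivity
  have hd : (X ^ (3 ^ l) + 1 : (ZMod 2)[X]).degree < ((2 * 3 ^ l : ℕ) : WithBot ℕ) := by
    refine lt_of_le_of_lt (degree_add_le _ _) ?_
    rw [degree_X_pow, degree_one]
    rw [max_lt_iff]
    constructor
    · exact_mod_cast (by omega : 3 ^ l < 2 * 3 ^ l)
    · exact_mod_cast (by omega : 0 < 2 * 3 ^ l)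
  have e : tri3 l = X ^ (2 * 3 ^ l) + (X ^ (3 ^ l) + 1) := by unfold tri3; ring
  rw [e]
  refine ⟨monic_X_pow_add hd, ?_⟩
  rw [natDegree_add_eq_left_of_degree_lt, natDegree_X_pow]
  rw [degree_X_pow]; exact hd

theorem abs_chi_le (a : ZMod 2) : |chi a| ≤ 1 := by unfold chi; split_ifs <;> simp

theorem abs_sg_le (b : Bool) : |sg b| ≤ 1 := by unfold sg; split_ifs <;> simp

/-- pairs of seeds -/
def seedEquiv (w : ℕ) : (Fin 2 × Fin w → Bool) ≃ (Fin w → Bool) × (Fin w → Bool) where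
  toFun τ := (fun j => τ (0, j), fun j => τ (1, j))
  invFun p := fun i => if i.1 = 0 then p.1 i.2 else p.2 i.2
  left_inv τ := by
    funext i
    obtain ⟨i, j⟩ := i
    fin_cases i <;> simp
  right_inv p := by
    obtain ⟨p, q⟩ := p
    simp

theorem small_bias_cf (n l : ℕ) (Y : Fin n → Fin n → Fin n → ZMod 2) (hY : Y ≠ 0) :
    ex (fun τ => chi (∑ a, ∑ a', ∑ b, Y a a' b * cf n l τ a a' b)) ≤
      (n : ℝ) ^ 3 / 2 ^ (2 * 3 ^ l) := by
  have h := small_bias (n := n) (tri3 l) (irreducible_tri3 l) (tri3_aux l).1 (tri3_aux l).2 Y hY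
  rw [← cex_equiv (seedEquiv (2 * 3 ^ l))] at h
  exact h

theorem cex_add {X : Type} [Fintype X] (f g : X → ℝ) :
    ex (fun x => f x + g x) = ex f + ex g := by
  unfold ex
  rw [sum_add_distrib, add_div]

theorem final : ∃ k₀ : ℕ, ∀ k n S l : ℕ, k₀ ≤ k → 1 ≤ S →
    S * k ^ (40 * k) ≤ n → 4 * n ≤ 2 * 3 ^ l → ∀ (P : BP (Var n l) (Fin (2 ^ S))) (T : ℕ),
    T + k ^ (20 * k) ≤ k * n →
    |ex fun z => chi (fn n l z) * sg (P.out (P.run z P.start 0 T))| ≤ 1 / (k : ℝ) ^ k := by
  classical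
  obtain ⟨k₁, h₁⟩ := core
  obtain ⟨k₂, h₂⟩ := numbers_seeds2
  refine ⟨max (max k₁ k₂) 2, fun k n S l hk hS hn hl P T hT => ?_⟩
  have hk1 : k₁ ≤ k := ((le_max_left _ _).trans (le_max_left _ _)).trans hk
  have hk2 : k₂ ≤ k := ((le_max_right _ _).trans (le_max_left _ _)).trans hk
  have hk3 : 2 ≤ k := (le_max_right _ _).trans hk
  have hk0 : 0 < k := by omega
  obtain ⟨γ, hγdef⟩ : ∃ γ : ℝ, γ = 1 / (k : ℝ) ^ k := ⟨_, rfl⟩
  have hγ2 : 1 / (2 * (k : ℝ) ^ k) = γ / 2 := by rw [hγdef]; field_simp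
  have hγ : 0 < γ := by
    have : (0 : ℝ) < k := by exact_mod_cast hk0
    rw [hγdef]; positivity
  have hn' : k ^ (40 * k) ≤ n := le_trans (Nat.le_mul_of_pos_left _ hS) hn
  have hn1 : 1 ≤ n := le_trans (pow_pos hk0 _) hn'
  obtain ⟨h, hh⟩ := h₂ k n (2 * 3 ^ l) hk2 hn' hl
  rw [hγ2] at hh
  set r := k ^ (20 * k) with hr
  have hr0 : 0 < r := pow_pos hk0 _
  set L := T / r + 1 with hLdef
  have hTL : T ≤ r * L := by
    rw [hLdef, mul_add, mul_one]
    have := Nat.div_add_mod T r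
    have := Nat.mod_lt T hr0
    omega
  have hL : r * L ≤ k * n := by
    rw [hLdef, mul_add, mul_one]
    have := Nat.mul_div_le T r
    omega
  set m := n / k ^ (10 * k) with hm
  set η := (2 : ℝ) ^ (-((k ^ 2 * m : ℕ) : ℝ) / 20) with hη
  have hη0 : 0 < η := by positivity
  let bad : (Fin 2 × Fin (2 * 3 ^ l) → Bool) → Prop := fun τ =>
    ∃ A A' B : Finset (Fin n), A.card = m ∧ A'.card = m ∧ B.card = k ^ 2 * m ∧
      η < G (cf n l τ) A A' B (k ^ 2)
  have hbad : ex (fun τ => if bad τ then (1 : ℝ) else 0) ≤ γ / 2 :=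
    (seeds_good (cf n l) ((n : ℝ) ^ 3 / 2 ^ (2 * 3 ^ l)) (by positivity)
      (small_bias_cf n l) m (k ^ 2 * m) (k ^ 2) h η hη0).trans hh
  have hrun : ∀ (z : V n → Bool) (τ : Fin 2 × Fin (2 * 3 ^ l) → Bool),
      P.run (Sum.elim z τ) P.start 0 T =
        (hw (trunc P T) τ (0, ⟨0, hn1⟩)).run z (hw (trunc P T) τ (0, ⟨0, hn1⟩)).start 0
          (r * L) := by
    intro z τ
    rw [hw_run]
    have : (hw (trunc P T) τ (0, ⟨0, hn1⟩)).start = P.start := rfl
    rw [this, trunc_run, min_eq_right hTL]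
  have hinner : ∀ τ : Fin 2 × Fin (2 * 3 ^ l) → Bool,
      |ex fun z : V n → Bool => chi (fn n l (Sum.elim z τ)) *
        sg (P.out (P.run (Sum.elim z τ) P.start 0 T))| ≤
      (if bad τ then (1 : ℝ) else 0) + γ / 2 := by
    intro τ
    by_cases hb : bad τ
    · rw [if_pos hb]
      refine (cabs_ex_le _).trans ((cex_mono _ (fun _ => 1) fun z => ?_).trans
        ((cex_const_le 1 zero_le_one).trans (by linarith)))
      rw [abs_mul]
      exact mul_le_one₀ (abs_chi_le _) (abs_nonneg _) (abs_sg_le _)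
    · rw [if_neg hb, zero_add]
      have hG : ∀ A A' B : Finset (Fin n), A.card = m → A'.card = m → B.card = k ^ 2 * m →
          G (cf n l τ) A A' B (k ^ 2) ≤ η := by
        intro A A' B hA hA' hB
        by_contra hc
        push Not at hc
        exact hb ⟨A, A', B, hA, hA', hB, hc⟩
      have key := h₁ k n S hk1 hS hn (cf n l τ) hG (hw (trunc P T) τ (0, ⟨0, hn1⟩)) L hL
      rw [hγ2] at key
      refine le_trans (le_of_eq ?_) key
      congr 2
      funext z
      rw [hrun z τ]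
      rfl
  have e1 : (ex fun z => chi (fn n l z) * sg (P.out (P.run z P.start 0 T))) =
      ex fun τ : Fin 2 × Fin (2 * 3 ^ l) → Bool => ex fun z : V n → Bool =>
        chi (fn n l (Sum.elim z τ)) * sg (P.out (P.run (Sum.elim z τ) P.start 0 T)) := by
    rw [← cex_prod (fun (z : V n → Bool) (τ : Fin 2 × Fin (2 * 3 ^ l) → Bool) =>
      chi (fn n l (Sum.elim z τ)) * sg (P.out (P.run (Sum.elim z τ) P.start 0 T)))]
    rw [← cex_equiv (Equiv.sumArrowEquivProdArrow (V n) (Fin 2 × Fin (2 * 3 ^ l)) Bool).symm]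
    rfl
  rw [e1, ← hγdef]
  refine (cabs_ex_le _).trans ((cex_mono _ _ hinner).trans ?_)
  rw [cex_add]
  have := cex_const_le (X := Fin 2 × Fin (2 * 3 ^ l) → Bool) (γ / 2) (by positivity)
  linarith

end TSP
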