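import Pool.Agent.TSP.Defs

/-!
# TSP, row R7: the powering construction of a small-bias space
-/

namespace TSP

open Finset Polynomial

/-- The polynomial with coefficients `α`. -/
noncomputable def pol {w : ℕ} (α : Fin w → Bool) : (ZMod 2)[X] :=
  ∑ j : Fin w, C (bit (α j)) * X ^ (j : ℕ)

/-- The inner product of `β` with the coefficients of `α ^ e` modulo `g`. -/
noncomputable def coef {w : ℕ} (g : (ZMod 2)[X]) (α β : Fin w → Bool) (e : ℕ) : ZMod 2 :=
  ∑ j : Fin w, bit (β j) * ((pol α ^ e) %ₘ g).coeff j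

namespace h97

theorem z2 (a : ZMod 2) : a = 0 ∨ a = 1 := by
  revert a
  decide

theorem chi_add (a b : ZMod 2) : chi (a + b) = chi a * chi b := by
  have h : (1 : ZMod 2) + 1 = 0 := by decide
  have h1 : (1 : ZMod 2) ≠ 0 := by decide
  rcases z2 a with rfl | rfl <;> rcases z2 b with rfl | rfl <;>
    simp [chi, h, h1]

theorem chi_zero : chi 0 = 1 := by simp [chi]

theorem chi_sum {ι : Type} (s : Finset ι) (f : ι → ZMod 2) :
    chi (∑ i ∈ s, f i) = ∏ i ∈ s, chi (f i) := by
  classical
  induction s using Finset.induction_on with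
  | empty => simp [chi]
  | insert i s hi ih => rw [sum_insert hi, prod_insert hi, chi_add, ih]

/-- orthogonality of the characters -/
theorem char_sum {w : ℕ} (c : Fin w → ZMod 2) :
    ∑ β : Fin w → Bool, chi (∑ j, bit (β j) * c j) = if c = 0 then 2 ^ w else 0 := by
  have h1 : ∀ β : Fin w → Bool, chi (∑ j, bit (β j) * c j) = ∏ j, chi (bit (β j) * c j) :=
    fun β => chi_sum _ _
  rw [sum_congr rfl fun β _ => h1 β]
  have h2 : ∏ j : Fin w, ∑ t : Bool, chi (bit t * c j)
      = ∑ β : Fin w → Bool, ∏ j, chi (bit (β j) * c j) := by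
    rw [Finset.prod_univ_sum, Fintype.piFinset_univ]
  rw [← h2]
  have h3 : ∀ j, ∑ t : Bool, chi (bit t * c j) = if c j = 0 then 2 else 0 := by
    intro j
    rw [Fintype.sum_bool]
    rcases z2 (c j) with h | h <;> rw [h] <;> norm_num [bit, chi]
  simp only [h3]
  split_ifs with hc
  · subst hc
    simp
  · obtain ⟨j, hj⟩ : ∃ j, c j ≠ 0 := by
      by_contra hcon
      push Not at hcon
      exact hc (funext hcon)
    exact prod_eq_zero (mem_univ j) (if_neg hj)

theorem bit_inj {a b : Bool} (h : bit a = bit b) : a = b := by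
  have h1 : (1 : ZMod 2) ≠ 0 := by decide
  cases a <;> cases b <;> simp_all [bit]

theorem pol_coeff {w : ℕ} (α : Fin w → Bool) (j : Fin w) : (pol α).coeff j = bit (α j) := by
  rw [pol, finsetSum_coeff]
  rw [sum_eq_single j]
  · simp
  · intro i _ hij
    rw [coeff_C_mul, coeff_X_pow, if_neg, mul_zero]
    intro h
    exact hij (Fin.ext h.symm)
  · intro h
    exact absurd (mem_univ j) h

theorem pol_degree {w : ℕ} (α : Fin w → Bool) : (pol α).degree < w := by
  exact degree_sum_fin_lt _

end h97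

open h97

/-- Row R7: the powering construction of a small-bias space. -/
theorem small_bias {w n : ℕ} (g : (ZMod 2)[X]) (hg : Irreducible g) (hm : g.Monic)
    (hw : g.natDegree = w) (Y : Fin n → Fin n → Fin n → ZMod 2) (hY : Y ≠ 0) :
    ex (fun τ : (Fin w → Bool) × (Fin w → Bool) => chi (∑ a : Fin n, ∑ a' : Fin n, ∑ b : Fin n,
      Y a a' b * coef g τ.1 τ.2 ((a : ℕ) + n * a' + n ^ 2 * b))) ≤ (n : ℝ) ^ 3 / 2 ^ w := by
  classical
  have : Fact (Irreducible g) := ⟨hg⟩
  set e : Fin n × Fin n × Fin n → ℕ := fun p => (p.1 : ℕ) + n * p.2.1 + n ^ 2 * p.2.2 with he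
  have hinj : Function.Injective e := by
    rintro ⟨a, a', b⟩ ⟨c, c', d⟩ h
    simp only [he] at h
    have hn : 0 < n := a.pos
    have h1 : (a : ℕ) + n * (a' + n * b) = (c : ℕ) + n * (c' + n * d) := by nlinarith [h]
    have h2 : (a : ℕ) = c := by
      have := congrArg (· % n) h1
      simpa [Nat.mod_eq_of_lt a.2, Nat.mod_eq_of_lt c.2] using this
    have h3 : (a' : ℕ) + n * b = c' + n * d := by
      rw [h2] at h1
      exact Nat.eq_of_mul_eq_mul_left hn (Nat.add_left_cancel h1)
    have h4 : (a' : ℕ) = c' := by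
      have := congrArg (· % n) h3
      simpa [Nat.mod_eq_of_lt a'.2, Nat.mod_eq_of_lt c'.2] using this
    have h5 : (b : ℕ) = d := by
      rw [h4] at h3
      exact Nat.eq_of_mul_eq_mul_left hn (Nat.add_left_cancel h3)
    rw [Prod.mk.injEq, Prod.mk.injEq]
    exact ⟨Fin.ext h2, Fin.ext h4, Fin.ext h5⟩
  have helt : ∀ p, e p < n ^ 3 := by
    rintro ⟨a, a', b⟩
    simp only [he]
    have h1 : (a : ℕ) + 1 ≤ n := a.2
    have h2 : (a' : ℕ) + 1 ≤ n := a'.2
    have h3 : (b : ℕ) + 1 ≤ n := b.2
    have h4 : n * ((a' : ℕ) + 1) ≤ n * n := Nat.mul_le_mul_left _ h2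
    have h5 : n ^ 2 * ((b : ℕ) + 1) ≤ n ^ 2 * n := Nat.mul_le_mul_left _ h3
    nlinarith
  set Z : Fin n × Fin n × Fin n → ZMod 2 := fun p => Y p.1 p.2.1 p.2.2 with hZ
  set P : (ZMod 2)[X] := ∑ p, C (Z p) * X ^ e p with hP
  have hsum : ∀ (α β : Fin w → Bool), (∑ a : Fin n, ∑ a' : Fin n, ∑ b : Fin n,
      Y a a' b * coef g α β ((a : ℕ) + n * a' + n ^ 2 * b)) = ∑ p, Z p * coef g α β (e p) := by
    intro α β
    rw [Fintype.sum_prod_type]
    refine sum_congr rfl fun a _ => ?_
    rw [Fintype.sum_prod_type]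
  have hcoeff : ∀ (α β : Fin w → Bool), ∑ p, Z p * coef g α β (e p)
      = ∑ j : Fin w, bit (β j) * ((P.comp (pol α)) %ₘ g).coeff j := by
    intro α β
    have h1 : (P.comp (pol α)) %ₘ g = ∑ p, C (Z p) * ((pol α ^ e p) %ₘ g) := by
      rw [hP, ← coe_compRingHom_apply, map_sum]
      simp only [coe_compRingHom_apply, mul_comp, C_comp, pow_comp, X_comp]
      rw [← modByMonicHom_apply, map_sum]
      refine sum_congr rfl fun p _ => ?_
      rw [← smul_eq_C_mul, map_smul, modByMonicHom_apply, smul_eq_C_mul]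
    rw [h1]
    simp only [coef, finsetSum_coeff, coeff_C_mul, mul_sum]
    rw [sum_comm]
    refine sum_congr rfl fun j _ => sum_congr rfl fun p _ => by ring
  -- the polynomial is nonzero of degree at most `n ^ 3`
  have hP0 : P ≠ 0 := by
    obtain ⟨p, hp⟩ : ∃ p, Z p ≠ 0 := by
      by_contra hcon
      push Not at hcon
      exact hY (funext fun a => funext fun a' => funext fun b => hcon (a, a', b))
    intro h0
    have h1 : P.coeff (e p) = Z p := by
      rw [hP, finsetSum_coeff, sum_eq_single p]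
      · simp
      · intro p' _ hp'
        rw [coeff_C_mul, coeff_X_pow, if_neg, mul_zero]
        intro h
        exact hp' (hinj h).symm
      · intro h
        exact absurd (mem_univ p) h
    rw [h0, coeff_zero] at h1
    exact hp h1.symm
  have hPdeg : P.natDegree ≤ n ^ 3 := by
    rw [hP]
    refine natDegree_sum_le_of_forall_le _ _ fun p _ => ?_
    exact (natDegree_C_mul_X_pow_le _ _).trans (helt p).le
  have hdeg : g.degree = w := by
    rw [degree_eq_natDegree hg.ne_zero, hw]
  -- the roots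
  set φ : (Fin w → Bool) → AdjoinRoot g := fun α => AdjoinRoot.mk g (pol α) with hφ
  have hφinj : Function.Injective φ := by
    intro α α' h
    simp only [hφ] at h
    rw [AdjoinRoot.mk_eq_mk] at h
    have h1 : pol α - pol α' = 0 := by
      by_contra hne
      have h2 := degree_le_of_dvd h hne
      have h3 : (pol α - pol α').degree < w :=
        (degree_sub_le _ _).trans_lt (max_lt (pol_degree α) (pol_degree α'))
      rw [hdeg] at h2
      exact absurd h3 (not_lt.2 h2)
    rw [sub_eq_zero] at h1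
    funext j
    apply bit_inj
    rw [← pol_coeff, ← pol_coeff, h1]
  set c : (Fin w → Bool) → Fin w → ZMod 2 := fun α j => ((P.comp (pol α)) %ₘ g).coeff j with hc
  have hroot : ∀ α, c α = 0 →
      φ α ∈ ((P.map (algebraMap (ZMod 2) (AdjoinRoot g))).roots.toFinset) := by
    intro α hα
    have h1 : (P.comp (pol α)) %ₘ g = 0 := by
      ext j
      rw [coeff_zero]
      by_cases hj : j < w
      · exact congrFun hα ⟨j, hj⟩
      · refine coeff_eq_zero_of_degree_lt ?_
        refine (degree_modByMonic_lt _ hm).trans_le ?_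
        rw [hdeg]
        exact_mod_cast not_lt.1 hj
    rw [Multiset.mem_toFinset, mem_roots]
    · rw [IsRoot.def, eval_map_algebraMap]
      have h2 : aeval (φ α) P = AdjoinRoot.mk g (P.comp (pol α)) := by
        rw [← AdjoinRoot.aeval_eq, aeval_comp, AdjoinRoot.aeval_eq]
      rw [h2, AdjoinRoot.mk_eq_zero, ← modByMonic_eq_zero_iff_dvd hm]
      exact h1
    · exact (Polynomial.map_ne_zero_iff (algebraMap (ZMod 2) (AdjoinRoot g)).injective).2 hP0
  have hcount : ((univ.filter fun α => c α = 0).card : ℝ) ≤ (n : ℝ) ^ 3 := by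
    have h1 : (univ.filter fun α => c α = 0).card
        ≤ ((P.map (algebraMap (ZMod 2) (AdjoinRoot g))).roots.toFinset).card :=
      card_le_card_of_injOn φ (fun α hα => hroot α (mem_filter.1 hα).2) hφinj.injOn
    have h2 : ((P.map (algebraMap (ZMod 2) (AdjoinRoot g))).roots.toFinset).card ≤ n ^ 3 :=
      (Multiset.toFinset_card_le _).trans ((card_roots' _).trans (natDegree_map_le.trans hPdeg))
    exact_mod_cast h1.trans h2
  -- the average
  rw [ex]
  have h2w : (0 : ℝ) < 2 ^ w := by positivity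
  rw [Fintype.card_prod, Fintype.card_fun, Fintype.card_bool, Fintype.card_fin,
    div_le_div_iff₀ (by positivity) h2w]
  rw [Fintype.sum_prod_type]
  have h3 : ∀ α : Fin w → Bool, (∑ β : Fin w → Bool, chi (∑ a : Fin n, ∑ a' : Fin n, ∑ b : Fin n,
      Y a a' b * coef g α β ((a : ℕ) + n * a' + n ^ 2 * b))) = if c α = 0 then 2 ^ w else 0 := by
    intro α
    rw [← char_sum]
    refine sum_congr rfl fun β _ => ?_
    rw [hsum, hcoeff]
  rw [sum_congr rfl fun α _ => h3 α, ← sum_filter, sum_const, nsmul_eq_mul]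
  push_cast
  have h4 := mul_le_mul_of_nonneg_right hcount (by positivity : (0 : ℝ) ≤ 2 ^ w * 2 ^ w)
  linarith

end TSP
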