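import Pool.Agent.TSP.Defs

/-!
# TSP, row R2: resampling, Cauchy-Schwarz, Hoelder and Jensen
-/

set_option autoImplicit false

namespace TSP

open Finset

namespace h70

variable {ι : Type} [Fintype ι] [DecidableEq ι]

theorem ex_mono {X : Type} [Fintype X] {f g : X → ℝ} (h : ∀ x, f x ≤ g x) : ex f ≤ ex g := by
  unfold ex
  exact div_le_div_of_nonneg_right (Finset.sum_le_sum fun x _ => h x) (Nat.cast_nonneg _)

theorem ex_nonneg {X : Type} [Fintype X] {f : X → ℝ} (h : ∀ x, 0 ≤ f x) : 0 ≤ ex f :=
  div_nonneg (Finset.sum_nonneg fun x _ => h x) (Nat.cast_nonneg _)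

theorem ex_const {X : Type} [Fintype X] [Nonempty X] (c : ℝ) : ex (fun _ : X => c) = c := by
  unfold ex
  have : (Fintype.card X : ℝ) ≠ 0 := by exact_mod_cast Fintype.card_ne_zero
  rw [Finset.sum_const, nsmul_eq_mul, Finset.card_univ]
  field_simp

theorem ex_mul_left {X : Type} [Fintype X] (c : ℝ) (f : X → ℝ) :
    ex (fun x => c * f x) = c * ex f := by
  unfold ex
  rw [← Finset.mul_sum, mul_div_assoc]

theorem ex_mul_right {X : Type} [Fintype X] (f : X → ℝ) (c : ℝ) :
    ex (fun x => f x * c) = ex f * c := by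
  unfold ex
  rw [← Finset.sum_mul, div_mul_eq_mul_div]

theorem abs_ex_le {X : Type} [Fintype X] (f : X → ℝ) : |ex f| ≤ ex fun x => |f x| := by
  unfold ex
  rw [abs_div, abs_of_nonneg (Nat.cast_nonneg (Fintype.card X) : (0 : ℝ) ≤ _)]
  exact div_le_div_of_nonneg_right (Finset.abs_sum_le_sum_abs _ _) (Nat.cast_nonneg _)

theorem ex_comm {X Y : Type} [Fintype X] [Fintype Y] (f : X → Y → ℝ) :
    ex (fun x => ex fun y => f x y) = ex (fun y => ex fun x => f x y) := by
  unfold ex
  rw [← Finset.sum_div, ← Finset.sum_div, Finset.sum_comm]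
  ring

theorem ex_prod {X Y : Type} [Fintype X] [Fintype Y] (f : X → Y → ℝ) :
    ex (fun p : X × Y => f p.1 p.2) = ex (fun x => ex fun y => f x y) := by
  unfold ex
  rw [← Finset.sum_div, Fintype.sum_prod_type, Fintype.card_prod, div_div]
  push_cast
  rw [mul_comm (Fintype.card X : ℝ)]

/-- Jensen for a natural power -/
theorem ex_pow_le {X : Type} [Fintype X] [Nonempty X] {g K : X → ℝ}
    (hg : ∀ x, g x = 0 ∨ g x = 1) (hK : ∀ x, 0 ≤ K x) {s : ℕ} (hs : 1 ≤ s) :
    ex (fun x => g x * K x) ^ s ≤ ex g ^ (s - 1) * ex (fun x => K x ^ s) := by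
  have hg0 : ∀ x, 0 ≤ g x := fun x => by rcases hg x with h | h <;> rw [h] <;> norm_num
  have hg1 : ∀ x, g x ≤ 1 := fun x => by rcases hg x with h | h <;> rw [h] <;> norm_num
  have hn : (0 : ℝ) < Fintype.card X := by exact_mod_cast Fintype.card_pos
  rcases (Finset.sum_nonneg fun x (_ : x ∈ (Finset.univ : Finset X)) => hg0 x).lt_or_eq with h | h
  · set G := ∑ x, g x with hG
    have h1 := Real.pow_arith_mean_le_arith_mean_pow Finset.univ (fun x => g x / G) K
      (fun x _ => div_nonneg (hg0 x) h.le) (by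
        rw [← Finset.sum_div, ← hG]
        exact div_self h.ne') (fun x _ => hK x) s
    have h2 : ∑ x, g x / G * K x = (∑ x, g x * K x) / G := by
      rw [Finset.sum_div]
      exact Finset.sum_congr rfl fun x _ => by ring
    have h3 : ∑ x, g x / G * K x ^ s = (∑ x, g x * K x ^ s) / G := by
      rw [Finset.sum_div]
      exact Finset.sum_congr rfl fun x _ => by ring
    rw [h2, h3, div_pow] at h1
    have h4 : (∑ x, g x * K x) ^ s ≤ G ^ (s - 1) * ∑ x, g x * K x ^ s := by
      have h5 : G ^ s = G ^ (s - 1) * G := by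
        rw [← pow_succ]
        congr 1
        omega
      rw [div_le_div_iff₀ (by positivity) h, h5] at h1
      have h6 : (∑ x, g x * K x) ^ s * G ≤ (G ^ (s - 1) * ∑ x, g x * K x ^ s) * G := by
        calc _ ≤ _ := h1
          _ = _ := by ring
      exact le_of_mul_le_mul_right h6 h
    have h7 : ∑ x, g x * K x ^ s ≤ ∑ x, K x ^ s := Finset.sum_le_sum fun x _ => by
      have := mul_le_mul_of_nonneg_right (hg1 x) (pow_nonneg (hK x) s)
      linarith
    have h8 : (∑ x, g x * K x) ^ s ≤ G ^ (s - 1) * ∑ x, K x ^ s :=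
      h4.trans (mul_le_mul_of_nonneg_left h7 (by positivity))
    unfold ex
    rw [div_pow, div_pow, div_mul_div_comm, ← pow_succ, Nat.sub_add_cancel hs]
    exact div_le_div_of_nonneg_right h8 (by positivity)
  · have h0 : ∀ x, g x = 0 := fun x =>
      (Finset.sum_eq_zero_iff_of_nonneg fun x _ => hg0 x).1 h.symm x (Finset.mem_univ x)
    have h1 : ex (fun x => g x * K x) = 0 := by
      unfold ex
      rw [Finset.sum_eq_zero fun x _ => by rw [h0 x, zero_mul], zero_div]
    rw [h1, zero_pow (by omega)]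
    exact mul_nonneg (pow_nonneg (ex_nonneg hg0) _) (ex_nonneg fun x => pow_nonneg (hK x) s)

/-- resampling -/
theorem resample (D : Finset ι) (f : (ι → Bool) → ℝ) :
    ex (fun z => ex fun v => f (merge D v z)) = ex f := by
  let e : ((ι → Bool) × (ι → Bool)) ≃ ((ι → Bool) × (ι → Bool)) :=
    { toFun := fun p => (merge D p.2 p.1, merge D p.1 p.2)
      invFun := fun p => (merge D p.2 p.1, merge D p.1 p.2)
      left_inv := fun p => by
        refine Prod.ext ?_ ?_ <;>
          · funext i
            simp only [merge]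
            by_cases h : i ∈ D <;> simp [h]
      right_inv := fun p => by
        refine Prod.ext ?_ ?_ <;>
          · funext i
            simp only [merge]
            by_cases h : i ∈ D <;> simp [h] }
  have h1 : ex (fun z => ex fun v => f (merge D v z))
      = ex (fun p : (ι → Bool) × (ι → Bool) => f (e p).1) :=
    (ex_prod fun z v => f (merge D v z)).symm
  have h2 : ex (fun p : (ι → Bool) × (ι → Bool) => f (e p).1)
      = ex (fun p : (ι → Bool) × (ι → Bool) => f p.1) := by
    unfold ex
    rw [Equiv.sum_comp e (fun p => f p.1)]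
  rw [h1, h2, ex_prod (fun z _ => f z)]
  congr 1
  funext z
  exact ex_const _

/-- Cauchy-Schwarz -/
theorem ex_mul_sq_le {X : Type} [Fintype X] (f g : X → ℝ) :
    ex (fun x => f x * g x) ^ 2 ≤ ex (fun x => f x ^ 2) * ex (fun x => g x ^ 2) := by
  unfold ex
  rw [div_pow, div_mul_div_comm, ← sq]
  exact div_le_div_of_nonneg_right (Finset.sum_mul_sq_le_sq_mul_sq _ _ _) (by positivity)

theorem ex_mul_ex {X Y : Type} [Fintype X] [Fintype Y] (f : X → ℝ) (g : Y → ℝ) :
    ex f * ex g = ex (fun p : X × Y => f p.1 * g p.2) := by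
  rw [ex_prod (fun x y => f x * g y)]
  rw [← ex_mul_right]
  congr 1
  funext x
  rw [ex_mul_left]

/-- concavity of `t ^ (1 - 1 / s)` -/
theorem ex_rpow_le {X : Type} [Fintype X] [Nonempty X] {a : X → ℝ} (ha : ∀ x, 0 ≤ a x)
    {s : ℕ} (hs : 1 ≤ s) :
    ex (fun x => a x ^ (1 - 1 / (s : ℝ))) ≤ ex a ^ (1 - 1 / (s : ℝ)) := by
  have hn : (0 : ℝ) < Fintype.card X := by exact_mod_cast Fintype.card_pos
  rcases Nat.lt_or_ge s 2 with h2 | h2
  · have : s = 1 := by omega
    subst this
    simp only [Nat.cast_one, div_one, sub_self, Real.rpow_zero]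
    exact (ex_const 1).le
  · have hs' : (2 : ℝ) ≤ s := by exact_mod_cast h2
    have hθ : 0 < 1 - 1 / (s : ℝ) := by
      rw [sub_pos, div_lt_one (by linarith)]
      linarith
    set θ := 1 - 1 / (s : ℝ) with hθdef
    have hθ1 : θ ≤ 1 := by
      rw [hθdef]
      have : 0 ≤ 1 / (s : ℝ) := by positivity
      linarith
    have hp : 1 ≤ 1 / θ := by
      rw [le_div_iff₀ hθ]
      linarith
    have h3 := Real.arith_mean_le_rpow_mean Finset.univ (fun _ : X => 1 / (Fintype.card X : ℝ))
      (fun x => a x ^ θ) (fun _ _ => by positivity) (by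
        rw [Finset.sum_const, nsmul_eq_mul, Finset.card_univ]
        field_simp) (fun x _ => Real.rpow_nonneg (ha x) _) hp
    have h4 : ∀ x, (a x ^ θ) ^ (1 / θ) = a x := by
      intro x
      rw [← Real.rpow_mul (ha x), mul_one_div_cancel hθ.ne', Real.rpow_one]
    rw [one_div_one_div] at h3
    simp only [h4] at h3
    unfold ex
    have e1 : (∑ x, a x ^ θ) / (Fintype.card X : ℝ)
        = ∑ x, 1 / (Fintype.card X : ℝ) * a x ^ θ := by
      rw [← Finset.mul_sum]
      ring
    have e2 : (∑ x, a x) / (Fintype.card X : ℝ)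
        = ∑ x, 1 / (Fintype.card X : ℝ) * a x := by
      rw [← Finset.mul_sum]
      ring
    rw [e1, e2]
    exact h3

end h70

open h70

/-- Row R2: resampling, Cauchy-Schwarz, Hoelder and Jensen. -/
theorem cyl_bound {ι : Type} [Fintype ι] [DecidableEq ι] (DA DB : Finset ι)
    (hd : Disjoint DA DB) (gA gB F : (ι → Bool) → ℝ)
    (hA01 : ∀ z, gA z = 0 ∨ gA z = 1) (hB01 : ∀ z, gB z = 0 ∨ gB z = 1)
    (hA : ∀ z z' : ι → Bool, (∀ i ∉ DB, z i = z' i) → gA z = gA z')
    (hB : ∀ z z' : ι → Bool, (∀ i ∉ DA, z i = z' i) → gB z = gB z')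
    (K : (ι → Bool) → (ι → Bool) → ℝ) (hK0 : ∀ v v', 0 ≤ K v v')
    (hK : ∀ z v v', |ex fun u => F (merge DA u (merge DB v z)) * F (merge DA u (merge DB v' z))|
      ≤ K v v')
    (s : ℕ) (hs : 1 ≤ s) (η : ℝ)
    (hη : ex (fun p : (ι → Bool) × (ι → Bool) => K p.1 p.2 ^ s) ≤ η) :
    |ex fun z => gA z * gB z * F z| ≤ (ex gB) ^ (1 - 1 / (s : ℝ)) * η ^ (1 / (2 * (s : ℝ))) := by
  have hs' : (1 : ℝ) ≤ s := by exact_mod_cast hs
  have hs0 : (0 : ℝ) < s := by linarith
  have hη0 : 0 ≤ η := le_trans (ex_nonneg fun p => pow_nonneg (hK0 _ _) s) hη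
  have hA1 : ∀ z, gA z ^ 2 ≤ 1 := fun z => by rcases hA01 z with h | h <;> rw [h] <;> norm_num
  have hB0 : ∀ z, 0 ≤ gB z := fun z => by rcases hB01 z with h | h <;> rw [h] <;> norm_num
  -- one fibre
  set a : (ι → Bool) → ℝ := fun z => ex fun v => gB (merge DB v z) with ha
  have ha0 : ∀ z, 0 ≤ a z := fun z => ex_nonneg fun v => hB0 _
  have hfib : ∀ z, |ex fun v : ι → Bool => ex fun u : ι → Bool => gA (merge DA u (merge DB v z))
      * gB (merge DA u (merge DB v z)) * F (merge DA u (merge DB v z))|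
      ≤ a z ^ (1 - 1 / (s : ℝ)) * η ^ (1 / (2 * (s : ℝ))) := by
    intro z
    have e1 : ∀ u v, gA (merge DA u (merge DB v z)) = gA (merge DA u z) := by
      intro u v
      refine hA _ _ fun i hi => ?_
      simp only [merge, if_neg hi]
    have e2 : ∀ u v, gB (merge DA u (merge DB v z)) = gB (merge DB v z) := by
      intro u v
      refine hB _ _ fun i hi => ?_
      simp only [merge, if_neg hi]
    set X : ℝ := ex fun v : ι → Bool => ex fun u : ι → Bool => gA (merge DA u (merge DB v z))
      * gB (merge DA u (merge DB v z)) * F (merge DA u (merge DB v z)) with hX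
    have hX1 : X = ex fun u => gA (merge DA u z)
        * ex fun v => gB (merge DB v z) * F (merge DA u (merge DB v z)) := by
      rw [hX, ex_comm]
      congr 1
      funext u
      rw [← ex_mul_left]
      congr 1
      funext v
      rw [e1, e2]
      ring
    set Y : ℝ := ex (fun p : (ι → Bool) × (ι → Bool) =>
      (gB (merge DB p.1 z) * gB (merge DB p.2 z)) * K p.1 p.2) with hY
    have hXY : X ^ 2 ≤ Y := by
      rw [hX1]
      refine (ex_mul_sq_le _ _).trans ?_
      have h1 : ex (fun u => gA (merge DA u z) ^ 2) ≤ 1 := by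
        refine (ex_mono fun u => hA1 _).trans ?_
        exact (ex_const 1).le
      have h2 : 0 ≤ ex (fun u => (ex fun v => gB (merge DB v z)
          * F (merge DA u (merge DB v z))) ^ 2) := ex_nonneg fun u => sq_nonneg _
      have h3 : ex (fun u => gA (merge DA u z) ^ 2) * ex (fun u => (ex fun v => gB (merge DB v z)
          * F (merge DA u (merge DB v z))) ^ 2)
          ≤ ex (fun u => (ex fun v => gB (merge DB v z) * F (merge DA u (merge DB v z))) ^ 2) := by
        nlinarith
      refine h3.trans ?_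
      have h4 : ∀ u, (ex fun v => gB (merge DB v z) * F (merge DA u (merge DB v z))) ^ 2
          = ex (fun p : (ι → Bool) × (ι → Bool) => (gB (merge DB p.1 z) * gB (merge DB p.2 z))
            * (F (merge DA u (merge DB p.1 z)) * F (merge DA u (merge DB p.2 z)))) := by
        intro u
        rw [sq, ex_mul_ex]
        congr 1
        funext p
        ring
      simp only [h4]
      rw [ex_comm, hY]
      refine ex_mono fun p => ?_
      rw [ex_mul_left]
      exact mul_le_mul_of_nonneg_left ((le_abs_self _).trans (hK z p.1 p.2))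
        (mul_nonneg (hB0 _) (hB0 _))
    have hgg : ex (fun p : (ι → Bool) × (ι → Bool) => gB (merge DB p.1 z) * gB (merge DB p.2 z))
        = a z ^ 2 := by
      rw [sq, ha]
      exact (ex_mul_ex (fun v : ι → Bool => gB (merge DB v z))
        (fun v : ι → Bool => gB (merge DB v z))).symm
    have hYs : Y ^ s ≤ (a z ^ 2) ^ (s - 1) * η := by
      rw [hY, ← hgg]
      refine (ex_pow_le (g := fun p : (ι → Bool) × (ι → Bool) =>
        gB (merge DB p.1 z) * gB (merge DB p.2 z)) (K := fun p => K p.1 p.2) (fun p => ?_)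
        (fun p => hK0 _ _) hs).trans ?_
      · rcases hB01 (merge DB p.1 z) with h | h <;> rcases hB01 (merge DB p.2 z) with h' | h' <;>
          rw [h, h'] <;> norm_num
      · refine mul_le_mul_of_nonneg_left hη (pow_nonneg ?_ _)
        rw [hgg]
        positivity
    have hX2s : |X| ^ (2 * s) ≤ (a z ^ 2) ^ (s - 1) * η := by
      rw [pow_mul, sq_abs]
      exact (pow_le_pow_left₀ (sq_nonneg X) hXY s).trans hYs
    -- take the root
    have h2s : (0 : ℝ) < 2 * s := by linarith
    have hroot : |X| = (|X| ^ (2 * s)) ^ (1 / (2 * (s : ℝ))) := by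
      rw [← Real.rpow_natCast, ← Real.rpow_mul (abs_nonneg X)]
      push_cast
      rw [mul_one_div_cancel h2s.ne', Real.rpow_one]
    rw [hroot]
    refine (Real.rpow_le_rpow (by positivity) hX2s (by positivity)).trans (le_of_eq ?_)
    rw [Real.mul_rpow (by positivity) hη0]
    congr 1
    rw [← Real.rpow_natCast (a z ^ 2), ← Real.rpow_natCast (a z), ← Real.rpow_mul (ha0 z),
      ← Real.rpow_mul (ha0 z), Nat.cast_sub hs]
    congr 1
    push_cast
    field_simp
  -- average over the fibres
  have h1 : ex (fun z => gA z * gB z * F z)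
      = ex fun z : ι → Bool => ex fun v : ι → Bool => ex fun u : ι → Bool =>
      gA (merge DA u (merge DB v z))
      * gB (merge DA u (merge DB v z)) * F (merge DA u (merge DB v z)) := by
    rw [← resample DA (fun z => gA z * gB z * F z),
      ← resample DB (fun z => ex fun u : ι → Bool => gA (merge DA u z) * gB (merge DA u z)
        * F (merge DA u z))]
  rw [h1]
  calc |ex fun z : ι → Bool => ex fun v : ι → Bool => ex fun u : ι → Bool =>
      gA (merge DA u (merge DB v z))
      * gB (merge DA u (merge DB v z)) * F (merge DA u (merge DB v z))|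
      ≤ ex fun z : ι → Bool => |ex fun v : ι → Bool => ex fun u : ι → Bool =>
      gA (merge DA u (merge DB v z))
      * gB (merge DA u (merge DB v z)) * F (merge DA u (merge DB v z))| := abs_ex_le _
    _ ≤ ex fun z => a z ^ (1 - 1 / (s : ℝ)) * η ^ (1 / (2 * (s : ℝ))) := ex_mono hfib
    _ = (ex fun z => a z ^ (1 - 1 / (s : ℝ))) * η ^ (1 / (2 * (s : ℝ))) := ex_mul_right _ _
    _ ≤ (ex gB) ^ (1 - 1 / (s : ℝ)) * η ^ (1 / (2 * (s : ℝ))) := by
      refine mul_le_mul_of_nonneg_right ?_ (Real.rpow_nonneg hη0 _)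
      refine (ex_rpow_le ha0 hs).trans (le_of_eq ?_)
      rw [ha, resample]

end TSP
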