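import Pool.Agent.TSP.Final
import Pool.Agent.TSP.Asym

namespace TSP

open Finset Polynomial

/-- Rename the variables of a branching program. -/
def ren {ι κ σ : Type} (e : ι → κ) (P : BP ι σ) : BP κ σ where
  start := P.start
  var := fun t q => e (P.var t q)
  next := P.next
  out := P.out

theorem ren_run {ι κ σ : Type} (e : ι → κ) (P : BP ι σ) (z : κ → Bool) (v : σ) (t l : ℕ) :
    (ren e P).run z v t l = P.run (fun i => z (e i)) v t l := by
  induction l with
  | zero => rfl
  | succ l ih =>
    simp only [BP.run, ih]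
    rfl

/-- The bound for functions which only depend on the variables in the image of an injection of
the variables of the hard function. -/
theorem transfer {n l N S T : ℕ} (hn : 1 ≤ n) (i : Var n l → Fin N)
    (hi : Function.Injective i) (γ : ℝ) (hγ : 0 ≤ γ)
    (h : ∀ P : BP (Var n l) (Fin (2 ^ S)),
      |ex fun z => chi (fn n l z) * sg (P.out (P.run z P.start 0 T))| ≤ γ)
    (P : BP (Fin N) (Fin (2 ^ S))) :
    |ex fun z : Fin N → Bool => chi (fn n l (fun v => z (i v))) *
      sg (P.out (P.run z P.start 0 T))| ≤ γ := by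
  classical
  let e : Var n l ⊕ ((Set.range i)ᶜ : Set (Fin N)) ≃ Fin N :=
    (Equiv.sumCongr (Equiv.ofInjective i hi) (Equiv.refl _)).trans
      (Equiv.Set.sumCompl (Set.range i))
  have he : ∀ v, e (Sum.inl v) = i v := fun v => by simp [e]
  have e1 : (ex fun z : Fin N → Bool => chi (fn n l (fun v => z (i v))) *
      sg (P.out (P.run z P.start 0 T))) =
      ex fun τ : ((Set.range i)ᶜ : Set (Fin N)) → Bool => ex fun z : Var n l → Bool =>
        chi (fn n l z) * sg ((hw (ren e.symm P) τ (Sum.inl (0, ⟨0, hn⟩))).out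
          ((hw (ren e.symm P) τ (Sum.inl (0, ⟨0, hn⟩))).run z
            (hw (ren e.symm P) τ (Sum.inl (0, ⟨0, hn⟩))).start 0 T)) := by
    rw [← cex_prod (fun (z : Var n l → Bool) (τ : ((Set.range i)ᶜ : Set (Fin N)) → Bool) =>
      chi (fn n l z) * sg ((hw (ren e.symm P) τ (Sum.inl (0, ⟨0, hn⟩))).out
          ((hw (ren e.symm P) τ (Sum.inl (0, ⟨0, hn⟩))).run z
            (hw (ren e.symm P) τ (Sum.inl (0, ⟨0, hn⟩))).start 0 T)))]
    let E : (Fin N → Bool) ≃ (Var n l → Bool) × (((Set.range i)ᶜ : Set (Fin N)) → Bool) :=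
      (Equiv.arrowCongr e.symm (Equiv.refl Bool)).trans (Equiv.sumArrowEquivProdArrow _ _ _)
    rw [← cex_equiv E]
    congr 1
    funext z
    have hz : Sum.elim (E z).1 (E z).2 = fun v => z (e v) := by
      funext v
      cases v with
      | inl v => rfl
      | inr v => rfl
    have h1 : (E z).1 = fun v => z (i v) := by
      funext v
      have := congrFun hz (Sum.inl v)
      simp only [Sum.elim_inl] at this
      rw [this, he]
    have h2 : (fun j => z (e (e.symm j))) = z := by
      funext j
      rw [Equiv.apply_symm_apply]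
    rw [hw_run, ren_run, hz, h1]
    change _ = chi (fn n l fun v => z (i v)) *
      sg (P.out (P.run (fun j => z (e (e.symm j))) P.start 0 T))
    rw [h2]
  rw [e1]
  refine (cabs_ex_le _).trans ((cex_mono _ (fun _ => γ) fun τ => h _).trans (cex_const_le _ hγ))

/-- The positions of the variables. -/
def pos (n l N : ℕ) (hN : 3 * n + 4 * 3 ^ l ≤ N) : Var n l → Fin N
  | Sum.inl (e, a) => ⟨e * n + a, by
      have := a.2
      have : (e : ℕ) * n ≤ 2 * n := Nat.mul_le_mul_right _ (by omega)
      omega⟩
  | Sum.inr (e, j) => ⟨3 * n + e * (2 * 3 ^ l) + j, by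
      have := j.2
      have : (e : ℕ) * (2 * 3 ^ l) ≤ 1 * (2 * 3 ^ l) := Nat.mul_le_mul_right _ (by omega)
      omega⟩

theorem pos_injective (n l N : ℕ) (hN : 3 * n + 4 * 3 ^ l ≤ N) :
    Function.Injective (pos n l N hN) := by
  intro u v huv
  have key : ∀ (w a b : ℕ) (e f : ℕ), a < w → b < w → e * w + a = f * w + b → e = f ∧ a = b := by
    intro w a b e f ha hb h
    have h1 : e = f := by
      have := congrArg (· / w) h

      rw [Nat.add_comm (e * w), Nat.add_comm (f * w), Nat.add_mul_div_right _ _ (by omega),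
        Nat.add_mul_div_right _ _ (by omega), Nat.div_eq_of_lt ha, Nat.div_eq_of_lt hb] at this
      omega
    subst h1
    exact ⟨rfl, by omega⟩
  rcases u with ⟨e, a⟩ | ⟨e, a⟩ <;> rcases v with ⟨f, b⟩ | ⟨f, b⟩ <;>
    simp only [pos, Fin.mk.injEq] at huv
  · have := key n a b e f a.2 b.2 huv
    rw [Fin.ext this.1, Fin.ext this.2]
  · exfalso
    have := a.2
    have : (e : ℕ) * n ≤ 2 * n := Nat.mul_le_mul_right _ (by omega)
    omega
  · exfalso
    have := b.2
    have : (f : ℕ) * n ≤ 2 * n := Nat.mul_le_mul_right _ (by omega)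
    omega
  · have := key (2 * 3 ^ l) a b e f a.2 b.2 (by omega)
    rw [Fin.ext this.1, Fin.ext this.2]

end TSP
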