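import Mathlib

/-!
# TSP: numerical estimates (row R10a)
-/

set_option autoImplicit false

namespace TSP

open Real

/-- comparison of binomial coefficients -/
theorem h80b.choose_le {n b t : ℕ} (htb : t ≤ b) {X : ℝ} (hX : 0 ≤ X)
    (h : (n : ℝ) ≤ X * ((b : ℝ) - t)) :
    (n.choose t : ℝ) ≤ X ^ t * (b.choose t : ℝ) := by
  have hb : (t : ℝ) ≤ b := by exact_mod_cast htb
  have h1 : (n.descFactorial t : ℝ) ≤ (n : ℝ) ^ t := by exact_mod_cast Nat.descFactorial_le_pow n t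
  have h2 : ((b : ℝ) - t) ^ t ≤ (b.descFactorial t : ℝ) := by
    have h3 : (b + 1 - t) ^ t ≤ b.descFactorial t := Nat.pow_sub_le_descFactorial b t
    have h4 : (((b + 1 - t : ℕ) : ℝ)) ^ t ≤ (b.descFactorial t : ℝ) := by exact_mod_cast h3
    refine le_trans (pow_le_pow_left₀ (by linarith) ?_ t) h4
    rw [Nat.cast_sub (by omega)]
    push_cast
    linarith
  have h5 : (n.descFactorial t : ℝ) ≤ X ^ t * (b.descFactorial t : ℝ) := by
    calc (n.descFactorial t : ℝ) ≤ (n : ℝ) ^ t := h1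
      _ ≤ (X * ((b : ℝ) - t)) ^ t := pow_le_pow_left₀ (Nat.cast_nonneg n) h t
      _ = X ^ t * ((b : ℝ) - t) ^ t := mul_pow _ _ _
      _ ≤ X ^ t * (b.descFactorial t : ℝ) := mul_le_mul_of_nonneg_left h2 (pow_nonneg hX t)
  rw [Nat.descFactorial_eq_factorial_mul_choose, Nat.descFactorial_eq_factorial_mul_choose] at h5
  push_cast at h5
  have h6 : (0 : ℝ) < (t.factorial : ℝ) := by exact_mod_cast Nat.factorial_pos t
  have h7 : (t.factorial : ℝ) * (n.choose t : ℝ) ≤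
      (t.factorial : ℝ) * (X ^ t * (b.choose t : ℝ)) := by
    calc _ ≤ _ := h5
      _ = _ := by ring
  exact le_of_mul_le_mul_left h7 h6

/-- what is needed for large `k` -/
theorem h80b.asym : ∃ k₀ : ℕ, ∀ k : ℕ, k₀ ≤ k →
    2000 ≤ k ∧ 20 * Real.log k ≤ k / 1000 ∧
      ∀ m : ℕ, k ≤ m → 3 * Real.log (4 * (m : ℝ) ^ 2) ≤ m / 1000 := by
  have hm : Filter.Tendsto (fun q : ℕ => (q : ℝ)) Filter.atTop Filter.atTop :=
    tendsto_natCast_atTop_atTop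
  have hlo : ∀ ε : ℝ, 0 < ε → ∀ᶠ k : ℕ in Filter.atTop, Real.log k ≤ ε * k := by
    intro ε hε
    have h1 := Real.isLittleO_log_id_atTop.def hε
    filter_upwards [hm.eventually h1] with k hk
    rw [Real.norm_eq_abs, Real.norm_eq_abs, id, abs_of_nonneg (Nat.cast_nonneg (α := ℝ) k)] at hk
    exact (le_abs_self _).trans hk
  have e1 : ∀ᶠ k : ℕ in Filter.atTop, 2000 ≤ k := Filter.eventually_ge_atTop 2000
  have e3 : ∀ᶠ k : ℕ in Filter.atTop, 20 * Real.log k ≤ k / 1000 := by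
    filter_upwards [hlo (1 / 20000) (by norm_num)] with k hk
    linarith
  have e5 : ∀ᶠ m : ℕ in Filter.atTop, 3 * Real.log (4 * (m : ℝ) ^ 2) ≤ m / 1000 := by
    filter_upwards [hlo (1 / 20000) (by norm_num), Filter.eventually_ge_atTop 20000] with m hm' hm2
    have hm3 : (20000 : ℝ) ≤ m := by exact_mod_cast hm2
    have h4 : Real.log 4 ≤ 2 := by
      have := Real.log_le_sub_one_of_pos (show (0 : ℝ) < 4 / Real.exp 1 by positivity)
      rw [Real.log_div (by norm_num) (Real.exp_pos 1).ne', Real.log_exp] at this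
      have h5 : (2 : ℝ) ≤ Real.exp 1 := by
        have := Real.add_one_le_exp (1 : ℝ)
        linarith
      have h6 : 4 / Real.exp 1 ≤ 2 := by
        rw [div_le_iff₀ (Real.exp_pos 1)]
        linarith
      linarith
    rw [Real.log_mul (by norm_num) (by positivity), Real.log_pow]
    push_cast
    linarith
  obtain ⟨a, ha⟩ := Filter.eventually_atTop.1 (e1.and e3)
  obtain ⟨b, hb⟩ := Filter.eventually_atTop.1 e5
  refine ⟨max a b, fun k hk => ?_⟩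
  obtain ⟨h1, h3⟩ := ha k ((le_max_left _ _).trans hk)
  exact ⟨h1, h3, fun m hm => hb m (((le_max_right _ _).trans hk).trans hm)⟩

/-- the powers of `k` -/
theorem h80b.pows {k : ℕ} (hk : 2000 ≤ k) :
    (4 * k ^ 4) ^ (2 * k) * k ^ k ≤ k ^ (10 * k) ∧ 8 * (4 * k ^ 4) ^ (2 * k) ≤ k ^ (10 * k) ∧
      4 * k ^ 5 ≤ k ^ (10 * k) ∧ k ≤ k ^ (10 * k) ∧ 4000 ≤ k ^ (10 * k) := by
  have hk1 : 1 ≤ k := by omega
  have h1 : (4 * k ^ 4) ^ (2 * k) * k ^ k ≤ k ^ (10 * k) := by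
    have e1 : (4 * k ^ 4) ^ (2 * k) * k ^ k = (16 * k * k ^ 8) ^ k := by
      rw [pow_mul, ← mul_pow]
      congr 1
      ring
    have e2 : k ^ (10 * k) = (k * k * k ^ 8) ^ k := by
      rw [pow_mul]
      congr 1
      ring
    rw [e1, e2]
    apply Nat.pow_le_pow_left
    apply Nat.mul_le_mul_right
    apply Nat.mul_le_mul_right
    omega
  have h8 : 8 ≤ k ^ k := by
    calc 8 ≤ k := by omega
      _ = k ^ 1 := (pow_one k).symm
      _ ≤ k ^ k := Nat.pow_le_pow_right hk1 hk1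
  have h6 : k ^ 6 ≤ k ^ (10 * k) := Nat.pow_le_pow_right hk1 (by omega)
  have h61 : 4 * k ^ 5 ≤ k ^ 6 := by
    calc 4 * k ^ 5 ≤ k * k ^ 5 := Nat.mul_le_mul_right _ (by omega)
      _ = k ^ 6 := by ring
  have h62 : k * 2000 ≤ k ^ 6 := by
    calc k * 2000 ≤ k * k := Nat.mul_le_mul_left _ hk
      _ = k ^ 2 := by ring
      _ ≤ k ^ 6 := Nat.pow_le_pow_right hk1 (by omega)
  refine ⟨h1, ?_, h61.trans h6, by omega, by omega⟩
  calc 8 * (4 * k ^ 4) ^ (2 * k) ≤ k ^ k * (4 * k ^ 4) ^ (2 * k) := Nat.mul_le_mul_right _ h8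
    _ = (4 * k ^ 4) ^ (2 * k) * k ^ k := Nat.mul_comm _ _
    _ ≤ _ := h1

/-- the size of `m` -/
theorem h80b.msize {k n S : ℕ} (hk : 2000 ≤ k) (hS : 1 ≤ S) (hn : S * k ^ (40 * k) ≤ n) :
    (k ^ (10 * k)) ^ 3 ≤ n / k ^ (10 * k) ∧
    (n : ℝ) ≤ 2 * (k ^ (10 * k) : ℕ) * (n / k ^ (10 * k) : ℕ) ∧
    (S : ℝ) * ((k ^ (10 * k) : ℕ) : ℝ) ^ 3 ≤ 2 * ((n / k ^ (10 * k) : ℕ) : ℝ) := by
  obtain ⟨K, hK⟩ : ∃ K, K = k ^ (10 * k) := ⟨_, rfl⟩
  have hK4 : k ^ (40 * k) = K ^ 4 := by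
    rw [hK, ← pow_mul]
    congr 1
    ring
  have hKpos : 0 < K := by
    rw [hK]
    exact Nat.pow_pos (by omega)
  rw [← hK]
  rw [hK4] at hn
  have h1 : K ^ 3 ≤ n / K := by
    rw [Nat.le_div_iff_mul_le hKpos]
    calc K ^ 3 * K = 1 * K ^ 4 := by ring
      _ ≤ S * K ^ 4 := Nat.mul_le_mul_right _ hS
      _ ≤ n := hn
  have h2 : n < K * (n / K + 1) := Nat.lt_mul_div_succ n hKpos
  have h3 : 1 ≤ n / K := le_trans (Nat.one_le_iff_ne_zero.2 (by positivity)) h1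
  have h4 : n ≤ 2 * K * (n / K) := by
    calc n ≤ K * (n / K + 1) := h2.le
      _ ≤ K * (n / K + n / K) := Nat.mul_le_mul_left _ (by omega)
      _ = 2 * K * (n / K) := by ring
  have h4' : (n : ℝ) ≤ 2 * K * (n / K : ℕ) := by exact_mod_cast h4
  refine ⟨h1, h4', ?_⟩
  have hK0 : (0 : ℝ) < K := by exact_mod_cast hKpos
  have h5 : (S : ℝ) * (K : ℝ) ^ 4 ≤ n := by exact_mod_cast hn
  have h6 : ((S : ℝ) * (K : ℝ) ^ 3) * K ≤ (2 * ((n / K : ℕ) : ℝ)) * K := by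
    calc ((S : ℝ) * (K : ℝ) ^ 3) * K = (S : ℝ) * (K : ℝ) ^ 4 := by ring
      _ ≤ (n : ℝ) := h5
      _ ≤ 2 * (K : ℝ) * ((n / K : ℕ) : ℝ) := h4'
      _ = _ := by ring
  exact le_of_mul_le_mul_right h6 hK0

/-- the number of classes -/
theorem h80b.classes {K m S : ℕ} {n : ℝ} (hK : 4000 ≤ K) (hKm : K ≤ m)
    (hS : (S : ℝ) * (K : ℝ) ^ 3 ≤ 2 * m) (hn0 : 0 ≤ n) (hn : n ≤ 2 * K * m)
    (hlog : 3 * Real.log (4 * (m : ℝ) ^ 2) ≤ m / 1000) :
    ((2 : ℝ) ^ S) ^ (K ^ 2 + 1) * (n + 1) ^ 3 ≤ Real.exp (2 * (m / 1000)) := by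
  have hK' : (4000 : ℝ) ≤ K := by exact_mod_cast hK
  have hKm' : (K : ℝ) ≤ m := by exact_mod_cast hKm
  have hK0 : (0 : ℝ) < K := by linarith
  have hm0 : (0 : ℝ) < m := by linarith
  have h1 : ((2 : ℝ) ^ S) ^ (K ^ 2 + 1) ≤ Real.exp (m / 1000) := by
    have h2 : (2 : ℝ) ≤ Real.exp 1 := by
      have := Real.add_one_le_exp (1 : ℝ)
      linarith
    have h3 : (S : ℝ) * ((K : ℝ) ^ 2 + 1) ≤ m / 1000 := by
      have h4 : (S : ℝ) * ((K : ℝ) ^ 2 + 1) * K ≤ m / 1000 * K := by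
        have hS0 : (0 : ℝ) ≤ S := Nat.cast_nonneg S
        have h5 : ((K : ℝ) ^ 2 + 1) * K ≤ 2 * (K : ℝ) ^ 3 := by nlinarith
        calc (S : ℝ) * ((K : ℝ) ^ 2 + 1) * K = (S : ℝ) * (((K : ℝ) ^ 2 + 1) * K) := by ring
          _ ≤ (S : ℝ) * (2 * (K : ℝ) ^ 3) := mul_le_mul_of_nonneg_left h5 hS0
          _ = 2 * ((S : ℝ) * (K : ℝ) ^ 3) := by ring
          _ ≤ 2 * (2 * m) := by linarith
          _ ≤ m / 1000 * K := by nlinarith
      exact le_of_mul_le_mul_right h4 hK0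
    calc ((2 : ℝ) ^ S) ^ (K ^ 2 + 1) = (2 : ℝ) ^ (S * (K ^ 2 + 1)) := (pow_mul _ _ _).symm
      _ ≤ Real.exp 1 ^ (S * (K ^ 2 + 1)) := pow_le_pow_left₀ (by norm_num) h2 _
      _ = Real.exp ((S : ℝ) * ((K : ℝ) ^ 2 + 1)) := by
          rw [← Real.exp_nat_mul]
          congr 1
          push_cast
          ring
      _ ≤ Real.exp (m / 1000) := Real.exp_le_exp.2 h3
  have h2 : (n + 1) ^ 3 ≤ Real.exp (m / 1000) := by
    have h3 : n + 1 ≤ 4 * (m : ℝ) ^ 2 := by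
      have : (K : ℝ) * m ≤ m * m := mul_le_mul_of_nonneg_right hKm' hm0.le
      nlinarith
    calc (n + 1) ^ 3 = Real.exp (3 * Real.log (n + 1)) := by
          rw [mul_comm, Real.exp_mul, Real.exp_log (by linarith)]
          norm_cast
      _ ≤ Real.exp (3 * Real.log (4 * (m : ℝ) ^ 2)) := by
          apply Real.exp_le_exp.2
          have := Real.log_le_log (show (0 : ℝ) < n + 1 by linarith) h3
          linarith
      _ ≤ Real.exp (m / 1000) := Real.exp_le_exp.2 hlog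
  calc ((2 : ℝ) ^ S) ^ (K ^ 2 + 1) * (n + 1) ^ 3 ≤ Real.exp (m / 1000) * Real.exp (m / 1000) :=
        mul_le_mul h1 h2 (by positivity) (Real.exp_pos _).le
    _ = Real.exp (2 * (m / 1000)) := by
        rw [← Real.exp_add]
        congr 1
        ring

/-- the cost of the choice of the second set -/
theorem h80b.ratio1 {k K m n : ℕ} (hk : 2000 ≤ k) (hK : 4 * k ^ 5 ≤ K) (hK0 : 0 < K)
    (hm : m = n / K) (hn : 0 < n) :
    k ^ 2 * m ≤ n - n / k ^ 3 ∧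
    (n.choose (k ^ 2 * m) : ℝ) / ((n - n / k ^ 3).choose (k ^ 2 * m) : ℝ) ≤
      Real.exp (m / 1000) := by
  have hkR : (2000 : ℝ) ≤ k := by exact_mod_cast hk
  have hk0 : (0 : ℝ) < k := by linarith
  have hKR : (0 : ℝ) < K := by exact_mod_cast hK0
  have hK' : 4 * (k : ℝ) ^ 5 ≤ K := by exact_mod_cast hK
  have hnR : (0 : ℝ) < n := by exact_mod_cast hn
  have hmR : (m : ℝ) ≤ n / K := by
    rw [hm]
    exact Nat.cast_div_le
  set y : ℝ := 1 / (k : ℝ) ^ 3 with hy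
  have hy0 : 0 < y := by positivity
  have hy1 : y ≤ 1 / 10 := by
    rw [hy]
    apply one_div_le_one_div_of_le (by norm_num)
    calc (10 : ℝ) ≤ k := by linarith
      _ = (k : ℝ) ^ 1 := (pow_one _).symm
      _ ≤ (k : ℝ) ^ 3 := pow_le_pow_right₀ (by linarith) (by norm_num)
  have hb : (n : ℝ) * (1 - y) ≤ ((n - n / k ^ 3 : ℕ) : ℝ) := by
    rw [Nat.cast_sub (Nat.div_le_self _ _)]
    have h1 : ((n / k ^ 3 : ℕ) : ℝ) ≤ n / ((k ^ 3 : ℕ) : ℝ) := Nat.cast_div_le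
    push_cast at h1 ⊢
    rw [hy]
    have h2 : (n : ℝ) / (k : ℝ) ^ 3 = n * (1 / (k : ℝ) ^ 3) := by ring
    rw [h2] at h1
    linarith
  have hmB : ((k ^ 2 * m : ℕ) : ℝ) ≤ n * (y / 4) := by
    push_cast
    have h1 : (k : ℝ) ^ 2 / K ≤ y / 4 := by
      rw [hy, div_le_iff₀ hKR]
      have h2 : (k : ℝ) ^ 2 = 1 / (k : ℝ) ^ 3 / 4 * (4 * (k : ℝ) ^ 5) := by
        field_simp
      calc (k : ℝ) ^ 2 = 1 / (k : ℝ) ^ 3 / 4 * (4 * (k : ℝ) ^ 5) := h2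
        _ ≤ 1 / (k : ℝ) ^ 3 / 4 * K := mul_le_mul_of_nonneg_left hK' (by positivity)
    calc (k : ℝ) ^ 2 * m ≤ (k : ℝ) ^ 2 * (n / K) := mul_le_mul_of_nonneg_left hmR (by positivity)
      _ = n * ((k : ℝ) ^ 2 / K) := by ring
      _ ≤ n * (y / 4) := mul_le_mul_of_nonneg_left h1 hnR.le
  have hle : k ^ 2 * m ≤ n - n / k ^ 3 := by
    have h1 : ((k ^ 2 * m : ℕ) : ℝ) ≤ ((n - n / k ^ 3 : ℕ) : ℝ) := by
      refine hmB.trans (le_trans ?_ hb)
      apply mul_le_mul_of_nonneg_left _ hnR.le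
      linarith
    exact_mod_cast h1
  refine ⟨hle, ?_⟩
  have hX : (n : ℝ) ≤ (1 + 2 * y) * (((n - n / k ^ 3 : ℕ) : ℝ) - ((k ^ 2 * m : ℕ) : ℝ)) := by
    have h1 : (n : ℝ) * (1 - y - y / 4) ≤
        ((n - n / k ^ 3 : ℕ) : ℝ) - ((k ^ 2 * m : ℕ) : ℝ) := by linarith
    have h2 : 1 ≤ (1 + 2 * y) * (1 - y - y / 4) := by nlinarith
    calc (n : ℝ) = n * 1 := (mul_one _).symm
      _ ≤ n * ((1 + 2 * y) * (1 - y - y / 4)) := mul_le_mul_of_nonneg_left h2 hnR.le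
      _ = (1 + 2 * y) * ((n : ℝ) * (1 - y - y / 4)) := by ring
      _ ≤ _ := mul_le_mul_of_nonneg_left h1 (by linarith)
  have h3 := h80b.choose_le hle (by linarith : (0 : ℝ) ≤ 1 + 2 * y) hX
  have h4 : (0 : ℝ) < ((n - n / k ^ 3).choose (k ^ 2 * m) : ℝ) := by
    exact_mod_cast Nat.choose_pos hle
  rw [div_le_iff₀ h4]
  refine h3.trans (mul_le_mul_of_nonneg_right ?_ h4.le)
  calc (1 + 2 * y) ^ (k ^ 2 * m) ≤ Real.exp (2 * y) ^ (k ^ 2 * m) := by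
        apply pow_le_pow_left₀ (by linarith)
        have := Real.add_one_le_exp (2 * y)
        linarith
    _ = Real.exp (2 * m / k) := by
        rw [← Real.exp_nat_mul]
        congr 1
        push_cast
        rw [hy]
        field_simp
    _ ≤ Real.exp (m / 1000) := by
        apply Real.exp_le_exp.2
        rw [div_le_div_iff₀ hk0 (by norm_num)]
        have : (0 : ℝ) ≤ m := Nat.cast_nonneg m
        nlinarith

/-- the cost of the choice of the first sets -/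
theorem h80b.ratio2 {k K m n q : ℕ} (hk : 2000 ≤ k) (hKq : 8 * q ≤ K) (hq : 0 < q)
    (hKk : K = k ^ (10 * k)) (hm : m = n / K) (hlog : 20 * Real.log k ≤ k / 1000) :
    m ≤ ⌈(n : ℝ) / (4 * (q : ℝ))⌉₊ ∧
    (((n.choose m : ℝ) / ((⌈(n : ℝ) / (4 * (q : ℝ))⌉₊).choose m : ℝ)) ^ 2) ^
      (1 / ((k ^ 2 : ℕ) : ℝ)) ≤ Real.exp (m / 1000) := by
  have hkR : (2000 : ℝ) ≤ k := by exact_mod_cast hk
  have hk0 : (0 : ℝ) < k := by linarith
  have hK0 : 0 < K := by omega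
  have hKR : (0 : ℝ) < K := by exact_mod_cast hK0
  have hqR : (0 : ℝ) < q := by exact_mod_cast hq
  have hK' : 8 * (q : ℝ) ≤ K := by exact_mod_cast hKq
  have hmR : (m : ℝ) ≤ n / K := by
    rw [hm]
    exact Nat.cast_div_le
  have hn0 : (0 : ℝ) ≤ n := Nat.cast_nonneg n
  have hm8 : (m : ℝ) ≤ n / (8 * q) := hmR.trans (div_le_div_of_nonneg_left hn0 (by positivity) hK')
  have hceil : (n : ℝ) / (4 * q) ≤ (⌈(n : ℝ) / (4 * (q : ℝ))⌉₊ : ℝ) := Nat.le_ceil _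
  have h48 : (n : ℝ) / (4 * q) = 2 * (n / (8 * q)) := by
    field_simp
    ring
  have hr : 0 ≤ (n : ℝ) / (8 * q) := by positivity
  have hle : m ≤ ⌈(n : ℝ) / (4 * (q : ℝ))⌉₊ := by
    have h1 : (m : ℝ) ≤ (⌈(n : ℝ) / (4 * (q : ℝ))⌉₊ : ℝ) := by linarith
    exact_mod_cast h1
  refine ⟨hle, ?_⟩
  have hX : (n : ℝ) ≤ (K : ℝ) * ((⌈(n : ℝ) / (4 * (q : ℝ))⌉₊ : ℝ) - m) := by
    have h1 : (n : ℝ) / (8 * q) ≤ (⌈(n : ℝ) / (4 * (q : ℝ))⌉₊ : ℝ) - m := by linarith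
    calc (n : ℝ) = (8 * q) * (n / (8 * q)) := by field_simp
      _ ≤ K * (n / (8 * q)) := mul_le_mul_of_nonneg_right hK' hr
      _ ≤ _ := mul_le_mul_of_nonneg_left h1 hKR.le
  have h3 := h80b.choose_le hle hKR.le hX
  have h4 : (0 : ℝ) < ((⌈(n : ℝ) / (4 * (q : ℝ))⌉₊).choose m : ℝ) := by
    exact_mod_cast Nat.choose_pos hle
  have h5 : (n.choose m : ℝ) / ((⌈(n : ℝ) / (4 * (q : ℝ))⌉₊).choose m : ℝ) ≤ (K : ℝ) ^ m := by
    rw [div_le_iff₀ h4]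
    exact h3
  have h6 : (0 : ℝ) ≤ (n.choose m : ℝ) / ((⌈(n : ℝ) / (4 * (q : ℝ))⌉₊).choose m : ℝ) := by
    positivity
  have h7 : ((n.choose m : ℝ) / ((⌈(n : ℝ) / (4 * (q : ℝ))⌉₊).choose m : ℝ)) ^ 2 ≤
      Real.exp (20 * k * Real.log k * m) := by
    refine (pow_le_pow_left₀ h6 h5 2).trans (le_of_eq ?_)
    have h8 : (K : ℝ) = Real.exp (10 * k * Real.log k) := by
      rw [hKk]
      push_cast
      rw [mul_comm (10 * (k : ℝ)), Real.exp_mul, Real.exp_log hk0]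
      norm_cast
    rw [h8, ← Real.exp_nat_mul, ← Real.exp_nat_mul]
    congr 1
    push_cast
    ring
  have h9 : (0 : ℝ) ≤ ((n.choose m : ℝ) / ((⌈(n : ℝ) / (4 * (q : ℝ))⌉₊).choose m : ℝ)) ^ 2 :=
    sq_nonneg _
  refine (Real.rpow_le_rpow h9 h7 (by positivity)).trans ?_
  rw [← Real.exp_mul]
  apply Real.exp_le_exp.2
  push_cast
  have hm0 : (0 : ℝ) ≤ m := Nat.cast_nonneg m
  calc 20 * k * Real.log k * m * (1 / (k : ℝ) ^ 2) = (20 * Real.log k) * (m / k) := by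
        field_simp
    _ ≤ (k / 1000) * (m / k) := mul_le_mul_of_nonneg_right hlog (by positivity)
    _ = m / 1000 := by
        field_simp

/-- Row R10a: the numerical estimate for the core bound. Parameters: `s = k ^ 2`,
`r = k ^ (20 * k)`, `Q = 4 * k ^ 4`, `m = n / k ^ (10 * k)`, `mB = k ^ 2 * m`,
`amin = ⌈n / (4 * Q ^ (2 * k))⌉`, `bmin = n - n / k ^ 3`, `η = 2 ^ (- mB / 20)`. -/
theorem numbers_core2 : ∃ k₀ : ℕ, ∀ k n S : ℕ, k₀ ≤ k → 1 ≤ S →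
    S * k ^ (40 * k) ≤ n →
    (n / k ^ (10 * k) ≤ ⌈(n : ℝ) / (4 * (((4 * k ^ 4 : ℕ) : ℝ)) ^ (2 * k))⌉₊) ∧
    (k ^ 2 * (n / k ^ (10 * k)) ≤ n - n / k ^ 3) ∧
    50 * (k : ℝ) ^ 2 * (((4 * k ^ 4 : ℕ) : ℝ)) ^ (4 * k) / ((k ^ (20 * k) : ℕ) : ℝ) +
      ((2 : ℝ) ^ S) ^ (k ^ (20 * k) + 1) * ((n : ℝ) + 1) ^ 3 *
        ((n.choose (k ^ 2 * (n / k ^ (10 * k))) : ℝ) /
            ((n - n / k ^ 3).choose (k ^ 2 * (n / k ^ (10 * k))) : ℝ) *
          (((n.choose (n / k ^ (10 * k)) : ℝ) /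
            ((⌈(n : ℝ) / (4 * (((4 * k ^ 4 : ℕ) : ℝ)) ^ (2 * k))⌉₊).choose
              (n / k ^ (10 * k)) : ℝ)) ^ 2) ^ (1 / ((k ^ 2 : ℕ) : ℝ)) *
          ((2 : ℝ) ^ (-((k ^ 2 * (n / k ^ (10 * k)) : ℕ) : ℝ) / 20)) ^
            (1 / (2 * ((k ^ 2 : ℕ) : ℝ)))) ≤ 1 / (2 * (k : ℝ) ^ k) := by
  obtain ⟨k₀, hk₀⟩ := h80b.asym
  refine ⟨k₀, fun k n S hk hS hn => ?_⟩
  obtain ⟨a1, a3, a5⟩ := hk₀ k hk
  obtain ⟨b1, b2, b3, b4, b5⟩ := h80b.pows a1
  obtain ⟨c1, c2, c3⟩ := h80b.msize a1 hS hn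
  have hK20 : k ^ (20 * k) = (k ^ (10 * k)) ^ 2 := by
    rw [← pow_mul]
    congr 1
    ring
  rw [hK20]
  obtain ⟨K, hK⟩ : ∃ K, K = k ^ (10 * k) := ⟨_, rfl⟩
  rw [← hK] at b1 b2 b3 b4 b5 c1 c2 c3 ⊢
  obtain ⟨m, hm⟩ : ∃ m, m = n / K := ⟨_, rfl⟩
  rw [← hm] at c1 c2 c3 ⊢
  obtain ⟨q, hq⟩ : ∃ q, q = (4 * k ^ 4) ^ (2 * k) := ⟨_, rfl⟩
  have hqR : (((4 * k ^ 4 : ℕ) : ℝ)) ^ (2 * k) = (q : ℝ) := by
    rw [hq]
    push_cast
    ring
  have hqR2 : (((4 * k ^ 4 : ℕ) : ℝ)) ^ (4 * k) = (q : ℝ) ^ 2 := by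
    rw [← hqR, ← pow_mul]
    congr 1
    ring
  rw [hqR, hqR2]
  rw [← hq] at b1 b2
  have hkR : (2000 : ℝ) ≤ k := by exact_mod_cast a1
  have hk0 : (0 : ℝ) < k := by linarith
  have hKpos : 0 < K := by omega
  have hKR : (0 : ℝ) < K := by exact_mod_cast hKpos
  have hqpos : 0 < q := by
    rw [hq]
    positivity
  have hKm : K ≤ m := by
    calc K = K ^ 1 := (pow_one K).symm
      _ ≤ K ^ 3 := Nat.pow_le_pow_right hKpos (by norm_num)
      _ ≤ m := c1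
  have hmpos : 0 < m := by omega
  have hnpos : 0 < n := by
    by_contra hcon
    have : n = 0 := by omega
    rw [this, Nat.zero_div] at hm
    omega
  obtain ⟨d1, d2⟩ := h80b.ratio1 a1 b3 hKpos hm hnpos
  obtain ⟨e1, e2⟩ := h80b.ratio2 a1 b2 hqpos hK hm a3
  refine ⟨e1, d1, ?_⟩
  have hmR : (0 : ℝ) < m := by exact_mod_cast hmpos
  -- first term
  have hkk0 : (0 : ℝ) < (k : ℝ) ^ k := by positivity
  have t1 : 50 * (k : ℝ) ^ 2 * (q : ℝ) ^ 2 / ((K ^ 2 : ℕ) : ℝ) ≤ 1 / (4 * (k : ℝ) ^ k) := by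
    have h1 : (q : ℝ) * (k : ℝ) ^ k ≤ K := by exact_mod_cast b1
    have hq0 : (0 : ℝ) < q := by exact_mod_cast hqpos
    push_cast
    rw [div_le_div_iff₀ (by positivity) (by positivity), one_mul]
    have h3 : ((q : ℝ) * (k : ℝ) ^ k) ^ 2 ≤ (K : ℝ) ^ 2 := pow_le_pow_left₀ (by positivity) h1 2
    refine le_trans ?_ h3
    have h4 : 200 * (k : ℝ) ^ 2 ≤ (k : ℝ) ^ k := by
      calc 200 * (k : ℝ) ^ 2 ≤ k * (k : ℝ) ^ 2 :=
            mul_le_mul_of_nonneg_right (by linarith) (by positivity)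
        _ = (k : ℝ) ^ 3 := by ring
        _ ≤ (k : ℝ) ^ k := pow_le_pow_right₀ (by linarith) (by omega)
    calc 50 * (k : ℝ) ^ 2 * (q : ℝ) ^ 2 * (4 * (k : ℝ) ^ k)
        = (q : ℝ) ^ 2 * (200 * (k : ℝ) ^ 2) * (k : ℝ) ^ k := by ring
      _ ≤ (q : ℝ) ^ 2 * ((k : ℝ) ^ k) * (k : ℝ) ^ k := by gcongr
      _ = _ := by ring
  -- second term
  have t2 : ((2 : ℝ) ^ S) ^ (K ^ 2 + 1) * ((n : ℝ) + 1) ^ 3 *
        ((n.choose (k ^ 2 * m) : ℝ) / ((n - n / k ^ 3).choose (k ^ 2 * m) : ℝ) *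
          (((n.choose m : ℝ) / ((⌈(n : ℝ) / (4 * (q : ℝ))⌉₊).choose m : ℝ)) ^ 2) ^
            (1 / ((k ^ 2 : ℕ) : ℝ)) *
          ((2 : ℝ) ^ (-((k ^ 2 * m : ℕ) : ℝ) / 20)) ^ (1 / (2 * ((k ^ 2 : ℕ) : ℝ)))) ≤
          1 / (4 * (k : ℝ) ^ k) := by
    have f1 := h80b.classes b5 hKm c3 (Nat.cast_nonneg n) c2 (a5 m (b4.trans hKm))
    have f2 : ((2 : ℝ) ^ (-((k ^ 2 * m : ℕ) : ℝ) / 20)) ^ (1 / (2 * ((k ^ 2 : ℕ) : ℝ))) ≤
        Real.exp (-((m : ℝ) / 60)) := by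
      rw [← Real.rpow_mul (by norm_num)]
      have h1 : -((k ^ 2 * m : ℕ) : ℝ) / 20 * (1 / (2 * ((k ^ 2 : ℕ) : ℝ))) = -((m : ℝ) / 40) := by
        push_cast
        field_simp
        ring
      rw [h1, Real.rpow_def_of_pos (by norm_num)]
      apply Real.exp_le_exp.2
      have := Real.log_two_gt_d9
      nlinarith
    have g1 : (0 : ℝ) ≤ (n.choose (k ^ 2 * m) : ℝ) / ((n - n / k ^ 3).choose (k ^ 2 * m) : ℝ) := by
      positivity
    calc _ ≤ Real.exp (2 * (m / 1000)) * (Real.exp (m / 1000) * Real.exp (m / 1000) *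
          Real.exp (-((m : ℝ) / 60))) := by
          apply mul_le_mul f1 _ (by positivity) (Real.exp_pos _).le
          apply mul_le_mul _ f2 (by positivity) (by positivity)
          exact mul_le_mul d2 e2 (by positivity) (Real.exp_pos _).le
      _ = Real.exp (2 * (m / 1000) + (m / 1000 + m / 1000 + -((m : ℝ) / 60))) := by
          rw [Real.exp_add, Real.exp_add, Real.exp_add]
      _ ≤ Real.exp (-(k : ℝ) * k - 2) := by
          apply Real.exp_le_exp.2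
          have h6 : K ^ 3 ≤ m := c1
          have h7 : 100 * (k * k + 2) ≤ K ^ 3 := by
            have h8 : k * k + 2 ≤ K * K := by
              have := Nat.mul_le_mul b4 b4
              have h9 : k < K := by
                have : 4 * k ^ 5 ≤ K := b3
                have h10 : k = k ^ 1 := (pow_one k).symm
                have h11 : k ^ 1 ≤ k ^ 5 := Nat.pow_le_pow_right (by omega) (by norm_num)
                omega
              nlinarith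
            calc 100 * (k * k + 2) ≤ K * (K * K) := Nat.mul_le_mul (by omega) h8
              _ = K ^ 3 := by ring
          have h12 : ((100 * (k * k + 2) : ℕ) : ℝ) ≤ m := by exact_mod_cast h7.trans h6
          push_cast at h12
          linarith
      _ ≤ 1 / (4 * (k : ℝ) ^ k) := by
          rw [le_div_iff₀ (by positivity)]
          have h13 : (k : ℝ) ^ k ≤ Real.exp (k * k) := by
            have h14 : (k : ℝ) ≤ Real.exp k := by
              have := Real.add_one_le_exp (k : ℝ)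
              linarith
            calc (k : ℝ) ^ k ≤ (Real.exp k) ^ k := pow_le_pow_left₀ hk0.le h14 k
              _ = Real.exp (k * k) := by rw [← Real.exp_nat_mul]
          have h15 : (4 : ℝ) ≤ Real.exp 2 := by
            have h16 : (2 : ℝ) ≤ Real.exp 1 := by
              have := Real.add_one_le_exp (1 : ℝ)
              linarith
            have h17 : Real.exp 2 = Real.exp 1 * Real.exp 1 := by
              rw [← Real.exp_add]; norm_num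
            rw [h17]; nlinarith
          calc Real.exp (-(k : ℝ) * k - 2) * (4 * (k : ℝ) ^ k)
              ≤ Real.exp (-(k : ℝ) * k - 2) * (Real.exp 2 * Real.exp (k * k)) := by
                gcongr
            _ = 1 := by
                rw [← Real.exp_add, ← Real.exp_add]
                ring_nf
                exact Real.exp_zero
  have t3 : 1 / (2 * (k : ℝ) ^ k) = 1 / (4 * (k : ℝ) ^ k) + 1 / (4 * (k : ℝ) ^ k) := by
    field_simp
    ring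
  rw [t3]
  exact add_le_add t1 t2

end TSP
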