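import Mathlib

namespace TSP

open Real Filter Topology

/-- limit of the error terms -/
theorem seeds_lim2 : ∃ n₀ : ℕ, ∀ n : ℕ, n₀ ≤ n →
    (n : ℝ) * ((2 : ℝ) ^ (-(n : ℝ) / 2) + (n : ℝ) ^ 3 * (2 : ℝ) ^ (-(n : ℝ) / 2)) ≤ 1 / 2 := by
  have hr0 : (0:ℝ) ≤ (2:ℝ) ^ (-(1:ℝ) / 2) := by positivity
  have hr1 : (2:ℝ) ^ (-(1:ℝ) / 2) < 1 := by
    apply Real.rpow_lt_one_of_one_lt_of_neg <;> norm_num
  have habs : |(2:ℝ) ^ (-(1:ℝ) / 2)| < 1 := by rwa [abs_of_nonneg hr0]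
  have h1 := tendsto_pow_const_mul_const_pow_of_abs_lt_one 4 habs
  have h2 := tendsto_pow_const_mul_const_pow_of_abs_lt_one 1 habs
  have h3 := h2.add h1
  rw [add_zero] at h3
  have h4 := h3.eventually (gt_mem_nhds (by norm_num : (0:ℝ) < 1 / 2))
  obtain ⟨n₀, hn₀⟩ := eventually_atTop.1 h4
  refine ⟨n₀, fun n hn => ?_⟩
  have h5 := hn₀ n hn
  have e : (2 : ℝ) ^ (-(n : ℝ) / 2) = ((2:ℝ) ^ (-(1:ℝ) / 2)) ^ n := by
    rw [← Real.rpow_natCast, ← Real.rpow_mul (by norm_num)]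
    congr 1
    ring
  rw [e]
  refine le_trans (le_of_eq ?_) h5.le
  ring

/-- Row R10b: the numerical estimate for the seeds, with `h = 5 * n / mB + 1`. -/
theorem numbers_seeds2 : ∃ k₀ : ℕ, ∀ k n w : ℕ, k₀ ≤ k →
    k ^ (40 * k) ≤ n → 4 * n ≤ w → ∃ h : ℕ,
    (2 : ℝ) ^ (3 * n) * (((1 / 2 ^ (k ^ 2 * (n / k ^ (10 * k))) +
      2 ^ h * (2 ^ (k ^ 2 * k ^ 2 + k ^ 2) / 2 ^ (k ^ 2 * (n / k ^ (10 * k))))) ^ h +
        (n : ℝ) ^ 3 / 2 ^ w) /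
      ((2 : ℝ) ^ (-((k ^ 2 * (n / k ^ (10 * k)) : ℕ) : ℝ) / 20)) ^ h) ≤ 1 / (2 * (k : ℝ) ^ k) := by
  obtain ⟨n₀, hn₀⟩ := seeds_lim2
  refine ⟨max 2 n₀, fun k n w hk hn hw => ?_⟩
  have hk2 : 2 ≤ k := (le_max_left _ _).trans hk
  have hkn0 : n₀ ≤ k := (le_max_right _ _).trans hk
  set B : ℕ := k ^ (10 * k) with hB
  have hB4 : B ^ 4 ≤ n := by
    rw [hB, ← pow_mul]
    refine le_trans (le_of_eq ?_) hn
    congr 1; ring
  have hkB : k ^ 20 ≤ B := Nat.pow_le_pow_right (by omega) (by omega)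
  have h20 : 2 ^ 20 ≤ k ^ 20 := Nat.pow_le_pow_left hk2 20
  have hBbig : 2 ^ 20 ≤ B := h20.trans hkB
  have hBpos : 0 < B := by omega
  have hk4B : 2 * k ^ 4 ≤ B := by
    refine le_trans ?_ hkB
    calc 2 * k ^ 4 ≤ k * k ^ 4 := Nat.mul_le_mul_right _ hk2
      _ = k ^ 5 := by ring
      _ ≤ k ^ 20 := Nat.pow_le_pow_right (by omega) (by norm_num)
  have hk2B : k ^ 2 ≤ B := by
    refine le_trans ?_ hkB
    exact Nat.pow_le_pow_right (by omega) (by norm_num)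
  have hkk : k ≤ n := by
    have h1 : k ≤ B := by
      refine le_trans ?_ hkB
      calc k = k ^ 1 := (pow_one k).symm
        _ ≤ k ^ 20 := Nat.pow_le_pow_right (by omega) (by norm_num)
    have h2 : B ≤ B ^ 4 := by
      calc B = B ^ 1 := (pow_one B).symm
        _ ≤ B ^ 4 := Nat.pow_le_pow_right hBpos (by norm_num)
    omega
  set m : ℕ := n / B with hm
  have hmB : m * B ≤ n := Nat.div_mul_le_self n B
  have hmB2 : n < (m + 1) * B := Nat.lt_mul_of_div_lt (by omega) hBpos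
  have hm3 : B ^ 3 ≤ m := by
    rw [hm, Nat.le_div_iff_mul_le hBpos]
    refine le_trans (le_of_eq ?_) hB4
    ring
  set M : ℕ := k ^ 2 * m with hM
  have hmM : m ≤ M := by
    rw [hM]; exact Nat.le_mul_of_pos_left _ (by positivity)
  have hm1 : 1 ≤ m := le_trans (Nat.one_le_pow _ _ hBpos) hm3
  have hM1 : 1 ≤ M := hm1.trans hmM
  have hMn : M ≤ n := by
    rw [hM]
    calc k ^ 2 * m ≤ B * m := Nat.mul_le_mul_right _ hk2B
      _ = m * B := Nat.mul_comm _ _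
      _ ≤ n := hmB
  set h : ℕ := 5 * n / M + 1 with hh
  have hh1 : 5 * n < h * M := by
    rw [hh]
    exact Nat.lt_mul_of_div_lt (by omega) hM1
  have hh2 : h * M ≤ 6 * n := by
    rw [hh, add_mul, one_mul]
    have := Nat.div_mul_le_self (5 * n) M
    omega
  have hh3 : h ≤ 10 * B + 1 := by
    rw [hh]
    have h1 : 5 * n ≤ (10 * B) * M := by
      have h2 : n ≤ 2 * (m * B) := by nlinarith
      have h3 : m * B ≤ M * B := Nat.mul_le_mul_right _ hmM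
      nlinarith
    have := Nat.div_le_of_le_mul (m := 5 * n) (n := 10 * B) (k := M) (by nlinarith)
    omega
  set q : ℕ := 1 + h + (k ^ 2 * k ^ 2 + k ^ 2) with hq
  have hqM : 10 * q ≤ M := by
    have h1 : k ^ 2 * k ^ 2 + k ^ 2 ≤ B := by
      refine le_trans ?_ hk4B
      have : k ^ 2 ≤ k ^ 4 := Nat.pow_le_pow_right (by omega) (by norm_num)
      have e : k ^ 2 * k ^ 2 = k ^ 4 := by ring
      rw [e]; omega
    have h2 : q ≤ 13 * B := by rw [hq]; omega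
    have h3 : 130 * B ≤ B ^ 3 := by
      have : 130 ≤ B ^ 2 := by nlinarith
      calc 130 * B ≤ B ^ 2 * B := Nat.mul_le_mul_right _ this
        _ = B ^ 3 := by ring
    omega
  refine ⟨h, ?_⟩
  -- real estimates
  have hb0 : (0:ℝ) ≤ 1 / 2 ^ M + 2 ^ h * (2 ^ (k ^ 2 * k ^ 2 + k ^ 2) / 2 ^ M) := by positivity
  have hbase : (1:ℝ) / 2 ^ M + 2 ^ h * (2 ^ (k ^ 2 * k ^ 2 + k ^ 2) / 2 ^ M)
      ≤ (2:ℝ) ^ ((q : ℝ) - M) := by
    have e1 : (2:ℝ) ^ ((q : ℝ) - M) = 2 ^ q / 2 ^ M := by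
      rw [Real.rpow_sub (by norm_num), Real.rpow_natCast, Real.rpow_natCast]
    have e2 : (1:ℝ) / 2 ^ M + 2 ^ h * (2 ^ (k ^ 2 * k ^ 2 + k ^ 2) / 2 ^ M)
        = (1 + 2 ^ (h + (k ^ 2 * k ^ 2 + k ^ 2))) / 2 ^ M := by
      rw [pow_add (2:ℝ) h]; ring
    rw [e1, e2]
    gcongr
    have h1 : (1:ℝ) ≤ 2 ^ (h + (k ^ 2 * k ^ 2 + k ^ 2)) := one_le_pow₀ (by norm_num)
    have e3 : (2:ℝ) ^ q = 2 * 2 ^ (h + (k ^ 2 * k ^ 2 + k ^ 2)) := by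
      rw [hq, add_assoc, pow_add, pow_one]
    rw [e3]; linarith
  have hpow : ((1:ℝ) / 2 ^ M + 2 ^ h * (2 ^ (k ^ 2 * k ^ 2 + k ^ 2) / 2 ^ M)) ^ h
      ≤ (2:ℝ) ^ (((q : ℝ) - M) * h) := by
    refine (pow_le_pow_left₀ hb0 hbase h).trans (le_of_eq ?_)
    rw [← Real.rpow_natCast, ← Real.rpow_mul (by norm_num)]
  have hden : ((2 : ℝ) ^ (-(M : ℝ) / 20)) ^ h = (2:ℝ) ^ (-(M:ℝ) * h / 20) := by
    rw [← Real.rpow_natCast, ← Real.rpow_mul (by norm_num)]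
    congr 1; ring
  have hw2 : (n : ℝ) ^ 3 / 2 ^ w ≤ (n : ℝ) ^ 3 * (2:ℝ) ^ (-(4 * n : ℝ)) := by
    rw [div_eq_mul_inv]
    gcongr
    rw [Real.rpow_neg (by norm_num)]
    gcongr
    rw [← Real.rpow_natCast]
    apply Real.rpow_le_rpow_of_exponent_le (by norm_num)
    exact_mod_cast hw
  rw [hden]
  have e3n : (2:ℝ) ^ (3 * n) = (2:ℝ) ^ ((3 * n : ℝ)) := by
    rw [← Real.rpow_natCast]; push_cast; rfl
  have hinv : ∀ X : ℝ, X / (2:ℝ) ^ (-(M:ℝ) * h / 20) = X * (2:ℝ) ^ ((M:ℝ) * h / 20) := by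
    intro X
    rw [div_eq_mul_inv, ← Real.rpow_neg (by norm_num)]
    congr 2; ring
  rw [hinv, e3n]
  have hhMr : (5:ℝ) * n ≤ h * M := by exact_mod_cast hh1.le
  have hhMr2 : (h:ℝ) * M ≤ 6 * n := by exact_mod_cast hh2
  have hqr : (10:ℝ) * q ≤ M := by exact_mod_cast hqM
  have hh0 : (0:ℝ) ≤ h := Nat.cast_nonneg _
  have hn0 : (0:ℝ) ≤ n := Nat.cast_nonneg _
  calc (2:ℝ) ^ ((3 * n : ℝ)) * (((1 / 2 ^ M + 2 ^ h * (2 ^ (k ^ 2 * k ^ 2 + k ^ 2) / 2 ^ M)) ^ h +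
        (n : ℝ) ^ 3 / 2 ^ w) * (2:ℝ) ^ ((M:ℝ) * h / 20))
      ≤ (2:ℝ) ^ ((3 * n : ℝ)) * (((2:ℝ) ^ (((q : ℝ) - M) * h) +
        (n : ℝ) ^ 3 * (2:ℝ) ^ (-(4 * n : ℝ))) * (2:ℝ) ^ ((M:ℝ) * h / 20)) := by
        gcongr
    _ = (2:ℝ) ^ (3 * n + ((q : ℝ) - M) * h + (M:ℝ) * h / 20) +
        (n : ℝ) ^ 3 * (2:ℝ) ^ (3 * n + -(4 * n : ℝ) + (M:ℝ) * h / 20) := by
        rw [Real.rpow_add (by norm_num), Real.rpow_add (by norm_num),
          Real.rpow_add (by norm_num), Real.rpow_add (by norm_num)]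
        ring
    _ ≤ (2 : ℝ) ^ (-(n : ℝ) / 2) + (n : ℝ) ^ 3 * (2 : ℝ) ^ (-(n : ℝ) / 2) := by
        gcongr
        · norm_num
        · nlinarith
        · norm_num
        · nlinarith
    _ ≤ 1 / (2 * (k : ℝ) ^ k) := by
        have h1 := hn₀ n (hkn0.trans hkk)
        have h2 : (k : ℝ) ^ k ≤ n := by
          have h3 : k ^ k ≤ n := (Nat.pow_le_pow_right (by omega) (by omega)).trans hn
          exact_mod_cast h3
        have hk0 : (0 : ℝ) < k := by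
          have : 0 < k := by omega
          exact_mod_cast this
        have h4 : (0 : ℝ) < (k : ℝ) ^ k := pow_pos hk0 _
        rw [le_div_iff₀ (by positivity)]
        have h5 : 0 ≤ (2 : ℝ) ^ (-(n : ℝ) / 2) + (n : ℝ) ^ 3 * (2 : ℝ) ^ (-(n : ℝ) / 2) := by
          positivity
        calc ((2 : ℝ) ^ (-(n : ℝ) / 2) + (n : ℝ) ^ 3 * (2 : ℝ) ^ (-(n : ℝ) / 2)) *
              (2 * (k : ℝ) ^ k)
            ≤ ((2 : ℝ) ^ (-(n : ℝ) / 2) + (n : ℝ) ^ 3 * (2 : ℝ) ^ (-(n : ℝ) / 2)) *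
              (2 * n) := by gcongr
          _ = 2 * ((n : ℝ) * ((2 : ℝ) ^ (-(n : ℝ) / 2) +
              (n : ℝ) ^ 3 * (2 : ℝ) ^ (-(n : ℝ) / 2))) := by ring
          _ ≤ 1 := by linarith

end TSP
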