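import Pool.Agent.TSP.Defs

/-!
# TSP, row R3: the set of segments chosen by a random colouring
-/

set_option autoImplicit false

namespace TSP

open Finset

namespace h70

/-- sums of products over all colourings -/
theorem sum_prod {r Q : ℕ} (g : Fin r → Fin Q → ℝ) :
    ∑ χ : Fin r → Fin Q, ∏ i, g i (χ i) = ∏ i, ∑ c, g i c := by
  rw [Finset.prod_univ_sum]
  simp only [Fintype.piFinset_univ]

/-- the indicator that all the segments of `S` have the colour `c₀` -/
noncomputable def ind {r Q : ℕ} (c₀ : Fin Q) (S : Finset (Fin r)) (χ : Fin r → Fin Q) : ℝ :=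
  if ∀ i ∈ S, χ i = c₀ then 1 else 0

theorem ind_eq {r Q : ℕ} (c₀ : Fin Q) (S : Finset (Fin r)) (χ : Fin r → Fin Q) :
    ind c₀ S χ = ∏ i, (if i ∈ S then (if χ i = c₀ then (1 : ℝ) else 0) else 1) := by
  unfold ind
  split_ifs with h
  · symm
    refine Finset.prod_eq_one fun i _ => ?_
    split_ifs with h1 h2
    · rfl
    · exact absurd (h i h1) h2
    · rfl
  · push Not at h
    obtain ⟨i, hi, hi'⟩ := h
    symm
    refine Finset.prod_eq_zero (Finset.mem_univ i) ?_
    rw [if_pos hi, if_neg hi']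

theorem ind_nonneg {r Q : ℕ} (c₀ : Fin Q) (S : Finset (Fin r)) (χ : Fin r → Fin Q) :
    0 ≤ ind c₀ S χ := by
  unfold ind
  split_ifs <;> norm_num

theorem ind_mul {r Q : ℕ} (c₀ : Fin Q) (S S' : Finset (Fin r)) (χ : Fin r → Fin Q) :
    ind c₀ S χ * ind c₀ S' χ = ind c₀ (S ∪ S') χ := by
  unfold ind
  by_cases h : ∀ i ∈ S, χ i = c₀
  · by_cases h' : ∀ i ∈ S', χ i = c₀
    · rw [if_pos h, if_pos h', if_pos, one_mul]
      intro i hi
      rcases Finset.mem_union.1 hi with hi | hi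
      · exact h i hi
      · exact h' i hi
    · rw [if_neg h', mul_zero, if_neg]
      intro hcon
      exact h' fun i hi => hcon i (Finset.mem_union_right _ hi)
  · rw [if_neg h, zero_mul, if_neg]
    intro hcon
    exact h fun i hi => hcon i (Finset.mem_union_left _ hi)

theorem sum_ind {r Q : ℕ} (hQ : 1 ≤ Q) (c₀ : Fin Q) (S : Finset (Fin r)) :
    ∑ χ : Fin r → Fin Q, ind c₀ S χ = (Q : ℝ) ^ r * (1 / (Q : ℝ)) ^ S.card := by
  have hQ' : (Q : ℝ) ≠ 0 := by
    have : (1 : ℝ) ≤ Q := by exact_mod_cast hQ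
    positivity
  simp only [ind_eq]
  rw [sum_prod (fun i c => if i ∈ S then (if c = c₀ then (1 : ℝ) else 0) else 1)]
  have h1 : ∀ i : Fin r, ∑ c : Fin Q, (if i ∈ S then (if c = c₀ then (1 : ℝ) else 0) else 1)
      = (Q : ℝ) * (if i ∈ S then 1 / (Q : ℝ) else 1) := by
    intro i
    split_ifs with hi
    · rw [Finset.sum_ite_eq' Finset.univ c₀ (fun _ => (1 : ℝ)), if_pos (Finset.mem_univ _)]
      field_simp
    · simp
  rw [Finset.prod_congr rfl (fun i _ => h1 i), Finset.prod_mul_distrib, Finset.prod_const,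
    Finset.card_univ, Fintype.card_fin, Finset.prod_ite_mem, Finset.univ_inter,
    Finset.prod_const]

/-- the second moment -/
theorem second_moment {n r Q : ℕ} (hQ : 1 ≤ Q) (c₀ : Fin Q) (S : Fin n → Finset (Fin r))
    (J : Finset (Fin n)) :
    ∑ χ : Fin r → Fin Q,
      (∑ j ∈ J, ind c₀ (S j) χ - ∑ j ∈ J, (1 / (Q : ℝ)) ^ (S j).card) ^ 2
      ≤ (Q : ℝ) ^ r * ∑ i : Fin r, ((J.filter fun j => i ∈ S j).card : ℝ) ^ 2 := by
  have hQ1 : (1 : ℝ) ≤ Q := by exact_mod_cast hQ
  set q : ℝ := 1 / (Q : ℝ) with hq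
  have hq0 : 0 < q := by positivity
  have hq1 : q ≤ 1 := by
    rw [hq, div_le_one (by linarith)]
    exact hQ1
  have hcardχ : ∑ _χ : Fin r → Fin Q, (1 : ℝ) = (Q : ℝ) ^ r := by simp
  have h1 : ∀ χ : Fin r → Fin Q,
      (∑ j ∈ J, ind c₀ (S j) χ - ∑ j ∈ J, q ^ (S j).card) ^ 2
      = ∑ j ∈ J, ∑ j' ∈ J, (ind c₀ (S j ∪ S j') χ - q ^ (S j').card * ind c₀ (S j) χ
        - q ^ (S j).card * ind c₀ (S j') χ + q ^ (S j).card * q ^ (S j').card) := by
    intro χ
    rw [← Finset.sum_sub_distrib, sq, Finset.sum_mul_sum]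
    refine Finset.sum_congr rfl fun j _ => Finset.sum_congr rfl fun j' _ => ?_
    rw [← ind_mul]
    ring
  have h2 : ∀ j j', ∑ χ : Fin r → Fin Q, (ind c₀ (S j ∪ S j') χ
      - q ^ (S j').card * ind c₀ (S j) χ
      - q ^ (S j).card * ind c₀ (S j') χ + q ^ (S j).card * q ^ (S j').card)
      ≤ (Q : ℝ) ^ r * ((S j ∩ S j').card : ℝ) := by
    intro j j'
    rw [Finset.sum_add_distrib, Finset.sum_sub_distrib, Finset.sum_sub_distrib,
      ← Finset.mul_sum, ← Finset.mul_sum, sum_ind hQ, sum_ind hQ, sum_ind hQ, ← hq]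
    have h3 : ∑ _χ : Fin r → Fin Q, q ^ (S j).card * q ^ (S j').card
        = (Q : ℝ) ^ r * (q ^ (S j).card * q ^ (S j').card) := by
      rw [← hcardχ, Finset.sum_mul]
      simp
    rw [h3]
    have h4 : (S j ∪ S j').card + (S j ∩ S j').card = (S j).card + (S j').card :=
      Finset.card_union_add_card_inter _ _
    have hQr : 0 < (Q : ℝ) ^ r := by positivity
    rcases Nat.eq_zero_or_pos (S j ∩ S j').card with h5 | h5
    · rw [h5, Nat.add_zero] at h4
      rw [h5, h4, pow_add]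
      apply le_of_eq
      push_cast
      ring
    · have h6 : q ^ (S j ∪ S j').card ≤ 1 := pow_le_one₀ hq0.le hq1
      have h7 : (1 : ℝ) ≤ ((S j ∩ S j').card : ℝ) := by exact_mod_cast h5
      have h8 : 0 ≤ (Q : ℝ) ^ r * (q ^ (S j).card * q ^ (S j').card) := by positivity
      have h9 : (Q : ℝ) ^ r * q ^ (S j ∪ S j').card ≤ (Q : ℝ) ^ r * ((S j ∩ S j').card : ℝ) :=
        mul_le_mul_of_nonneg_left (h6.trans h7) hQr.le
      nlinarith
  calc ∑ χ : Fin r → Fin Q,
      (∑ j ∈ J, ind c₀ (S j) χ - ∑ j ∈ J, q ^ (S j).card) ^ 2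
      = ∑ j ∈ J, ∑ j' ∈ J, ∑ χ : Fin r → Fin Q, (ind c₀ (S j ∪ S j') χ
        - q ^ (S j').card * ind c₀ (S j) χ
        - q ^ (S j).card * ind c₀ (S j') χ + q ^ (S j).card * q ^ (S j').card) := by
        rw [Finset.sum_congr rfl (fun χ _ => h1 χ), Finset.sum_comm]
        refine Finset.sum_congr rfl fun j _ => ?_
        rw [Finset.sum_comm]
    _ ≤ ∑ j ∈ J, ∑ j' ∈ J, (Q : ℝ) ^ r * ((S j ∩ S j').card : ℝ) :=
        Finset.sum_le_sum fun j _ => Finset.sum_le_sum fun j' _ => h2 j j'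
    _ = (Q : ℝ) ^ r * ∑ i : Fin r, ((J.filter fun j => i ∈ S j).card : ℝ) ^ 2 := by
        simp only [← Finset.mul_sum]
        congr 1
        have h3 : ∀ j j', ((S j ∩ S j').card : ℝ)
            = ∑ i : Fin r, (if i ∈ S j then (1 : ℝ) else 0) * (if i ∈ S j' then 1 else 0) := by
          intro j j'
          rw [Finset.card_eq_sum_ones]
          push_cast
          rw [← Finset.sum_filter_add_sum_filter_not Finset.univ (fun i => i ∈ S j ∩ S j')]
          rw [Finset.sum_congr (s₁ := S j ∩ S j')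
            (s₂ := Finset.univ.filter (fun i => i ∈ S j ∩ S j'))
            (f := fun _ => (1 : ℝ)) (g := fun i => (if i ∈ S j then (1 : ℝ) else 0) *
              (if i ∈ S j' then 1 else 0)) (by ext; simp) (fun i hi => ?_)]
          · symm
            rw [add_eq_left]
            refine Finset.sum_eq_zero fun i hi => ?_
            have := (Finset.mem_filter.1 hi).2
            by_cases h : i ∈ S j
            · rw [if_neg (fun h' => this (Finset.mem_inter.2 ⟨h, h'⟩)), mul_zero]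
            · rw [if_neg h, zero_mul]
          · have := (Finset.mem_filter.1 hi).2
            rw [Finset.mem_inter] at this
            rw [if_pos this.1, if_pos this.2, one_mul]
        have h4 : ∀ i : Fin r, ((J.filter fun j => i ∈ S j).card : ℝ)
            = ∑ j ∈ J, (if i ∈ S j then (1 : ℝ) else 0) := by
          intro i
          rw [Finset.card_filter]
          push_cast
          rfl
        have h5 : ∀ i : Fin r, ((J.filter fun j => i ∈ S j).card : ℝ) ^ 2
            = ∑ j ∈ J, ∑ j' ∈ J, (if i ∈ S j then (1 : ℝ) else 0)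
              * (if i ∈ S j' then 1 else 0) := by
          intro i
          rw [h4, sq, Finset.sum_mul_sum]
        calc ∑ j ∈ J, ∑ j' ∈ J, ((S j ∩ S j').card : ℝ)
            = ∑ j ∈ J, ∑ j' ∈ J, ∑ i : Fin r, (if i ∈ S j then (1 : ℝ) else 0)
              * (if i ∈ S j' then 1 else 0) :=
              Finset.sum_congr rfl fun j _ => Finset.sum_congr rfl fun j' _ => h3 j j'
          _ = ∑ j ∈ J, ∑ i : Fin r, ∑ j' ∈ J, (if i ∈ S j then (1 : ℝ) else 0)
              * (if i ∈ S j' then 1 else 0) :=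
              Finset.sum_congr rfl fun j _ => Finset.sum_comm
          _ = ∑ i : Fin r, ∑ j ∈ J, ∑ j' ∈ J, (if i ∈ S j then (1 : ℝ) else 0)
              * (if i ∈ S j' then 1 else 0) := Finset.sum_comm
          _ = _ := Finset.sum_congr rfl fun i _ => (h5 i).symm

/-- one block: a large fraction of the colourings leave many variables unread -/
theorem one_block {n r Q k : ℕ} (hn : 1 ≤ n) (hQ : 1 ≤ Q) (c₀ : Fin Q)
    (S : Fin n → Finset (Fin r)) (hS : ∑ j, (S j).card ≤ k * n) :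
    ∑ χ : Fin r → Fin Q, (if ((Finset.univ.filter fun j => ∀ i ∈ S j, χ i = c₀).card : ℝ)
        < (n : ℝ) / (4 * (Q : ℝ) ^ (2 * k)) then (1 : ℝ) else 0)
      ≤ (Q : ℝ) ^ r * (16 * (Q : ℝ) ^ (4 * k) / (n : ℝ) ^ 2
        * ∑ i : Fin r, ((Finset.univ.filter fun j => i ∈ S j).card : ℝ) ^ 2) := by
  have hQ1 : (1 : ℝ) ≤ Q := by exact_mod_cast hQ
  have hn1 : (1 : ℝ) ≤ n := by exact_mod_cast hn
  have hn0 : (0 : ℝ) < n := by linarith
  set q : ℝ := 1 / (Q : ℝ) with hq
  have hq0 : 0 < q := by positivity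
  have hq1 : q ≤ 1 := by
    rw [hq, div_le_one (by linarith)]
    exact hQ1
  set J : Finset (Fin n) := Finset.univ.filter fun j => (S j).card ≤ 2 * k with hJ
  have hJcard : n ≤ 2 * J.card := by
    have h1 : (Finset.univ.filter fun j => ¬ (S j).card ≤ 2 * k).card * (2 * k + 1)
        ≤ k * n := by
      refine le_trans ?_ hS
      rw [← smul_eq_mul, ← Finset.sum_const]
      refine le_trans (Finset.sum_le_sum fun j hj => ?_)
        (Finset.sum_le_univ_sum_of_nonneg (f := fun j => (S j).card) fun j => Nat.zero_le _)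
      have := (Finset.mem_filter.1 hj).2
      omega
    have h2 := Finset.card_filter_add_card_filter_not (s := (Finset.univ : Finset (Fin n)))
      (fun j => (S j).card ≤ 2 * k)
    rw [Finset.card_univ, Fintype.card_fin] at h2
    have h3 : 2 * (Finset.univ.filter fun j => ¬ (S j).card ≤ 2 * k).card ≤ n := by
      set B := (Finset.univ.filter fun j => ¬ (S j).card ≤ 2 * k).card with hB
      have h4 : (2 * B) * (2 * k + 1) ≤ n * (2 * k + 1) := by nlinarith
      exact Nat.le_of_mul_le_mul_right h4 (by omega)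
    rw [hJ]
    omega
  set μ : ℝ := ∑ j ∈ J, q ^ (S j).card with hμ
  have hμlow : (n : ℝ) / 2 * q ^ (2 * k) ≤ μ := by
    calc (n : ℝ) / 2 * q ^ (2 * k) ≤ (J.card : ℝ) * q ^ (2 * k) := by
          refine mul_le_mul_of_nonneg_right ?_ (by positivity)
          have : (n : ℝ) ≤ 2 * J.card := by exact_mod_cast hJcard
          linarith
      _ = ∑ _j ∈ J, q ^ (2 * k) := by rw [Finset.sum_const, nsmul_eq_mul]
      _ ≤ μ := Finset.sum_le_sum fun j hj =>
          pow_le_pow_of_le_one hq0.le hq1 (Finset.mem_filter.1 hj).2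
  set τ : ℝ := (n : ℝ) / (4 * (Q : ℝ) ^ (2 * k)) with hτ
  have hτ0 : 0 < τ := by positivity
  have hτμ : 2 * τ ≤ μ := by
    refine le_trans (le_of_eq ?_) hμlow
    rw [hτ, hq, one_div, inv_pow]
    field_simp
    norm_num
  have hpt : ∀ χ : Fin r → Fin Q,
      (if ((Finset.univ.filter fun j => ∀ i ∈ S j, χ i = c₀).card : ℝ) < τ then (1 : ℝ) else 0)
      ≤ (∑ j ∈ J, ind c₀ (S j) χ - μ) ^ 2 / τ ^ 2 := by
    intro χ
    split_ifs with h
    · rw [le_div_iff₀ (by positivity), one_mul]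
      have h1 : ∑ j ∈ J, ind c₀ (S j) χ
          ≤ ((Finset.univ.filter fun j => ∀ i ∈ S j, χ i = c₀).card : ℝ) := by
        have h2 : ((Finset.univ.filter fun j => ∀ i ∈ S j, χ i = c₀).card : ℝ)
            = ∑ j, ind c₀ (S j) χ := by
          rw [Finset.card_filter]
          push_cast
          rfl
        rw [h2]
        exact Finset.sum_le_univ_sum_of_nonneg fun j => ind_nonneg _ _ _
      nlinarith
    · positivity
  refine (Finset.sum_le_sum fun χ _ => hpt χ).trans ?_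
  rw [← Finset.sum_div, div_le_iff₀ (by positivity)]
  refine (second_moment hQ c₀ S J).trans ?_
  have h1 : ∑ i : Fin r, ((J.filter fun j => i ∈ S j).card : ℝ) ^ 2
      ≤ ∑ i : Fin r, ((Finset.univ.filter fun j => i ∈ S j).card : ℝ) ^ 2 := by
    refine Finset.sum_le_sum fun i _ => ?_
    refine pow_le_pow_left₀ (by positivity) ?_ 2
    exact_mod_cast Finset.card_le_card (Finset.filter_subset_filter _ (Finset.subset_univ _))
  have h2 : 16 * (Q : ℝ) ^ (4 * k) / (n : ℝ) ^ 2 * τ ^ 2 = 1 := by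
    rw [hτ]
    have : (Q : ℝ) ^ (4 * k) = ((Q : ℝ) ^ (2 * k)) ^ 2 := by
      rw [← pow_mul]
      congr 1
      ring
    rw [this]
    field_simp
    norm_num
  calc (Q : ℝ) ^ r * ∑ i : Fin r, ((J.filter fun j => i ∈ S j).card : ℝ) ^ 2
      ≤ (Q : ℝ) ^ r * ∑ i : Fin r, ((Finset.univ.filter fun j => i ∈ S j).card : ℝ) ^ 2 :=
        mul_le_mul_of_nonneg_left h1 (by positivity)
    _ = (Q : ℝ) ^ r * (∑ i : Fin r, ((Finset.univ.filter fun j => i ∈ S j).card : ℝ) ^ 2)
        * (16 * (Q : ℝ) ^ (4 * k) / (n : ℝ) ^ 2 * τ ^ 2) := by rw [h2, mul_one]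
    _ = _ := by ring

/-- the size of the first colour class -/
theorem class_size {r Q : ℕ} (hQ : 1 ≤ Q) (c₀ : Fin Q) :
    ∑ χ : Fin r → Fin Q, ((Finset.univ.filter fun i => χ i = c₀).card : ℝ)
      = (Q : ℝ) ^ r * (r * (1 / (Q : ℝ))) := by
  have h1 : ∀ χ : Fin r → Fin Q, ((Finset.univ.filter fun i => χ i = c₀).card : ℝ)
      = ∑ i, ind c₀ {i} χ := by
    intro χ
    rw [Finset.card_filter]
    push_cast
    refine Finset.sum_congr rfl fun i _ => ?_
    unfold ind
    simp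
  rw [Finset.sum_congr rfl (fun χ _ => h1 χ), Finset.sum_comm]
  simp only [sum_ind hQ, Finset.card_singleton, pow_one, Finset.sum_const, Finset.card_univ,
    Fintype.card_fin, nsmul_eq_mul]
  ring

end h70

open h70

/-- Row R3: choice of the set `ω` of segments by a random colouring with `Q` colours. -/
theorem omega_exists {n : ℕ} {σ : Type} (P : BP (V n) σ) (L r k Q : ℕ) (hn : 1 ≤ n)
    (hr : 1 ≤ r) (hQ : 1 ≤ Q) (hL : r * L ≤ k * n) :
    ∃ ω : Finset (Fin r), ω.card * Q ≤ 4 * r ∧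
      ex (fun z : V n → Bool =>
        if ((P.unread L ωᶜ 0 z).card : ℝ) < (n : ℝ) / (4 * (Q : ℝ) ^ (2 * k)) ∨
          ((P.unread L ωᶜ 1 z).card : ℝ) < (n : ℝ) / (4 * (Q : ℝ) ^ (2 * k))
        then (1 : ℝ) else 0) ≤ 50 * (k : ℝ) ^ 2 * (Q : ℝ) ^ (4 * k) / (r : ℝ) := by
  classical
  have hQ1 : (1 : ℝ) ≤ Q := by exact_mod_cast hQ
  have hn1 : (1 : ℝ) ≤ n := by exact_mod_cast hn
  have hr1 : (1 : ℝ) ≤ r := by exact_mod_cast hr
  let c₀ : Fin Q := ⟨0, hQ⟩
  set θ : ℝ := 50 * (k : ℝ) ^ 2 * (Q : ℝ) ^ (4 * k) / (r : ℝ) with hθ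
  have hθ0 : 0 ≤ θ := by positivity
  set τ : ℝ := (n : ℝ) / (4 * (Q : ℝ) ^ (2 * k)) with hτ
  -- the segments which read a variable
  let S : (V n → Bool) → Fin 3 → Fin n → Finset (Fin r) := fun z e j =>
    Finset.univ.filter fun i => (e, j) ∈ P.seg L z i
  let om : (Fin r → Fin Q) → Finset (Fin r) := fun χ => Finset.univ.filter fun i => χ i = c₀
  have hun : ∀ (χ : Fin r → Fin Q) (e : Fin 3) (z : V n → Bool), P.unread L (om χ)ᶜ e z
      = Finset.univ.filter fun j => ∀ i ∈ S z e j, χ i = c₀ := by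
    intro χ e z
    ext j
    simp only [BP.unread, Finset.mem_filter, Finset.mem_univ, true_and, S, om,
      Finset.mem_compl]
    constructor
    · intro h i hi
      by_contra hcon
      exact h i hcon hi
    · intro h i hi hcon
      exact hi (h i hcon)
  -- the number of reads
  have hseg : ∀ z i, (P.seg L z i).card ≤ L := by
    intro z i
    unfold BP.seg BP.reads
    exact Finset.card_image_le.trans (by simp)
  let N : (V n → Bool) → Fin 3 → Fin r → ℕ := fun z e i =>
    (Finset.univ.filter fun j => i ∈ S z e j).card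
  have hN01 : ∀ z i, N z 0 i + N z 1 i ≤ L := by
    intro z i
    refine le_trans ?_ (hseg z i)
    have h1 : ∀ e, N z e i = ((Finset.univ.filter fun j => i ∈ S z e j).map
        ⟨fun j => ((e, j) : V n), fun a b h => (Prod.ext_iff.1 h).2⟩).card := by
      intro e
      rw [Finset.card_map]
    rw [h1 0, h1 1, ← Finset.card_union_of_disjoint]
    · refine Finset.card_le_card ?_
      intro x hx
      rw [Finset.mem_union, Finset.mem_map, Finset.mem_map] at hx
      rcases hx with ⟨j, hj, rfl⟩ | ⟨j, hj, rfl⟩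
      · simpa [S] using hj
      · simpa [S] using hj
    · rw [Finset.disjoint_left]
      intro x hx hx'
      rw [Finset.mem_map] at hx hx'
      obtain ⟨j, _, rfl⟩ := hx
      obtain ⟨j', _, h⟩ := hx'
      have := (Prod.ext_iff.1 h).1
      simp at this
  have hsum : ∀ z (e : Fin 3), (e = 0 ∨ e = 1) → ∑ j, (S z e j).card ≤ k * n := by
    intro z e he
    have h1 : ∑ j, (S z e j).card = ∑ i : Fin r, N z e i := by
      simp only [N, Finset.card_eq_sum_ones, Finset.sum_filter]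
      simp only [S, Finset.mem_filter, Finset.mem_univ, true_and, Finset.sum_filter]
      exact Finset.sum_comm
    rw [h1]
    refine le_trans ?_ hL
    calc ∑ i : Fin r, N z e i ≤ ∑ _i : Fin r, L := Finset.sum_le_sum fun i _ => by
          have := hN01 z i
          rcases he with rfl | rfl <;> omega
      _ = r * L := by simp
  -- the bad colourings for one input
  let bd : (Fin r → Fin Q) → (V n → Bool) → ℝ := fun χ z =>
    if ((P.unread L (om χ)ᶜ 0 z).card : ℝ) < τ ∨ ((P.unread L (om χ)ᶜ 1 z).card : ℝ) < τ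
    then (1 : ℝ) else 0
  have hQr : 0 < (Q : ℝ) ^ r := by positivity
  have hbd : ∀ z, ∑ χ : Fin r → Fin Q, bd χ z ≤ (Q : ℝ) ^ r * (θ / 2) := by
    intro z
    have h1 : ∀ χ : Fin r → Fin Q, bd χ z
        ≤ (if ((Finset.univ.filter fun j => ∀ i ∈ S z 0 j, χ i = c₀).card : ℝ) < τ
            then (1 : ℝ) else 0)
          + (if ((Finset.univ.filter fun j => ∀ i ∈ S z 1 j, χ i = c₀).card : ℝ) < τ
            then (1 : ℝ) else 0) := by
      intro χ
      simp only [bd]
      rw [hun, hun]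
      by_cases h2 : ((Finset.univ.filter fun j => ∀ i ∈ S z 0 j, χ i = c₀).card : ℝ) < τ
      · rw [if_pos (Or.inl h2), if_pos h2]
        split_ifs <;> norm_num
      · by_cases h3 : ((Finset.univ.filter fun j => ∀ i ∈ S z 1 j, χ i = c₀).card : ℝ) < τ
        · rw [if_pos (Or.inr h3), if_neg h2, if_pos h3]
          norm_num
        · rw [if_neg (fun h => h.elim h2 h3), if_neg h2, if_neg h3]
          norm_num
    refine (Finset.sum_le_sum fun χ _ => h1 χ).trans ?_
    rw [Finset.sum_add_distrib]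
    refine (add_le_add (one_block hn hQ c₀ (S z 0) (hsum z 0 (Or.inl rfl)))
      (one_block hn hQ c₀ (S z 1) (hsum z 1 (Or.inr rfl)))).trans ?_
    rw [← mul_add, ← mul_add]
    refine mul_le_mul_of_nonneg_left ?_ hQr.le
    have h2 : ∑ i : Fin r, ((Finset.univ.filter fun j => i ∈ S z 0 j).card : ℝ) ^ 2
        + ∑ i : Fin r, ((Finset.univ.filter fun j => i ∈ S z 1 j).card : ℝ) ^ 2
        ≤ (r : ℝ) * (L : ℝ) ^ 2 := by
      rw [← Finset.sum_add_distrib]
      calc ∑ i : Fin r, (((Finset.univ.filter fun j => i ∈ S z 0 j).card : ℝ) ^ 2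
            + ((Finset.univ.filter fun j => i ∈ S z 1 j).card : ℝ) ^ 2)
          ≤ ∑ _i : Fin r, (L : ℝ) ^ 2 := Finset.sum_le_sum fun i _ => by
            have h3 : ((N z 0 i : ℕ) : ℝ) + ((N z 1 i : ℕ) : ℝ) ≤ L := by
              exact_mod_cast hN01 z i
            have h4 : (0 : ℝ) ≤ (N z 0 i : ℕ) := Nat.cast_nonneg _
            have h5 : (0 : ℝ) ≤ (N z 1 i : ℕ) := Nat.cast_nonneg _
            change ((N z 0 i : ℕ) : ℝ) ^ 2 + ((N z 1 i : ℕ) : ℝ) ^ 2 ≤ (L : ℝ) ^ 2
            nlinarith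
        _ = (r : ℝ) * (L : ℝ) ^ 2 := by simp
    have h3 : (r : ℝ) * (L : ℝ) ^ 2 ≤ (k : ℝ) ^ 2 * (n : ℝ) ^ 2 / r := by
      rw [le_div_iff₀ (by linarith)]
      have h4 : (r : ℝ) * L ≤ k * n := by exact_mod_cast hL
      have h5 : (0 : ℝ) ≤ (r : ℝ) * L := by positivity
      calc (r : ℝ) * (L : ℝ) ^ 2 * r = ((r : ℝ) * L) ^ 2 := by ring
        _ ≤ ((k : ℝ) * n) ^ 2 := pow_le_pow_left₀ h5 h4 2
        _ = _ := by ring
    calc 16 * (Q : ℝ) ^ (4 * k) / (n : ℝ) ^ 2
          * (∑ i : Fin r, ((Finset.univ.filter fun j => i ∈ S z 0 j).card : ℝ) ^ 2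
            + ∑ i : Fin r, ((Finset.univ.filter fun j => i ∈ S z 1 j).card : ℝ) ^ 2)
        ≤ 16 * (Q : ℝ) ^ (4 * k) / (n : ℝ) ^ 2 * ((k : ℝ) ^ 2 * (n : ℝ) ^ 2 / r) :=
          mul_le_mul_of_nonneg_left (h2.trans h3) (by positivity)
      _ = 16 * (k : ℝ) ^ 2 * (Q : ℝ) ^ (4 * k) / r := by
          field_simp
      _ ≤ θ / 2 := by
          rw [hθ]
          have : 0 ≤ (k : ℝ) ^ 2 * (Q : ℝ) ^ (4 * k) / r := by positivity
          have e1 : 16 * (k : ℝ) ^ 2 * (Q : ℝ) ^ (4 * k) / r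
              = 16 * ((k : ℝ) ^ 2 * (Q : ℝ) ^ (4 * k) / r) := by ring
          have e2 : 50 * (k : ℝ) ^ 2 * (Q : ℝ) ^ (4 * k) / r
              = 50 * ((k : ℝ) ^ 2 * (Q : ℝ) ^ (4 * k) / r) := by ring
          rw [e1, e2]
          linarith
  -- contradiction
  by_contra hcon
  push Not at hcon
  have hbig : ∀ χ : Fin r → Fin Q, ¬ (om χ).card * Q ≤ 4 * r →
      (4 : ℝ) * r ≤ ((om χ).card : ℝ) * Q := by
    intro χ h
    push Not at h
    exact_mod_cast h.le
  let gd : (Fin r → Fin Q) → ℝ := fun χ => if (om χ).card * Q ≤ 4 * r then 1 else 0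
  have hgd : (Q : ℝ) ^ r * (3 / 4) ≤ ∑ χ, gd χ := by
    have h1 : ∀ χ, 1 - ((om χ).card : ℝ) * Q / (4 * r) ≤ gd χ := by
      intro χ
      simp only [gd]
      split_ifs with h
      · have : 0 ≤ ((om χ).card : ℝ) * Q / (4 * r) := by positivity
        linarith
      · have := hbig χ h
        have h2 : 1 ≤ ((om χ).card : ℝ) * Q / (4 * r) := by
          rw [le_div_iff₀ (by positivity)]
          linarith
        linarith
    refine le_trans (le_of_eq ?_) (Finset.sum_le_sum fun χ _ => h1 χ)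
    rw [Finset.sum_sub_distrib, ← Finset.sum_div, ← Finset.sum_mul]
    have h2 := class_size (r := r) hQ c₀
    rw [h2]
    simp only [Finset.sum_const, Finset.card_univ, Fintype.card_fun, Fintype.card_fin,
      nsmul_eq_mul, mul_one]
    push_cast
    have hQ0 : (Q : ℝ) ≠ 0 := by positivity
    have hr0 : (r : ℝ) ≠ 0 := by positivity
    field_simp
    ring
  have hlow : ∀ χ, gd χ * θ ≤ gd χ * ex (fun z => bd χ z) := by
    intro χ
    simp only [gd]
    split_ifs with h
    · have := hcon (om χ) h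
      rw [one_mul, one_mul]
      exact this.le
    · simp
  obtain ⟨χ₀, hχ₀⟩ : ∃ χ₀, gd χ₀ = 1 := by
    by_contra hno
    push Not at hno
    have h1 : ∀ χ, gd χ = 0 := by
      intro χ
      have h2 := hno χ
      simp only [gd] at h2 ⊢
      split_ifs with h
      · rw [if_pos h] at h2
        exact absurd rfl h2
      · rfl
    rw [Finset.sum_congr rfl (fun χ _ => h1 χ), Finset.sum_const_zero] at hgd
    have : 0 < (Q : ℝ) ^ r * (3 / 4) := by positivity
    linarith
  have hstrict : gd χ₀ * θ < gd χ₀ * ex (fun z => bd χ₀ z) := by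
    rw [hχ₀, one_mul, one_mul]
    have h : (om χ₀).card * Q ≤ 4 * r := by
      by_contra h
      simp only [gd] at hχ₀
      rw [if_neg h] at hχ₀
      norm_num at hχ₀
    exact hcon (om χ₀) h
  have h1 : ∑ χ, gd χ * θ < ∑ χ, gd χ * ex (fun z => bd χ z) :=
    Finset.sum_lt_sum (fun χ _ => hlow χ) ⟨χ₀, Finset.mem_univ _, hstrict⟩
  have hbd0 : ∀ χ z, 0 ≤ bd χ z := by
    intro χ z
    simp only [bd]
    split_ifs <;> norm_num
  have h2 : ∑ χ, gd χ * ex (fun z => bd χ z) ≤ ∑ χ, ex (fun z => bd χ z) := by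
    refine Finset.sum_le_sum fun χ _ => ?_
    have h3 : 0 ≤ ex (fun z => bd χ z) :=
      div_nonneg (Finset.sum_nonneg fun z _ => hbd0 χ z) (Nat.cast_nonneg _)
    simp only [gd]
    split_ifs
    · rw [one_mul]
    · rw [zero_mul]
      exact h3
  have h3 : ∑ χ, ex (fun z => bd χ z) ≤ (Q : ℝ) ^ r * (θ / 2) := by
    simp only [ex]
    rw [← Finset.sum_div, Finset.sum_comm, div_le_iff₀ (by positivity)]
    calc ∑ z : V n → Bool, ∑ χ, bd χ z
        ≤ ∑ _z : V n → Bool, (Q : ℝ) ^ r * (θ / 2) := Finset.sum_le_sum fun z _ => hbd z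
      _ = _ := by
          rw [Finset.sum_const, nsmul_eq_mul, Finset.card_univ]
          ring
  have h4 : (Q : ℝ) ^ r * (3 / 4) * θ ≤ ∑ χ, gd χ * θ := by
    rw [← Finset.sum_mul]
    exact mul_le_mul_of_nonneg_right hgd hθ0
  have h5 : (Q : ℝ) ^ r * (θ / 2) ≤ (Q : ℝ) ^ r * (3 / 4) * θ := by
    have : 0 ≤ (Q : ℝ) ^ r * θ := by positivity
    linarith
  linarith

end TSP
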