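import Pool.Agent.TSP.Moment
import Pool.Agent.TSP.Expand
import Pool.Agent.TSP.Bias

/-! # Row R9: Markov and union bound over the seeds (helper37) -/

set_option linter.unusedSectionVars false

namespace TSP

open Finset

namespace H37

theorem G_nonneg {n : ℕ} (c : Fin n → Fin n → Fin n → ZMod 2) (A A' B : Finset (Fin n)) (s : ℕ) :
    0 ≤ G c A A' B s := ex_nonneg fun v => pow_nonneg (K_nonneg c A A' B v) s

theorem ex_sum {X ι : Type} [Fintype X] (s : Finset ι) (f : ι → X → ℝ) :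
    ex (fun x => ∑ i ∈ s, f i x) = ∑ i ∈ s, ex (f i) := by
  unfold ex
  rw [sum_comm, sum_div]

theorem ex_div {X : Type} [Fintype X] (f : X → ℝ) (a : ℝ) : ex (fun x => f x / a) = ex f / a := by
  unfold ex
  rw [← sum_div, div_div, div_div, mul_comm]

theorem seeds_one {Θ : Type} [Fintype Θ] [Nonempty Θ] {n : ℕ}
    (c : Θ → Fin n → Fin n → Fin n → ZMod 2) (ε : ℝ) (hε0 : 0 ≤ ε)
    (hε : ∀ Y : Fin n → Fin n → Fin n → ZMod 2, Y ≠ 0 →
      ex (fun τ => chi (∑ a, ∑ a', ∑ b, Y a a' b * c τ a a' b)) ≤ ε)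
    {m mB : ℕ} (s h : ℕ) (η : ℝ) (hη : 0 < η) (A A' B : Finset (Fin n)) (hA : A.card = m)
    (hA' : A'.card = m) (hB : B.card = mB) :
    ex (fun τ => if η < G (c τ) A A' B s then (1 : ℝ) else 0) ≤
      ((1 / 2 ^ mB + 2 ^ h * (2 ^ (s * s + s) / 2 ^ (s * m))) ^ h + ε) / η ^ h := by
  have h1 := moment_expand c ε hε A A' B s h
  have h2 := prob_Y (s := s) A A' B hA hA' hB h
  rw [max_eq_left hε0] at h1
  have h3 : ex (fun τ => if η < G (c τ) A A' B s then (1 : ℝ) else 0) ≤
      ex fun τ => G (c τ) A A' B s ^ h / η ^ h := by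
    apply ex_mono
    intro τ
    have h4 := G_nonneg (c τ) A A' B s
    split_ifs with h5
    · rw [le_div_iff₀ (by positivity), one_mul]
      exact pow_le_pow_left₀ hη.le h5.le h
    · positivity
  refine h3.trans ?_
  rw [ex_div]
  apply div_le_div_of_nonneg_right _ (by positivity)
  linarith

end H37

open H37

/-- Row R9: Markov and union bound: for most seeds all the moments `G` are small. -/
theorem seeds_good {Θ : Type} [Fintype Θ] [Nonempty Θ] {n : ℕ}
    (c : Θ → Fin n → Fin n → Fin n → ZMod 2) (ε : ℝ) (hε0 : 0 ≤ ε)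
    (hε : ∀ Y : Fin n → Fin n → Fin n → ZMod 2, Y ≠ 0 →
      ex (fun τ => chi (∑ a, ∑ a', ∑ b, Y a a' b * c τ a a' b)) ≤ ε)
    (m mB s h : ℕ) (η : ℝ) (hη : 0 < η) :
    ex (fun τ => if ∃ A A' B : Finset (Fin n), A.card = m ∧ A'.card = m ∧ B.card = mB ∧
      η < G (c τ) A A' B s then (1 : ℝ) else 0) ≤
      2 ^ (3 * n) * (((1 / 2 ^ mB + 2 ^ h * (2 ^ (s * s + s) / 2 ^ (s * m))) ^ h + ε) / η ^ h) := by
  classical
  set M : ℝ := ((1 / 2 ^ mB + 2 ^ h * (2 ^ (s * s + s) / 2 ^ (s * m))) ^ h + ε) / η ^ h with hM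
  have hM0 : 0 ≤ M := by positivity
  have h1 : ex (fun τ => if ∃ A A' B : Finset (Fin n), A.card = m ∧ A'.card = m ∧ B.card = mB ∧
      η < G (c τ) A A' B s then (1 : ℝ) else 0) ≤
      ex fun τ => ∑ q : Finset (Fin n) × Finset (Fin n) × Finset (Fin n),
        if q.1.card = m ∧ q.2.1.card = m ∧ q.2.2.card = mB ∧ η < G (c τ) q.1 q.2.1 q.2.2 s
        then (1 : ℝ) else 0 := by
    apply ex_mono
    intro τ
    split_ifs with h2
    · obtain ⟨A, A', B, h3⟩ := h2
      have h4 : ∀ q : Finset (Fin n) × Finset (Fin n) × Finset (Fin n), (0 : ℝ) ≤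
          if q.1.card = m ∧ q.2.1.card = m ∧ q.2.2.card = mB ∧ η < G (c τ) q.1 q.2.1 q.2.2 s
          then (1 : ℝ) else 0 := by
        intro q
        split_ifs <;> norm_num
      have h5 := single_le_sum (f := fun q : Finset (Fin n) × Finset (Fin n) × Finset (Fin n) =>
        if q.1.card = m ∧ q.2.1.card = m ∧ q.2.2.card = mB ∧ η < G (c τ) q.1 q.2.1 q.2.2 s
        then (1 : ℝ) else 0) (fun q _ => h4 q) (mem_univ (A, A', B))
      simp only at h5
      rw [if_pos h3] at h5
      exact h5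
    · refine sum_nonneg fun q _ => ?_
      split_ifs <;> norm_num
  refine h1.trans ?_
  rw [ex_sum]
  calc ∑ q : Finset (Fin n) × Finset (Fin n) × Finset (Fin n),
        ex (fun τ => if q.1.card = m ∧ q.2.1.card = m ∧ q.2.2.card = mB ∧
          η < G (c τ) q.1 q.2.1 q.2.2 s then (1 : ℝ) else 0)
      ≤ ∑ _q : Finset (Fin n) × Finset (Fin n) × Finset (Fin n), M := by
        refine sum_le_sum fun q _ => ?_
        by_cases hq : q.1.card = m ∧ q.2.1.card = m ∧ q.2.2.card = mB
        · have h2 := seeds_one c ε hε0 hε s h η hη q.1 q.2.1 q.2.2 hq.1 hq.2.1 hq.2.2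
          refine le_trans (le_of_eq ?_) h2
          congr 1
          funext τ
          simp only [hq.1, hq.2.1, hq.2.2, true_and]
        · have h2 : (fun τ => if q.1.card = m ∧ q.2.1.card = m ∧ q.2.2.card = mB ∧
              η < G (c τ) q.1 q.2.1 q.2.2 s then (1 : ℝ) else 0) = fun _ => 0 := by
            funext τ
            rw [if_neg]
            rintro ⟨h3, h4, h5, _⟩
            exact hq ⟨h3, h4, h5⟩
          rw [h2, ex_const]
          exact hM0
    _ = 2 ^ (3 * n) * M := by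
        rw [sum_const, card_univ, Fintype.card_prod, Fintype.card_prod, Fintype.card_finset,
          Fintype.card_fin, nsmul_eq_mul]
        congr 1
        push_cast
        ring

end TSP
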