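import Pool.Agent.TSP.Class
import Pool.Agent.TSP.Hoelder
import Pool.Agent.TSP.Bias
import Pool.Agent.TSP.Omega
import Pool.Agent.TSP.Seeds
import Pool.Agent.TSP.Gen
import Pool.Agent.TSP.NumCore2
import Pool.Agent.TSP.NumSeeds2

namespace TSP

open Finset

theorem disj_DA_DB {n : ℕ} (A A' B : Finset (Fin n)) : Disjoint (DA A A') (DB B) := by
  rw [Finset.disjoint_left]
  intro i hi hj
  simp only [DA, DB, mem_filter, mem_univ, true_and] at hi hj
  rcases hi with h | h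
  · rw [hj.1] at h; exact absurd h.1 (by decide)
  · rw [hj.1] at h; exact absurd h.1 (by decide)

/-- From small moments to the cylinder bound. -/
theorem cyl_tri {n : ℕ} (c : Fin n → Fin n → Fin n → ZMod 2) (m mB s : ℕ) (hs : 1 ≤ s) (η : ℝ)
    (hG : ∀ A A' B : Finset (Fin n), A.card = m → A'.card = m → B.card = mB →
      G c A A' B s ≤ η) :
    Cyl (fun z => chi (tri c z)) m mB s (η ^ (1 / (2 * (s : ℝ)))) := by
  intro A A' B hA hA' hB gA gB hA01 hB01 hgA hgB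
  have h1 : ∀ v v' : V n → Bool,
      0 ≤ K c A A' B (fun b => bit (v (2, b)) + bit (v' (2, b))) :=
    fun v v' => K_nonneg _ _ _ _ _
  have h2 := bias_bound c A A' B
  have h3 := (ex_K_pair c A A' B s).le.trans (hG A A' B hA hA' hB)
  exact cyl_bound (DA A A') (DB B) (disj_DA_DB A A' B) gA gB
    (fun z => chi (tri c z)) hA01 hB01 hgA hgB
    (fun v v' => K c A A' B (fun b => bit (v (2, b)) + bit (v' (2, b))))
    h1 h2 s hs η h3

/-- The core bound for a fixed trilinear form with small moments. -/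
theorem core : ∃ k₀ : ℕ, ∀ k n S : ℕ, k₀ ≤ k → 1 ≤ S →
    S * k ^ (40 * k) ≤ n → ∀ c : Fin n → Fin n → Fin n → ZMod 2,
    (∀ A A' B : Finset (Fin n), A.card = n / k ^ (10 * k) → A'.card = n / k ^ (10 * k) →
      B.card = k ^ 2 * (n / k ^ (10 * k)) →
      G c A A' B (k ^ 2) ≤ (2 : ℝ) ^ (-((k ^ 2 * (n / k ^ (10 * k)) : ℕ) : ℝ) / 20)) →
    ∀ (P : BP (V n) (Fin (2 ^ S))) (L : ℕ), k ^ (20 * k) * L ≤ k * n →
    |ex fun z => chi (tri c z) * sg (P.out (P.run z P.start 0 (k ^ (20 * k) * L)))| ≤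
      1 / (2 * (k : ℝ) ^ k) := by
  obtain ⟨k₀, h₀⟩ := numbers_core2
  refine ⟨max k₀ 2, fun k n S hk hS hn c hG P L hL => ?_⟩
  obtain ⟨h1, h2, h3⟩ := h₀ k n S ((le_max_left _ _).trans hk) hS hn
  have hk2 : 2 ≤ k := (le_max_right _ _).trans hk
  have hk0 : 0 < k := by omega
  have hn1 : 1 ≤ n := le_trans (Nat.mul_pos hS (pow_pos hk0 _)) hn
  obtain ⟨ω, hω1, hω2⟩ := omega_exists P L (k ^ (20 * k)) k (4 * k ^ 4) hn1
    (pow_pos hk0 _) (Nat.succ_le_of_lt (by positivity)) hL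
  have hωL : ω.card * L ≤ n / k ^ 3 := by
    rw [Nat.le_div_iff_mul_le (pow_pos hk0 _)]
    have e1 : ω.card * k ^ 4 ≤ k ^ (20 * k) := by
      have : 4 * (ω.card * k ^ 4) ≤ 4 * k ^ (20 * k) := by
        calc 4 * (ω.card * k ^ 4) = ω.card * (4 * k ^ 4) := by ring
          _ ≤ _ := hω1
      omega
    have e2 : k * (ω.card * L * k ^ 3) ≤ k * n := by
      calc k * (ω.card * L * k ^ 3) = (ω.card * k ^ 4) * L := by ring
        _ ≤ k ^ (20 * k) * L := Nat.mul_le_mul_right _ e1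
        _ ≤ k * n := hL
    exact Nat.le_of_mul_le_mul_left e2 hk0
  have hb : (n - n / k ^ 3) + ω.card * L ≤ n := by
    have : n / k ^ 3 ≤ n := Nat.div_le_self _ _
    omega
  have key := class_sum P L (k ^ (20 * k)) ω (fun z => chi (tri c z))
    (fun z => by unfold chi; split_ifs <;> simp) (n / k ^ (10 * k))
    (k ^ 2 * (n / k ^ (10 * k))) (k ^ 2)
    ⌈(n : ℝ) / (4 * (((4 * k ^ 4 : ℕ) : ℝ)) ^ (2 * k))⌉₊ (n - n / k ^ 3)
    (Nat.one_le_pow _ _ hk0) h1 h2 hb _ (by positivity)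
    (cyl_tri c _ _ (k ^ 2) (Nat.one_le_pow _ _ hk0) _ hG)
  refine key.trans (le_trans (add_le_add ?_ (le_of_eq ?_)) h3)
  · refine (cex_mono _ _ fun z => ?_).trans hω2
    apply le_of_eq
    apply if_congr _ rfl rfl
    rw [Nat.lt_ceil, Nat.lt_ceil]
  · simp [Fintype.card_fin]

end TSP
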