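import Pool.Agent.TSP.Defs

/-!
# TSP, row R5: a random tensor sum vanishes only rarely
-/

namespace TSP

open Finset

namespace h8

theorem ex_ite_congr {X : Type} [Fintype X] {P Q : X → Prop} {_ : DecidablePred P}
    {_ : DecidablePred Q}
    (h : ∀ x, P x ↔ Q x) :
    ex (fun x => if P x then (1 : ℝ) else 0) = ex (fun x => if Q x then (1 : ℝ) else 0) := by
  unfold ex
  congr 1
  exact sum_congr rfl fun x _ => if_congr (h x) rfl rfl

theorem ex_equiv {X Y : Type} [Fintype X] [Fintype Y] (e : X ≃ Y) (f : Y → ℝ) :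
    ex (fun x => f (e x)) = ex f := by
  unfold ex
  rw [e.sum_comp, Fintype.card_congr e]

theorem card_filter_congr {X : Type} [Fintype X] {P Q : X → Prop} {_ : DecidablePred P}
    {_ : DecidablePred Q} (h : ∀ x, P x ↔ Q x) : (univ.filter P).card = (univ.filter Q).card := by
  congr 1
  ext x
  simp [h x]

/-- the number of vectors with prescribed coordinates -/
theorem card_fix {J : Type} [Fintype J] [DecidableEq J] (J' : Finset J) (y : J → ZMod 2) :
    ((univ.filter fun w : J → ZMod 2 => ∀ j ∈ J', w j = y j).card : ℝ)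
      = 2 ^ Fintype.card J / 2 ^ J'.card := by
  have h1 : (univ.filter fun w : J → ZMod 2 => ∀ j ∈ J', w j = y j)
      = Fintype.piFinset (fun j => if j ∈ J' then {y j} else univ) := by
    ext w
    simp only [mem_filter, mem_univ, true_and, Fintype.mem_piFinset]
    refine forall_congr' fun j => ?_
    split_ifs with h
    · simp [h]
    · simp [h]
  have h2 : ∀ j, (if j ∈ J' then ({y j} : Finset (ZMod 2)) else univ).card
      = if j ∈ J' then 1 else 2 := by
    intro j
    split_ifs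
    · simp
    · simp [ZMod.card]
  have h3 : ∏ j, (if j ∈ J' then 1 else 2 : ℕ) = 2 ^ (univ.filter fun j => j ∉ J').card := by
    rw [prod_ite, prod_const_one, one_mul, prod_const]
  have h4 : (univ.filter fun j => j ∉ J').card + J'.card = Fintype.card J := by
    have h5 : (univ.filter fun j => j ∉ J') = univ \ J' := by
      ext j
      simp
    rw [h5, card_sdiff_of_subset (subset_univ _), card_univ]
    exact Nat.sub_add_cancel (card_le_univ _)
  rw [h1, Fintype.card_piFinset, prod_congr rfl (fun j _ => h2 j), h3, eq_div_iff (by positivity),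
    ← h4, pow_add]
  push_cast
  rfl

section
variable {Ω I J : Type} [Fintype Ω] [Fintype I] [DecidableEq I] [Fintype J] [DecidableEq J]

/-- the solutions `w` -/
def sol (ξ : Ω → I → ZMod 2) (I' : Finset I) (J' : Finset J) {h : ℕ} (o : Fin h → Ω)
    (Y : I → J → ZMod 2) : Finset (Fin h → J → ZMod 2) :=
  univ.filter fun w => ∀ i ∈ I', ∀ j ∈ J', ∑ t, ξ (o t) i * w t j = Y i j

theorem sol_le (ξ : Ω → I → ZMod 2) (I' : Finset I) (J' : Finset J) {h : ℕ} (o : Fin h → Ω)
    (Y : I → J → ZMod 2) : (sol ξ I' J' o Y).card ≤ (sol ξ I' J' o 0).card := by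
  rcases (sol ξ I' J' o Y).eq_empty_or_nonempty with h0 | ⟨w0, hw0⟩
  · rw [h0]
    simp
  · refine card_le_card_of_injOn (fun w => w - w0) (fun w hw => ?_) (fun w _ w' _ hww => ?_)
    · simp only [sol, coe_filter, mem_univ, true_and, Set.mem_setOf_eq] at hw ⊢
      have hw0' := (mem_filter.1 hw0).2
      intro i hi j hj
      have h1 := hw i hi j hj
      have h2 := hw0' i hi j hj
      simp only [Pi.sub_apply, mul_sub, sum_sub_distrib, h1, h2, sub_self, Pi.zero_apply]
    · simpa using hww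

/-- `ξ o0` is a combination of the `ξ (o t)` -/
def Dep (ξ : Ω → I → ZMod 2) (I' : Finset I) {h : ℕ} (o : Fin h → Ω) (o0 : Ω) : Prop :=
  ∃ c : Fin h → ZMod 2, ∀ i ∈ I', ξ o0 i = ∑ t, c t * ξ (o t) i

open Classical in
theorem sol_succ (ξ : Ω → I → ZMod 2) (I' : Finset I) (J' : Finset J) {h : ℕ} (o : Fin h → Ω)
    (o0 : Ω) : ((sol ξ I' J' (Fin.cons o0 o : Fin (h + 1) → Ω) 0).card : ℝ)
      ≤ 2 ^ Fintype.card J * (1 / 2 ^ J'.card + if Dep ξ I' o o0 then 1 else 0)
        * (sol ξ I' J' o 0).card := by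
  -- the fibres over the first component
  have hfib : ∀ w0 : J → ZMod 2,
      ((sol ξ I' J' (Fin.cons o0 o : Fin (h + 1) → Ω) 0).filter fun w => w 0 = w0).card
        ≤ (sol ξ I' J' o 0).card := by
    intro w0
    refine le_trans ?_ (sol_le ξ I' J' o (fun i j => -(ξ o0 i * w0 j)))
    refine card_le_card_of_injOn (fun w => Fin.tail w) (fun w hw => ?_) (fun w hw w' hw' hww => ?_)
    · simp only [coe_filter, Set.mem_setOf_eq] at hw
      obtain ⟨hw, hw0⟩ := hw
      simp only [sol, mem_filter, mem_univ, true_and, coe_filter, Set.mem_setOf_eq] at hw ⊢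
      intro i hi j hj
      have h1 := hw i hi j hj
      rw [Fin.sum_univ_succ] at h1
      simp only [Fin.cons_zero, Fin.cons_succ, hw0, Pi.zero_apply] at h1
      simp only [Fin.tail]
      exact eq_neg_of_add_eq_zero_right h1
    · simp only [coe_filter, Set.mem_setOf_eq] at hw hw'
      rw [← Fin.cons_self_tail w, ← Fin.cons_self_tail w', hw.2, hw'.2]
      congr 1
  have hsum : (sol ξ I' J' (Fin.cons o0 o : Fin (h + 1) → Ω) 0).card
      = ∑ w0 : J → ZMod 2, ((sol ξ I' J' (Fin.cons o0 o : Fin (h + 1) → Ω) 0).filter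
        fun w => w 0 = w0).card :=
    card_eq_sum_card_fiberwise (fun w _ => mem_coe.2 (mem_univ (w 0)))
  have hZ : (0 : ℝ) ≤ ((sol ξ I' J' o 0).card : ℝ) := Nat.cast_nonneg _
  by_cases hdep : Dep ξ I' o o0
  · rw [if_pos hdep]
    have h1 : ((sol ξ I' J' (Fin.cons o0 o : Fin (h + 1) → Ω) 0).card : ℝ)
        ≤ 2 ^ Fintype.card J * ((sol ξ I' J' o 0).card : ℝ) := by
      rw [hsum]
      push_cast
      calc (∑ w0 : J → ZMod 2, (((sol ξ I' J' (Fin.cons o0 o : Fin (h + 1) → Ω) 0).filter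
            fun w => w 0 = w0).card : ℝ)) ≤ ∑ _w0 : J → ZMod 2, ((sol ξ I' J' o 0).card : ℝ) :=
            sum_le_sum fun w0 _ => by exact_mod_cast hfib w0
        _ = 2 ^ Fintype.card J * ((sol ξ I' J' o 0).card : ℝ) := by
            rw [sum_const, card_univ, Fintype.card_fun, ZMod.card, nsmul_eq_mul]
            push_cast
            rfl
    refine h1.trans (mul_le_mul_of_nonneg_right ?_ hZ)
    refine le_mul_of_one_le_right (by positivity) ?_
    have : (0 : ℝ) ≤ 1 / 2 ^ J'.card := by positivity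
    linarith
  · rw [if_neg hdep, add_zero, hsum]
    have h0 : ∀ w0 : J → ZMod 2, (¬ ∀ j ∈ J', w0 j = (0 : J → ZMod 2) j) →
        ((sol ξ I' J' (Fin.cons o0 o : Fin (h + 1) → Ω) 0).filter fun w => w 0 = w0).card = 0 := by
      intro w0 hw0
      rw [card_eq_zero, filter_eq_empty_iff]
      intro w hw hww
      push Not at hw0
      obtain ⟨j, hj, hne⟩ := hw0
      have h1 : w0 j = 1 := by
        have : ∀ a : ZMod 2, a ≠ 0 → a = 1 := by decide
        exact this _ (by simpa using hne)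
      refine hdep ⟨fun t => -(w t.succ j), fun i hi => ?_⟩
      have h2 := (mem_filter.1 hw).2 i hi j hj
      rw [Fin.sum_univ_succ] at h2
      simp only [Fin.cons_zero, Fin.cons_succ, hww, Pi.zero_apply, h1, mul_one] at h2
      rw [eq_neg_of_add_eq_zero_left h2, ← sum_neg_distrib]
      exact sum_congr rfl fun t _ => by ring
    push_cast
    calc (∑ w0 : J → ZMod 2, (((sol ξ I' J' (Fin.cons o0 o : Fin (h + 1) → Ω) 0).filter
          fun w => w 0 = w0).card : ℝ))
        ≤ ∑ w0 : J → ZMod 2, if ∀ j ∈ J', w0 j = (0 : J → ZMod 2) j then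
            ((sol ξ I' J' o 0).card : ℝ) else 0 := by
          refine sum_le_sum fun w0 _ => ?_
          split_ifs with h
          · exact_mod_cast hfib w0
          · rw [h0 w0 h]
            simp
      _ = 2 ^ Fintype.card J * (1 / 2 ^ J'.card) * ((sol ξ I' J' o 0).card : ℝ) := by
          rw [← sum_filter, sum_const, nsmul_eq_mul, card_fix]
          ring

open Classical in
theorem sum_dep (ξ : Ω → I → ZMod 2) (I' : Finset I) (p : ℝ)
    (hξ : ∀ y : I → ZMod 2, ((univ.filter fun o => ∀ i ∈ I', ξ o i = y i).card : ℝ)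
      ≤ p * Fintype.card Ω) {h : ℕ} (o : Fin h → Ω) :
    (∑ o0 : Ω, if Dep ξ I' o o0 then (1 : ℝ) else 0) ≤ 2 ^ h * p * Fintype.card Ω := by
  calc (∑ o0 : Ω, if Dep ξ I' o o0 then (1 : ℝ) else 0)
      ≤ ∑ o0 : Ω, ∑ c : Fin h → ZMod 2,
          if ∀ i ∈ I', ξ o0 i = ∑ t, c t * ξ (o t) i then (1 : ℝ) else 0 := by
        refine sum_le_sum fun o0 _ => ?_
        split_ifs with hd
        · obtain ⟨c, hc⟩ := hd
          refine le_trans ?_ (single_le_sum (fun c _ => ?_) (mem_univ c))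
          · rw [if_pos hc]
          · split_ifs <;> norm_num
        · exact sum_nonneg fun c _ => by split_ifs <;> norm_num
    _ = ∑ c : Fin h → ZMod 2,
          ((univ.filter fun o0 => ∀ i ∈ I', ξ o0 i = ∑ t, c t * ξ (o t) i).card : ℝ) := by
        rw [sum_comm]
        refine sum_congr rfl fun c _ => ?_
        rw [← sum_filter, sum_const, nsmul_eq_mul, mul_one]
    _ ≤ ∑ _c : Fin h → ZMod 2, p * Fintype.card Ω :=
        sum_le_sum fun c _ => hξ fun i => ∑ t, c t * ξ (o t) i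
    _ = 2 ^ h * p * Fintype.card Ω := by
        rw [sum_const, card_univ, Fintype.card_fun, ZMod.card, Fintype.card_fin, nsmul_eq_mul]
        push_cast
        ring

theorem sum_sol (ξ : Ω → I → ZMod 2) (I' : Finset I) (J' : Finset J) (p : ℝ) (hp : 0 ≤ p)
    (hξ : ∀ y : I → ZMod 2, ((univ.filter fun o => ∀ i ∈ I', ξ o i = y i).card : ℝ)
      ≤ p * Fintype.card Ω) (H : ℕ) : ∀ h : ℕ, h ≤ H →
    (∑ o : Fin h → Ω, ((sol ξ I' J' o 0).card : ℝ))
      ≤ ((Fintype.card Ω : ℝ) * 2 ^ Fintype.card J * (1 / 2 ^ J'.card + 2 ^ H * p)) ^ h := by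
  classical
  intro h
  induction h with
  | zero =>
      intro _
      rw [pow_zero, Fintype.sum_unique]
      have : (sol ξ I' J' (default : Fin 0 → Ω) 0).card ≤ 1 := by
        refine (card_le_univ _).trans ?_
        simp
      exact_mod_cast this
  | succ h ih =>
      intro hH
      have ih := ih (by omega)
      rw [← (Fin.consEquiv fun _ : Fin (h + 1) => Ω).sum_comp, Fintype.sum_prod_type, sum_comm]
      calc (∑ o : Fin h → Ω, ∑ o0 : Ω,
            ((sol ξ I' J' ((Fin.consEquiv fun _ : Fin (h + 1) => Ω) (o0, o)) 0).card : ℝ))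
          ≤ ∑ o : Fin h → Ω, ∑ o0 : Ω, 2 ^ Fintype.card J *
            (1 / 2 ^ J'.card + if Dep ξ I' o o0 then 1 else 0) * ((sol ξ I' J' o 0).card : ℝ) :=
            sum_le_sum fun o _ => sum_le_sum fun o0 _ => sol_succ ξ I' J' o o0
        _ = ∑ o : Fin h → Ω, 2 ^ Fintype.card J * (Fintype.card Ω * (1 / 2 ^ J'.card)
              + ∑ o0 : Ω, if Dep ξ I' o o0 then (1 : ℝ) else 0) * ((sol ξ I' J' o 0).card : ℝ) := by
            refine sum_congr rfl fun o _ => ?_
            rw [← sum_mul, ← mul_sum, sum_add_distrib, sum_const, card_univ, nsmul_eq_mul]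
        _ ≤ ∑ o : Fin h → Ω, (Fintype.card Ω : ℝ) * 2 ^ Fintype.card J *
              (1 / 2 ^ J'.card + 2 ^ H * p) * ((sol ξ I' J' o 0).card : ℝ) := by
            refine sum_le_sum fun o _ => mul_le_mul_of_nonneg_right ?_ (Nat.cast_nonneg _)
            have h1 := sum_dep ξ I' p hξ o
            have h2 : (2 : ℝ) ^ h * p * Fintype.card Ω ≤ 2 ^ H * p * Fintype.card Ω := by
              have h3 : (2 : ℝ) ^ h ≤ 2 ^ H := pow_le_pow_right₀ (by norm_num) (by omega)
              have h4 : (0 : ℝ) ≤ p * Fintype.card Ω := mul_nonneg hp (Nat.cast_nonneg _)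
              nlinarith
            calc (2 : ℝ) ^ Fintype.card J * (Fintype.card Ω * (1 / 2 ^ J'.card)
                  + ∑ o0 : Ω, if Dep ξ I' o o0 then (1 : ℝ) else 0)
                ≤ 2 ^ Fintype.card J * (Fintype.card Ω * (1 / 2 ^ J'.card)
                  + 2 ^ H * p * Fintype.card Ω) :=
                  mul_le_mul_of_nonneg_left (by linarith) (by positivity)
              _ = _ := by ring
        _ ≤ _ := by
            rw [← mul_sum, pow_succ, mul_comm (_ ^ h)]
            exact mul_le_mul_of_nonneg_left ih (by positivity)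

open Classical in
/-- general form -/
theorem prob_gen [Nonempty Ω] (ξ : Ω → I → ZMod 2) (I' : Finset I) (J' : Finset J) (p : ℝ)
    (hp : 0 ≤ p) (hξ : ∀ y : I → ZMod 2,
      ((univ.filter fun o => ∀ i ∈ I', ξ o i = y i).card : ℝ) ≤ p * Fintype.card Ω)
    (Y : I → J → ZMod 2) (h : ℕ) :
    ex (fun q : (Fin h → Ω) × (Fin h → J → ZMod 2) =>
      if ∀ i ∈ I', ∀ j ∈ J', ∑ t, ξ (q.1 t) i * q.2 t j = Y i j then (1 : ℝ) else 0) ≤
      (1 / 2 ^ J'.card + 2 ^ h * p) ^ h := by
  have hΩ : (0 : ℝ) < Fintype.card Ω := by exact_mod_cast Fintype.card_pos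
  unfold ex
  rw [Fintype.sum_prod_type, Fintype.card_prod, Fintype.card_fun, Fintype.card_fun,
    Fintype.card_fun, ZMod.card, Fintype.card_fin]
  push_cast
  rw [div_le_iff₀ (by positivity)]
  calc (∑ o : Fin h → Ω, ∑ w : Fin h → J → ZMod 2,
        if ∀ i ∈ I', ∀ j ∈ J', ∑ t, ξ (o t) i * w t j = Y i j then (1 : ℝ) else 0)
      = ∑ o : Fin h → Ω, ((sol ξ I' J' o Y).card : ℝ) := by
        refine sum_congr rfl fun o _ => ?_
        rw [← sum_filter, sum_const, nsmul_eq_mul, mul_one]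
        rfl
    _ ≤ ∑ o : Fin h → Ω, ((sol ξ I' J' o 0).card : ℝ) :=
        sum_le_sum fun o _ => by exact_mod_cast sol_le ξ I' J' o Y
    _ ≤ ((Fintype.card Ω : ℝ) * 2 ^ Fintype.card J * (1 / 2 ^ J'.card + 2 ^ h * p)) ^ h :=
        sum_sol ξ I' J' p hp hξ h h le_rfl
    _ = _ := by
        rw [mul_pow, mul_pow]
        ring

end

end h8

/-- Row R5a: general lemma.  `ξ` is a random element of an elementary abelian group, every
value having probability at most `p`; then `h` independent copies tensored with `h` random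
vectors vanish only rarely. -/
theorem prob_tensor {Ω I J : Type} [Fintype Ω] [Nonempty Ω] [Fintype I] [DecidableEq I]
    [Fintype J] [DecidableEq J] (ξ : Ω → I → ZMod 2) (p : ℝ) (hp : 0 ≤ p)
    (hξ : ∀ Y : I → ZMod 2, ex (fun o => if ξ o = Y then (1 : ℝ) else 0) ≤ p) (h : ℕ) :
    ex (fun q : (Fin h → Ω) × (Fin h → J → ZMod 2) =>
      if ∀ i j, ∑ t, ξ (q.1 t) i * q.2 t j = 0 then (1 : ℝ) else 0) ≤
      (1 / 2 ^ (Fintype.card J) + 2 ^ h * p) ^ h := by
  classical
  have hΩ : (0 : ℝ) < Fintype.card Ω := by exact_mod_cast Fintype.card_pos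
  have h1 := h8.prob_gen ξ univ (univ : Finset J) p hp (fun y => by
    have h2 := hξ y
    unfold ex at h2
    rw [div_le_iff₀ hΩ, ← sum_filter, sum_const, nsmul_eq_mul, mul_one] at h2
    rwa [h8.card_filter_congr (Q := fun o => ∀ i ∈ univ, ξ o i = y i)
      (fun o => by simp [funext_iff])] at h2) 0 h
  rw [card_univ] at h1
  refine le_trans (le_of_eq (h8.ex_ite_congr fun q => ?_)) h1
  simp

/-- Row R5b. -/
theorem prob_X {n m s : ℕ} (A A' : Finset (Fin n)) (hA : A.card = m) (hA' : A'.card = m)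
    (Y : Fin n → Fin n → ZMod 2) :
    ex (fun p : (Fin s → Fin n → ZMod 2) × (Fin s → Fin n → ZMod 2) =>
      if ∀ a ∈ A, ∀ a' ∈ A', ∑ i, p.1 i a * p.2 i a' = Y a a' then (1 : ℝ) else 0) ≤
      2 ^ (s * s + s) / 2 ^ (s * m) := by
  classical
  have h1 := h8.prob_gen (Ω := Fin n → ZMod 2) (fun u a => u a) A A' (1 / 2 ^ m) (by positivity)
    (fun y => by
      rw [h8.card_fix A y, hA, Fintype.card_fun, ZMod.card, Fintype.card_fin]
      push_cast
      rw [div_eq_mul_one_div, mul_comm]) Y s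
  have h2 : (1 / 2 ^ A'.card + 2 ^ s * (1 / 2 ^ m) : ℝ) ^ s ≤ 2 ^ (s * s + s) / 2 ^ (s * m) := by
    rw [hA']
    have h3 : (1 / 2 ^ m + 2 ^ s * (1 / 2 ^ m) : ℝ) ≤ 2 ^ (s + 1) / 2 ^ m := by
      have h4 : (1 : ℝ) ≤ 2 ^ s := one_le_pow₀ (by norm_num)
      have h5 : (0 : ℝ) < 1 / 2 ^ m := by positivity
      rw [pow_succ, div_eq_mul_one_div (2 ^ s * 2 : ℝ)]
      nlinarith
    calc (1 / 2 ^ m + 2 ^ s * (1 / 2 ^ m) : ℝ) ^ s ≤ (2 ^ (s + 1) / 2 ^ m) ^ s :=
          pow_le_pow_left₀ (by positivity) h3 s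
      _ = 2 ^ (s * s + s) / 2 ^ (s * m) := by
          rw [div_pow, ← pow_mul, ← pow_mul]
          congr 2 <;> ring
  refine le_trans (le_of_eq ?_) (h1.trans h2)
  exact h8.ex_ite_congr fun q => Iff.rfl

/-- Row R5c. -/
theorem prob_Y {n m mB s : ℕ} (A A' B : Finset (Fin n)) (hA : A.card = m) (hA' : A'.card = m)
    (hB : B.card = mB) (h : ℕ) :
    ex (fun p : (Fin h → Fin s → Fin n → ZMod 2) × (Fin h → Fin s → Fin n → ZMod 2) ×
        (Fin h → Fin n → ZMod 2) =>
      if ∀ a ∈ A, ∀ a' ∈ A', ∀ b ∈ B, ∑ t, ∑ i, p.1 t i a * p.2.1 t i a' * p.2.2 t b = 0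
      then (1 : ℝ) else 0) ≤
      (1 / 2 ^ mB + 2 ^ h * (2 ^ (s * s + s) / 2 ^ (s * m))) ^ h := by
  classical
  have h1 := h8.prob_gen (Ω := (Fin s → Fin n → ZMod 2) × (Fin s → Fin n → ZMod 2))
    (fun u (a : Fin n × Fin n) => ∑ i, u.1 i a.1 * u.2 i a.2) (A ×ˢ A') B
    (2 ^ (s * s + s) / 2 ^ (s * m)) (by positivity)
    (fun y => by
      have h2 := prob_X (s := s) A A' hA hA' (fun a a' => y (a, a'))
      unfold ex at h2
      rw [div_le_iff₀ (by exact_mod_cast Fintype.card_pos), ← sum_filter, sum_const, nsmul_eq_mul,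
        mul_one] at h2
      rwa [h8.card_filter_congr
        (Q := fun u : (Fin s → Fin n → ZMod 2) × (Fin s → Fin n → ZMod 2) =>
          ∀ a ∈ A ×ˢ A', ∑ i, u.1 i a.1 * u.2 i a.2 = y a) (fun u => by
          simp only [mem_product, Prod.forall]
          constructor
          · intro h a a' haa
            exact h a haa.1 a' haa.2
          · intro h a ha a' ha'
            exact h a a' ⟨ha, ha'⟩)] at h2) 0 h
  rw [hB] at h1
  let e : (Fin h → (Fin s → Fin n → ZMod 2) × (Fin s → Fin n → ZMod 2)) × (Fin h → Fin n → ZMod 2)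
      ≃ (Fin h → Fin s → Fin n → ZMod 2) × (Fin h → Fin s → Fin n → ZMod 2) ×
        (Fin h → Fin n → ZMod 2) :=
    { toFun := fun q => (fun t => (q.1 t).1, fun t => (q.1 t).2, q.2)
      invFun := fun q => (fun t => (q.1 t, q.2.1 t), q.2.2)
      left_inv := fun q => rfl
      right_inv := fun q => rfl }
  refine le_trans (le_of_eq ?_) h1
  rw [← h8.ex_equiv e]
  refine h8.ex_ite_congr fun q => ?_
  simp only [mem_product, Prod.forall, Pi.zero_apply, e, Equiv.coe_fn_mk]
  constructor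
  · intro h a a' haa b hb
    rw [← h a haa.1 a' haa.2 b hb]
    exact sum_congr rfl fun t _ => by rw [sum_mul]
  · intro h a ha a' ha' b hb
    rw [← h a a' ⟨ha, ha'⟩ b hb]
    exact sum_congr rfl fun t _ => by rw [sum_mul]

end TSP
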